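import Mathlib

/-! A decorrelation lemma on products of cyclic groups (Chen-Stein style) for MP_145b75_an. -/

namespace Pool.Agent.MP_145b75_an

open Finset

variable {ι : Type*} [Fintype ι] [DecidableEq ι] (q : ι → ℕ) [∀ i, NeZero (q i)]

/-- The product of cyclic groups. -/
abbrev Om (q : ι → ℕ) := (i : ι) → ZMod (q i)

/-- number of vanishing coordinates. -/
def cnt (ω : Om q) : ℤ := ∑ i, if ω i = 0 then (1 : ℤ) else 0

/-- indicator of `ω i = α`. -/
noncomputable def ind (i : ι) (α : ZMod (q i)) (ω : Om q) : ℝ := if ω i = α then 1 else 0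

theorem sum_translate (F : Om q → ℝ) (c : Om q) : ∑ ω, F (ω + c) = ∑ ω, F ω :=
  Fintype.sum_equiv (Equiv.addRight c) _ _ (fun _ => rfl)

theorem sum_ind_mul (i : ι) (α : ZMod (q i)) (F : Om q → ℝ)
    (hF : ∀ ω t, F (ω + Pi.single i t) = F ω) :
    (q i : ℝ) * ∑ ω, ind q i α ω * F ω = ∑ ω, F ω := by
  have h1 : ∀ t : ZMod (q i), ∑ ω, ind q i (α + t) ω * F ω = ∑ ω, ind q i α ω * F ω := by
    intro t
    rw [← sum_translate q (fun ω => ind q i (α + t) ω * F ω) (Pi.single i t)]
    apply Finset.sum_congr rfl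
    intro ω _
    simp only [hF, ind, Pi.add_apply, Pi.single_eq_same, add_left_inj]
  have h2 : ∑ t : ZMod (q i), ∑ ω, ind q i (α + t) ω * F ω = ∑ ω, F ω := by
    rw [Finset.sum_comm]
    apply Finset.sum_congr rfl
    intro ω _
    rw [← Finset.sum_mul]
    have : ∑ t : ZMod (q i), ind q i (α + t) ω = 1 := by
      rw [Finset.sum_eq_single (ω i - α)]
      · simp [ind]
      · intro b _ hb
        simp only [ind]
        rw [if_neg]
        intro h
        apply hb
        rw [h]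
        ring
      · intro h
        exact absurd (Finset.mem_univ _) h
    rw [this, one_mul]
  rw [← h2, Finset.sum_congr rfl (fun t _ => h1 t)]
  simp [ZMod.card]

theorem sum_ind (i : ι) (α : ZMod (q i)) :
    ∑ ω, ind q i α ω = (Fintype.card (Om q) : ℝ) / q i := by
  have h := sum_ind_mul q i α (fun _ => 1) (fun _ _ => rfl)
  simp only [mul_one, Finset.sum_const, Finset.card_univ, nsmul_eq_mul] at h
  have hq : (q i : ℝ) ≠ 0 := Nat.cast_ne_zero.2 (NeZero.ne _)
  field_simp
  linarith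

theorem sum_ind_ind (i k : ι) (hik : i ≠ k) (α : ZMod (q i)) (β : ZMod (q k)) :
    ∑ ω, ind q i α ω * ind q k β ω = (Fintype.card (Om q) : ℝ) / (q i * q k) := by
  have h := sum_ind_mul q i α (fun ω => ind q k β ω) (by
    intro ω t
    simp only [ind, Pi.add_apply, Pi.single_eq_of_ne' hik, add_zero])
  rw [sum_ind] at h
  have hq : (q i : ℝ) ≠ 0 := Nat.cast_ne_zero.2 (NeZero.ne _)
  have hq' : (q k : ℝ) ≠ 0 := Nat.cast_ne_zero.2 (NeZero.ne _)
  field_simp
  field_simp at h
  linarith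

theorem sum_sq (G : Finset ι) (α : (i : ι) → ZMod (q i)) :
    ∑ ω, (∑ i ∈ G, ind q i (α i) ω - ∑ i ∈ G, (1 : ℝ) / q i) ^ 2 ≤
      (∑ i ∈ G, (1 : ℝ) / q i) * Fintype.card (Om q) := by
  set L : ℝ := ∑ i ∈ G, (1 : ℝ) / q i with hL
  set N : ℝ := ((Fintype.card (Om q) : ℕ) : ℝ) with hN
  have hN0 : 0 ≤ N := Nat.cast_nonneg _
  have e1 : ∑ ω, ∑ i ∈ G, ind q i (α i) ω = L * N := by
    rw [Finset.sum_comm, hL, Finset.sum_mul]
    apply Finset.sum_congr rfl
    intro i _
    rw [sum_ind]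
    ring
  have e2 : ∑ ω, (∑ i ∈ G, ind q i (α i) ω) ^ 2 ≤ L ^ 2 * N + L * N := by
    have : ∀ ω, (∑ i ∈ G, ind q i (α i) ω) ^ 2 =
        ∑ i ∈ G, ∑ k ∈ G, ind q i (α i) ω * ind q k (α k) ω := by
      intro ω
      rw [sq, Finset.sum_mul_sum]
    simp_rw [this]
    rw [Finset.sum_comm]
    have h3 : ∀ i ∈ G, ∑ ω, ∑ k ∈ G, ind q i (α i) ω * ind q k (α k) ω ≤
        (1 / q i) * L * N + (1 / q i) * N := by
      intro i hi
      rw [Finset.sum_comm, ← Finset.sum_erase_add _ _ hi]
      have hq : (0 : ℝ) < q i := Nat.cast_pos.2 (Nat.pos_of_ne_zero (NeZero.ne _))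
      apply add_le_add
      · calc ∑ k ∈ G.erase i, ∑ ω, ind q i (α i) ω * ind q k (α k) ω
            = ∑ k ∈ G.erase i, N / (q i * q k) := by
              apply Finset.sum_congr rfl
              intro k hk
              exact sum_ind_ind q i k (Finset.ne_of_mem_erase hk).symm _ _
          _ ≤ ∑ k ∈ G, N / (q i * q k) := by
              apply Finset.sum_le_sum_of_subset_of_nonneg (Finset.erase_subset _ _)
              intro k _ _
              positivity
          _ = (1 / q i) * L * N := by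
              rw [hL, Finset.mul_sum, Finset.sum_mul]
              apply Finset.sum_congr rfl
              intro k _
              have hq' : (q k : ℝ) ≠ 0 := Nat.cast_ne_zero.2 (NeZero.ne _)
              field_simp
      · have : ∀ ω, ind q i (α i) ω * ind q i (α i) ω = ind q i (α i) ω := by
          intro ω
          simp [ind]
        simp_rw [this]
        rw [sum_ind, ← hN]
        apply le_of_eq
        ring
    calc ∑ i ∈ G, ∑ ω, ∑ k ∈ G, ind q i (α i) ω * ind q k (α k) ω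
        ≤ ∑ i ∈ G, ((1 / q i) * L * N + (1 / q i) * N) := Finset.sum_le_sum h3
      _ = L ^ 2 * N + L * N := by
          rw [Finset.sum_add_distrib, ← Finset.sum_mul, ← Finset.sum_mul, ← Finset.sum_mul, ← hL]
          ring
  have e3 : ∑ ω, (∑ i ∈ G, ind q i (α i) ω - L) ^ 2 =
      ∑ ω, (∑ i ∈ G, ind q i (α i) ω) ^ 2 - 2 * L * ∑ ω, ∑ i ∈ G, ind q i (α i) ω + L ^ 2 * N := by
    rw [Finset.mul_sum, ← Finset.sum_sub_distrib]
    have : L ^ 2 * N = ∑ _ω : Om q, L ^ 2 := by
      simp [hN, mul_comm]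
    rw [this, ← Finset.sum_add_distrib]
    apply Finset.sum_congr rfl
    intro ω _
    ring
  rw [e3, e1]
  nlinarith

theorem sum_abs (G : Finset ι) (α : (i : ι) → ZMod (q i)) :
    ∑ ω, |∑ i ∈ G, ind q i (α i) ω - ∑ i ∈ G, (1 : ℝ) / q i| ≤
      Real.sqrt (∑ i ∈ G, (1 : ℝ) / q i) * Fintype.card (Om q) := by
  set L : ℝ := ∑ i ∈ G, (1 : ℝ) / q i with hL
  have hL0 : 0 ≤ L := Finset.sum_nonneg (fun i _ => by positivity)
  apply le_of_sq_le_sq _ (by positivity)
  · have h1 : (∑ ω, |∑ i ∈ G, ind q i (α i) ω - L|) ^ 2 ≤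
        (Finset.univ : Finset (Om q)).card * ∑ ω, |∑ i ∈ G, ind q i (α i) ω - L| ^ 2 :=
      sq_sum_le_card_mul_sum_sq
    have h2 := sum_sq q G α
    rw [← hL] at h2
    simp_rw [sq_abs] at h1
    rw [mul_pow, Real.sq_sqrt hL0]
    rw [Finset.card_univ] at h1
    have h3 : (0 : ℝ) ≤ Fintype.card (Om q) := Nat.cast_nonneg _
    nlinarith

variable {I I' : Type*} [Fintype I] [Fintype I'] [DecidableEq I] [DecidableEq I']

/-- the vector of counts. -/
def vec {I : Type*} (a : I → Om q) (ω : Om q) : I → ℤ := fun j => cnt q (a j + ω)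

theorem cnt_shift_ne (i : ι) (t : ZMod (q i)) (ω : Om q) (h1 : ω i ≠ 0) (h2 : ω i + t ≠ 0) :
    cnt q (ω + Pi.single i t) = cnt q ω := by
  unfold cnt
  apply Finset.sum_congr rfl
  intro k _
  by_cases hk : k = i
  · subst hk
    simp [h1, h2]
  · simp [hk]

theorem cnt_shift_eq (i : ι) (t : ZMod (q i)) (ω : Om q) (h1 : ω i ≠ 0) (h2 : ω i + t = 0) :
    cnt q (ω + Pi.single i t) = cnt q ω + 1 := by
  unfold cnt
  rw [← Finset.sum_erase_add _ _ (Finset.mem_univ i),
    ← Finset.sum_erase_add (Finset.univ) (fun i => if ω i = 0 then (1 : ℤ) else 0)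
      (Finset.mem_univ i)]
  simp only [Pi.add_apply, Pi.single_eq_same, h2, h1, if_true, if_false, add_zero]
  congr 1
  apply Finset.sum_congr rfl
  intro k hk
  have hk' : k ≠ i := Finset.ne_of_mem_erase hk
  simp [hk']

theorem chen_one (a : I → Om q) (a' : I' → Om q) (F : (I → ℤ) → (I' → ℤ) → ℝ)
    (hF : ∀ x y, |F x y| ≤ 1) (J : Finset I') (G : Finset ι)
    (α β : (i : ι) → ZMod (q i))
    (h1 : ∀ i ∈ G, ∀ j, a j i + α i ≠ 0) (h2 : ∀ i ∈ G, ∀ j, a j i + β i ≠ 0)
    (h3 : ∀ i ∈ G, ∀ j, a' j i + β i ≠ 0)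
    (h4 : ∀ i ∈ G, ∀ j, (a' j i + α i = 0 ↔ j ∈ J)) (θ : ℝ) (hθ : 0 < θ)
    (hG : θ ≤ ∑ i ∈ G, (1 : ℝ) / q i) :
    |∑ ω, F (vec q a ω) (fun j => vec q a' ω j - if j ∈ J then 1 else 0) -
      ∑ ω, F (vec q a ω) (vec q a' ω)| ≤ 2 / Real.sqrt θ * Fintype.card (Om q) := by
  set L : ℝ := ∑ i ∈ G, (1 : ℝ) / q i with hL
  set N : ℝ := ((Fintype.card (Om q) : ℕ) : ℝ) with hN
  have hN0 : 0 ≤ N := Nat.cast_nonneg _
  have hL0 : 0 < L := lt_of_lt_of_le hθ hG
  set F1 : Om q → ℝ := fun ω => F (vec q a ω) (fun j => vec q a' ω j - if j ∈ J then 1 else 0)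
    with hF1
  set F0 : Om q → ℝ := fun ω => F (vec q a ω) (vec q a' ω) with hF0
  have hF1b : ∀ ω, |F1 ω| ≤ 1 := fun ω => hF _ _
  have hF0b : ∀ ω, |F0 ω| ≤ 1 := fun ω => hF _ _
  -- the Chen-Stein identity
  have key : ∀ i ∈ G, ∑ ω, ind q i (α i) ω * F1 ω = ∑ ω, ind q i (β i) ω * F0 ω := by
    intro i hi
    rw [← sum_translate q (fun ω => ind q i (α i) ω * F1 ω) (Pi.single i (α i - β i))]
    apply Finset.sum_congr rfl
    intro ω _
    by_cases hω : ω i = β i
    · have e1 : ind q i (α i) (ω + Pi.single i (α i - β i)) = 1 := by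
        simp [ind, hω]
      have e2 : ind q i (β i) ω = 1 := by simp [ind, hω]
      rw [e1, e2, one_mul, one_mul]
      simp only [hF1, hF0]
      have v1 : vec q a (ω + Pi.single i (α i - β i)) = vec q a ω := by
        funext j
        simp only [vec]
        rw [← add_assoc]
        apply cnt_shift_ne
        · simp only [Pi.add_apply, hω]
          exact h2 i hi j
        · simp only [Pi.add_apply, hω]
          have := h1 i hi j
          intro h
          apply this
          rw [← h]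
          ring
      have v2 : (fun j => vec q a' (ω + Pi.single i (α i - β i)) j - if j ∈ J then 1 else 0) =
          vec q a' ω := by
        funext j
        simp only [vec]
        rw [← add_assoc]
        by_cases hj : j ∈ J
        · rw [cnt_shift_eq]
          · simp [hj]
          · simp only [Pi.add_apply, hω]
            exact h3 i hi j
          · simp only [Pi.add_apply, hω]
            have := (h4 i hi j).2 hj
            rw [← this]
            ring
        · rw [cnt_shift_ne]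
          · simp [hj]
          · simp only [Pi.add_apply, hω]
            exact h3 i hi j
          · simp only [Pi.add_apply, hω]
            intro h
            apply hj
            rw [← h4 i hi j, ← h]
            ring
      rw [v1, v2]
    · have e1 : ind q i (α i) (ω + Pi.single i (α i - β i)) = 0 := by
        simp only [ind, Pi.add_apply, Pi.single_eq_same]
        rw [if_neg]
        intro h
        apply hω
        have h5 : ω i + (α i - β i) - (α i - β i) = α i - (α i - β i) := by rw [h]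
        have h6 : ω i + (α i - β i) - (α i - β i) = ω i := by ring
        have h7 : α i - (α i - β i) = β i := by ring
        rw [h6, h7] at h5
        exact h5
      have e2 : ind q i (β i) ω = 0 := by simp [ind, hω]
      rw [e1, e2, zero_mul, zero_mul]
  have hsum : ∑ ω, (∑ i ∈ G, ind q i (α i) ω) * F1 ω = ∑ ω, (∑ i ∈ G, ind q i (β i) ω) * F0 ω := by
    simp_rw [Finset.sum_mul]
    rw [Finset.sum_comm, Finset.sum_comm (s := Finset.univ) (t := G)]
    exact Finset.sum_congr rfl key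
  have b1 : |∑ ω, (∑ i ∈ G, ind q i (α i) ω) * F1 ω - L * ∑ ω, F1 ω| ≤ Real.sqrt L * N := by
    rw [Finset.mul_sum, ← Finset.sum_sub_distrib]
    refine (Finset.abs_sum_le_sum_abs _ _).trans ?_
    refine le_trans ?_ (sum_abs q G α)
    apply Finset.sum_le_sum
    intro ω _
    rw [← sub_mul, abs_mul]
    exact mul_le_of_le_one_right (abs_nonneg _) (hF1b ω)
  have b2 : |∑ ω, (∑ i ∈ G, ind q i (β i) ω) * F0 ω - L * ∑ ω, F0 ω| ≤ Real.sqrt L * N := by
    rw [Finset.mul_sum, ← Finset.sum_sub_distrib]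
    refine (Finset.abs_sum_le_sum_abs _ _).trans ?_
    refine le_trans ?_ (sum_abs q G β)
    apply Finset.sum_le_sum
    intro ω _
    rw [← sub_mul, abs_mul]
    exact mul_le_of_le_one_right (abs_nonneg _) (hF0b ω)
  rw [hsum] at b1
  have b3 : L * |∑ ω, F1 ω - ∑ ω, F0 ω| ≤ 2 * Real.sqrt L * N := by
    rw [← abs_of_pos hL0, ← abs_mul, abs_of_pos hL0]
    rw [abs_le] at b1 b2 ⊢
    constructor <;> nlinarith
  have hs : Real.sqrt L * Real.sqrt L = L := Real.mul_self_sqrt hL0.le
  have hs0 : 0 < Real.sqrt L := Real.sqrt_pos.2 hL0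
  have hsθ : 0 < Real.sqrt θ := Real.sqrt_pos.2 hθ
  have hsle : Real.sqrt θ ≤ Real.sqrt L := Real.sqrt_le_sqrt hG
  have b4 : |∑ ω, F1 ω - ∑ ω, F0 ω| ≤ 2 / Real.sqrt L * N := by
    have : Real.sqrt L * |∑ ω, F1 ω - ∑ ω, F0 ω| ≤ 2 * N := by
      have h5 : Real.sqrt L * (Real.sqrt L * |∑ ω, F1 ω - ∑ ω, F0 ω|) ≤ Real.sqrt L * (2 * N) := by
        calc Real.sqrt L * (Real.sqrt L * |∑ ω, F1 ω - ∑ ω, F0 ω|)
            = L * |∑ ω, F1 ω - ∑ ω, F0 ω| := by rw [← mul_assoc, hs]
          _ ≤ 2 * Real.sqrt L * N := b3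
          _ = Real.sqrt L * (2 * N) := by ring
      exact le_of_mul_le_mul_left h5 hs0
    rw [div_mul_eq_mul_div, le_div_iff₀ hs0]
    linarith
  refine b4.trans ?_
  apply mul_le_mul_of_nonneg_right _ hN0
  exact div_le_div_of_nonneg_left (by norm_num) hsθ hsle

end Pool.Agent.MP_145b75_an
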