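import Pool.Agent.MP_145b75_an.Chen

/-! Averaged decorrelation lemma for MP_145b75_an. -/

namespace Pool.Agent.MP_145b75_an

open Finset

variable {ι : Type*} [Fintype ι] [DecidableEq ι] (q : ι → ℕ) [∀ i, NeZero (q i)]
variable {I I' : Type*} [Fintype I] [Fintype I'] [DecidableEq I] [DecidableEq I']

/-- the block of `j₀` at `i`. -/
def blk (a' : I' → Om q) (i : ι) (j₀ : I') : Finset I' :=
  univ.filter (fun j => a' j i = a' j₀ i)

/-- all blocks at `i`. -/
def blks (a' : I' → Om q) (i : ι) : Finset (Finset I') := univ.image (blk q a' i)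

theorem sum_blks (a' : I' → Om q) (i : ι) (j : I') :
    ∑ J ∈ blks q a' i, (if j ∈ J then (1 : ℤ) else 0) = 1 := by
  rw [Finset.sum_eq_single (blk q a' i j)]
  · simp [blk]
  · intro J hJ hne
    obtain ⟨j₀, _, rfl⟩ := Finset.mem_image.1 hJ
    rw [if_neg]
    intro hj
    apply hne
    simp only [blk, mem_filter, mem_univ, true_and] at hj ⊢
    ext k
    simp [hj]
  · intro h
    exact absurd (Finset.mem_image_of_mem _ (Finset.mem_univ j)) h

theorem exists_avoid {n : ℕ} [NeZero n] (S : Finset (ZMod n)) (hS : S.card < n) :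
    ∃ β : ZMod n, β ∉ S := by
  by_contra h
  push Not at h
  have : S = Finset.univ := Finset.eq_univ_iff_forall.2 h
  rw [this, Finset.card_univ, ZMod.card] at hS
  exact lt_irrefl _ hS

theorem chen_fixed (a : I → Om q) (a' : I' → Om q) (F : (I → ℤ) → (I' → ℤ) → ℝ)
    (hF : ∀ x y, |F x y| ≤ 1) (hq : ∀ i, Fintype.card I + Fintype.card I' < q i)
    (lam : ℝ) (hlam : 0 < lam)
    (hgood : lam / 2 ≤ ∑ i ∈ univ.filter (fun i => ∀ j j', a j i ≠ a' j' i), (1 : ℝ) / q i) :
    |∑ ω, F (vec q a ω) (fun j => vec q a' ω j - 1) - ∑ ω, F (vec q a ω) (vec q a' ω)| ≤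
      Fintype.card I' * (2 / Real.sqrt (lam / 2 ^ (Fintype.card I' + 1))) *
        Fintype.card (Om q) := by
  classical
  set Gd : Finset ι := univ.filter (fun i => ∀ j j', a j i ≠ a' j' i) with hGd
  set θ : ℝ := lam / 2 ^ (Fintype.card I' + 1) with hθ
  have hθ0 : 0 < θ := by positivity
  let w : Finset I' → ℝ := fun J => ∑ i ∈ Gd.filter (fun i => J ∈ blks q a' i), (1 : ℝ) / q i
  -- pigeonhole
  have hex : ∃ i ∈ Gd, ∀ J ∈ blks q a' i, θ ≤ w J := by
    by_contra hcon
    push Not at hcon
    have h1 : ∑ i ∈ Gd, (1 : ℝ) / q i ≤ ∑ J ∈ univ.filter (fun J => w J < θ), w J := by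
      have h2 : ∀ i ∈ Gd, (1 : ℝ) / q i ≤
          ∑ J ∈ univ.filter (fun J => w J < θ), if J ∈ blks q a' i then (1 : ℝ) / q i else 0 := by
        intro i hi
        obtain ⟨J, hJ, hw⟩ := hcon i hi
        have h3 : (if J ∈ blks q a' i then (1 : ℝ) / q i else 0) ≤
            ∑ J ∈ univ.filter (fun J => w J < θ),
              if J ∈ blks q a' i then (1 : ℝ) / q i else 0 := by
          apply Finset.single_le_sum (f := fun J => if J ∈ blks q a' i then (1 : ℝ) / q i else 0)
          · intro K _
            split_ifs
            · positivity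
            · exact le_rfl
          · simp only [mem_filter, mem_univ, true_and]
            exact hw
        rw [if_pos hJ] at h3
        exact h3
      refine (Finset.sum_le_sum h2).trans ?_
      rw [Finset.sum_comm]
      apply le_of_eq
      apply Finset.sum_congr rfl
      intro J _
      simp only [w, Finset.sum_filter]
    have h4 : ∑ J ∈ univ.filter (fun J => w J < θ), w J < lam / 2 := by
      by_cases hemp : (univ.filter (fun J : Finset I' => w J < θ)).Nonempty
      · calc ∑ J ∈ univ.filter (fun J => w J < θ), w J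
            < ∑ J ∈ univ.filter (fun J : Finset I' => w J < θ), θ := by
              apply Finset.sum_lt_sum_of_nonempty hemp
              intro J hJ
              exact (Finset.mem_filter.1 hJ).2
          _ ≤ ∑ J : Finset I', θ := by
              apply Finset.sum_le_sum_of_subset_of_nonneg (Finset.subset_univ _)
              intro _ _ _
              exact hθ0.le
          _ = lam / 2 := by
              rw [Finset.sum_const, Finset.card_univ, Fintype.card_finset, nsmul_eq_mul, hθ]
              push_cast
              rw [pow_succ]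
              field_simp
      · rw [Finset.not_nonempty_iff_eq_empty.1 hemp, Finset.sum_empty]
        positivity
    linarith
  obtain ⟨i₀, hi₀, hJs⟩ := hex
  -- induction over sub-families of blocks
  have ind : ∀ T : Finset (Finset I'), T ⊆ blks q a' i₀ →
      |∑ ω, F (vec q a ω) (fun j => vec q a' ω j - ∑ J ∈ T, if j ∈ J then (1 : ℤ) else 0) -
        ∑ ω, F (vec q a ω) (vec q a' ω)| ≤ T.card * (2 / Real.sqrt θ) * Fintype.card (Om q) := by
    intro T
    induction T using Finset.induction_on with
    | empty =>
      intro _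
      simp
    | insert J T hJT ih =>
      intro hT
      have hT' : T ⊆ blks q a' i₀ := fun K hK => hT (Finset.mem_insert_of_mem hK)
      have hJ : J ∈ blks q a' i₀ := hT (Finset.mem_insert_self _ _)
      have ih' := ih hT'
      -- choose alpha, beta
      have hαβ : ∀ i ∈ Gd.filter (fun i => J ∈ blks q a' i), ∃ p : ZMod (q i) × ZMod (q i),
          (∀ j, a j i + p.1 ≠ 0) ∧ (∀ j, a j i + p.2 ≠ 0) ∧ (∀ j, a' j i + p.2 ≠ 0) ∧
          (∀ j, (a' j i + p.1 = 0 ↔ j ∈ J)) := by
        intro i hi
        obtain ⟨hi1, hi2⟩ := Finset.mem_filter.1 hi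
        rw [hGd] at hi1
        simp only [mem_filter, mem_univ, true_and] at hi1
        obtain ⟨j₀, _, hj₀⟩ := Finset.mem_image.1 hi2
        obtain ⟨β, hβ⟩ := exists_avoid
          (univ.image (fun j => -(a j i)) ∪ univ.image (fun j => -(a' j i))) (by
            refine lt_of_le_of_lt (Finset.card_union_le _ _) ?_
            refine lt_of_le_of_lt (add_le_add Finset.card_image_le Finset.card_image_le) ?_
            simpa using hq i)
        refine ⟨(-(a' j₀ i), β), ?_, ?_, ?_, ?_⟩
        · intro j h
          apply hi1 j j₀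
          simpa [sub_eq_zero, ← sub_eq_add_neg] using h
        · intro j h
          apply hβ
          apply Finset.mem_union_left
          rw [Finset.mem_image]
          refine ⟨j, Finset.mem_univ _, ?_⟩
          exact neg_eq_of_add_eq_zero_right h
        · intro j h
          apply hβ
          apply Finset.mem_union_right
          rw [Finset.mem_image]
          refine ⟨j, Finset.mem_univ _, ?_⟩
          exact neg_eq_of_add_eq_zero_right h
        · intro j
          rw [← hj₀]
          simp only [blk, mem_filter, mem_univ, true_and]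
          rw [← sub_eq_add_neg, sub_eq_zero]
      choose! p hp using hαβ
      have hstep := chen_one q a a'
        (fun x y => F x (fun j => y j - ∑ J ∈ T, if j ∈ J then (1 : ℤ) else 0))
        (fun x y => hF _ _) J (Gd.filter (fun i => J ∈ blks q a' i))
        (fun i => (p i).1) (fun i => (p i).2)
        (fun i hi => (hp i hi).1) (fun i hi => (hp i hi).2.1) (fun i hi => (hp i hi).2.2.1)
        (fun i hi => (hp i hi).2.2.2) θ hθ0 (hJs J hJ)
      rw [Finset.card_insert_of_notMem hJT]
      have e1 : ∀ ω, (fun j => vec q a' ω j - ∑ J ∈ insert J T, if j ∈ J then (1 : ℤ) else 0) =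
          (fun j => (vec q a' ω j - if j ∈ J then (1 : ℤ) else 0) -
            ∑ J ∈ T, if j ∈ J then (1 : ℤ) else 0) := by
        intro ω
        funext j
        rw [Finset.sum_insert hJT]
        ring
      simp only [e1]
      push_cast
      rw [abs_le] at hstep ih' ⊢
      constructor <;> nlinarith [hstep.1, hstep.2, ih'.1, ih'.2]
  have hfin := ind (blks q a' i₀) (Finset.Subset.refl _)
  have e2 : ∀ ω, (fun j => vec q a' ω j -
      ∑ J ∈ blks q a' i₀, if j ∈ J then (1 : ℤ) else 0) = (fun j => vec q a' ω j - 1) := by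
    intro ω
    funext j
    rw [sum_blks]
  simp only [e2] at hfin
  refine hfin.trans ?_
  apply mul_le_mul_of_nonneg_right _ (Nat.cast_nonneg _)
  apply mul_le_mul_of_nonneg_right _ (by positivity)
  have : (blks q a' i₀).card ≤ Fintype.card I' := by
    refine Finset.card_image_le.trans ?_
    simp
  exact_mod_cast this

/-- number of `c` for which `i` is bad. -/
theorem bad_count (a : I → Om q) (a' : I' → Om q) (i : ι) :
    ∑ c : Om q, (if ∀ j j', a j i ≠ a' j' i + c i then (0 : ℝ) else 1) ≤
      Fintype.card I * Fintype.card I' * Fintype.card (Om q) / q i := by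
  classical
  have h1 : ∀ c : Om q, (if ∀ j j', a j i ≠ a' j' i + c i then (0 : ℝ) else 1) ≤
      ∑ j, ∑ j', Pool.Agent.MP_145b75_an.ind q i (a j i - a' j' i) c := by
    intro c
    split_ifs with h
    · apply Finset.sum_nonneg
      intro j _
      apply Finset.sum_nonneg
      intro j' _
      unfold Pool.Agent.MP_145b75_an.ind
      split_ifs <;> norm_num
    · push Not at h
      obtain ⟨j, j', hjj⟩ := h
      have h2 : (1 : ℝ) = Pool.Agent.MP_145b75_an.ind q i (a j i - a' j' i) c := by
        unfold Pool.Agent.MP_145b75_an.ind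
        rw [if_pos]
        rw [hjj]
        ring
      rw [h2]
      have nn : ∀ j j', 0 ≤ Pool.Agent.MP_145b75_an.ind q i (a j i - a' j' i) c := by
        intro j j'
        unfold Pool.Agent.MP_145b75_an.ind
        split_ifs <;> norm_num
      refine le_trans ?_ (Finset.single_le_sum (f := fun j =>
        ∑ j', Pool.Agent.MP_145b75_an.ind q i (a j i - a' j' i) c)
        (fun j _ => Finset.sum_nonneg (fun j' _ => nn j j')) (Finset.mem_univ j))
      exact Finset.single_le_sum (f := fun j' =>
        Pool.Agent.MP_145b75_an.ind q i (a j i - a' j' i) c)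
        (fun j' _ => nn j j') (Finset.mem_univ j')
  refine (Finset.sum_le_sum (fun c _ => h1 c)).trans ?_
  rw [Finset.sum_comm]
  have h3 : ∀ j : I, ∑ c : Om q, ∑ j' : I', Pool.Agent.MP_145b75_an.ind q i (a j i - a' j' i) c =
      Fintype.card I' * ((Fintype.card (Om q) : ℕ) : ℝ) / q i := by
    intro j
    rw [Finset.sum_comm]
    simp_rw [sum_ind]
    simp only [sum_const, card_univ, nsmul_eq_mul]
    ring
  simp_rw [h3]
  simp only [sum_const, card_univ, nsmul_eq_mul]
  apply le_of_eq
  ring

/-- The averaged decorrelation lemma. -/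
theorem chen_avg (a : I → Om q) (a' : I' → Om q) (F : (I → ℤ) → (I' → ℤ) → ℝ)
    (hF : ∀ x y, |F x y| ≤ 1) (Q₀ : ℕ) (hQ₀ : 0 < Q₀) (hqQ : ∀ i, Q₀ ≤ q i)
    (hq : ∀ i, Fintype.card I + Fintype.card I' < q i)
    (lam : ℝ) (hlam : 0 < lam) (hlam' : lam = ∑ i, (1 : ℝ) / q i) :
    ∑ c : Om q, |∑ ω, (F (vec q a ω) (fun j => vec q a' (c + ω) j - 1) -
        F (vec q a ω) (vec q a' (c + ω)))| ≤
      (Fintype.card I' * (2 / Real.sqrt (lam / 2 ^ (Fintype.card I' + 1))) +
        4 * Fintype.card I * Fintype.card I' / Q₀) * (Fintype.card (Om q) : ℝ) ^ 2 := by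
  classical
  set N : ℝ := ((Fintype.card (Om q) : ℕ) : ℝ) with hN
  have hN0 : 0 ≤ N := Nat.cast_nonneg _
  set η : ℝ := Fintype.card I' * (2 / Real.sqrt (lam / 2 ^ (Fintype.card I' + 1))) with hη
  have hη0 : 0 ≤ η := by positivity
  -- bad mass
  let bad : Om q → ℝ := fun c =>
    ∑ i, (1 / (q i : ℝ)) * (if ∀ j j', a j i ≠ a' j' i + c i then (0 : ℝ) else 1)
  have hbad0 : ∀ c, 0 ≤ bad c := by
    intro c
    apply Finset.sum_nonneg
    intro i _
    apply mul_nonneg (by positivity)
    split_ifs <;> norm_num
  have hbadsum : ∑ c, bad c ≤ Fintype.card I * Fintype.card I' * N * lam / Q₀ := by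
    simp only [bad]
    rw [Finset.sum_comm]
    simp_rw [← Finset.mul_sum]
    have h1 : ∀ i, (1 / (q i : ℝ)) * ∑ c : Om q,
        (if ∀ j j', a j i ≠ a' j' i + c i then (0 : ℝ) else 1) ≤
        (1 / (q i : ℝ)) * (Fintype.card I * Fintype.card I' * N / Q₀) := by
      intro i
      apply mul_le_mul_of_nonneg_left _ (by positivity)
      refine (bad_count q a a' i).trans ?_
      rw [← hN]
      apply div_le_div_of_nonneg_left (by positivity) (by exact_mod_cast hQ₀)
      exact_mod_cast hqQ i
    refine (Finset.sum_le_sum (fun i _ => h1 i)).trans ?_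
    rw [← Finset.sum_mul, ← hlam']
    apply le_of_eq
    ring
  -- pointwise bound
  have hpt : ∀ c : Om q, |∑ ω, (F (vec q a ω) (fun j => vec q a' (c + ω) j - 1) -
        F (vec q a ω) (vec q a' (c + ω)))| ≤ η * N + (2 / lam) * bad c * (2 * N) := by
    intro c
    by_cases hc : bad c ≤ lam / 2
    · have hv : ∀ ω, vec q a' (c + ω) = vec q (fun j => a' j + c) ω := by
        intro ω
        funext j
        simp only [vec]
        rw [add_assoc]
      have hgood : lam / 2 ≤
          ∑ i ∈ univ.filter (fun i => ∀ j j', a j i ≠ (fun j => a' j + c) j' i),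
            (1 : ℝ) / q i := by
        have h2 : bad c + ∑ i ∈ univ.filter (fun i => ∀ j j', a j i ≠ (fun j => a' j + c) j' i),
            (1 : ℝ) / q i = lam := by
          rw [hlam', Finset.sum_filter]
          simp only [bad]
          rw [← Finset.sum_add_distrib]
          apply Finset.sum_congr rfl
          intro i _
          simp only [Pi.add_apply]
          split_ifs <;> ring
        linarith
      have h3 := chen_fixed q a (fun j => a' j + c) F hF hq lam hlam hgood
      rw [Finset.sum_sub_distrib]
      simp_rw [hv]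
      refine h3.trans ?_
      rw [← hN, ← hη]
      have : 0 ≤ (2 / lam) * bad c * (2 * N) := by
        have := hbad0 c
        positivity
      linarith
    · push Not at hc
      have h1 : |∑ ω, (F (vec q a ω) (fun j => vec q a' (c + ω) j - 1) -
        F (vec q a ω) (vec q a' (c + ω)))| ≤ 2 * N := by
        refine (Finset.abs_sum_le_sum_abs _ _).trans ?_
        calc ∑ ω, |F (vec q a ω) (fun j => vec q a' (c + ω) j - 1) -
              F (vec q a ω) (vec q a' (c + ω))| ≤ ∑ _ω : Om q, (2 : ℝ) := by
              apply Finset.sum_le_sum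
              intro ω _
              refine (abs_sub _ _).trans ?_
              have h5 := hF (vec q a ω) (fun j => vec q a' (c + ω) j - 1)
              have h6 := hF (vec q a ω) (vec q a' (c + ω))
              linarith
          _ = 2 * N := by
              simp [hN, mul_comm]
      refine h1.trans ?_
      have h2 : 1 ≤ (2 / lam) * bad c := by
        rw [div_mul_eq_mul_div, le_div_iff₀ hlam]
        linarith
      have h3 : 0 ≤ η * N := mul_nonneg hη0 hN0
      nlinarith
  refine (Finset.sum_le_sum (fun c _ => hpt c)).trans ?_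
  have e1 : ∑ _c : Om q, η * N = η * N * N := by
    rw [Finset.sum_const, Finset.card_univ, nsmul_eq_mul, ← hN]
    ring
  rw [Finset.sum_add_distrib, e1, ← Finset.sum_mul, ← Finset.mul_sum]
  have hQ₀' : (0 : ℝ) < Q₀ := by exact_mod_cast hQ₀
  have h7 : 2 / lam * (∑ c, bad c) * (2 * N) ≤
      2 / lam * (Fintype.card I * Fintype.card I' * N * lam / Q₀) * (2 * N) := by
    apply mul_le_mul_of_nonneg_right _ (by positivity)
    apply mul_le_mul_of_nonneg_left hbadsum (by positivity)
  have h8 : 2 / lam * (Fintype.card I * Fintype.card I' * N * lam / Q₀) * (2 * N) =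
      4 * Fintype.card I * Fintype.card I' / Q₀ * N ^ 2 := by
    field_simp
    ring
  rw [h8] at h7
  calc η * N * N + 2 / lam * (∑ c, bad c) * (2 * N)
      ≤ η * N * N + 4 * Fintype.card I * Fintype.card I' / Q₀ * N ^ 2 := by linarith
    _ = (η + 4 * Fintype.card I * Fintype.card I' / Q₀) * N ^ 2 := by ring

end Pool.Agent.MP_145b75_an
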