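import Pool.Agent.MP_145b75_an.Thick

/-! IP*-recurrence plus decorrelation forces a sequence to be constant (MP_145b75_an). -/

namespace Pool.Agent.MP_145b75_an

open Finset Filter Topology

/-- The shift on sequences. -/
def shiftSeq (y : ℕ → ℝ) : ℕ → ℝ := fun n => y (n + 1)

theorem continuous_shiftSeq : Continuous shiftSeq := by
  apply continuous_pi
  intro n
  exact continuous_apply (n + 1)

theorem shiftSeq_iterate (r : ℕ) (y : ℕ → ℝ) (n : ℕ) : shiftSeq^[r] y n = y (n + r) := by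
  induction r generalizing y with
  | zero => rfl
  | succ r ih =>
    rw [Function.iterate_succ_apply, ih]
    simp only [shiftSeq]
    congr 1
    
theorem basic_nhd (U : Set (ℕ → ℝ)) (hU : IsOpen U) (y : ℕ → ℝ) (hy : y ∈ U) :
    ∃ (K : ℕ) (ε : ℝ), 0 < ε ∧ ε ≤ 1 ∧ ∀ z : ℕ → ℝ, (∀ j ≤ K, |z j - y j| < ε) → z ∈ U := by
  rw [isOpen_pi_iff] at hU
  obtain ⟨I, u, hu, hsub⟩ := hU y hy
  have h1 : ∀ a ∈ I, ∃ ε > 0, Metric.ball (y a) ε ⊆ u a := by
    intro a ha
    exact Metric.isOpen_iff.1 (hu a ha).1 _ (hu a ha).2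
  choose! e he using h1
  have h2 : ∃ ε > 0, ε ≤ 1 ∧ ∀ a ∈ I, ε ≤ e a := by
    clear hsub
    induction I using Finset.induction_on with
    | empty => exact ⟨1, one_pos, le_rfl, by simp⟩
    | insert a I _ ih =>
      obtain ⟨ε, hε, hε1, h3⟩ := ih (fun b hb => hu b (Finset.mem_insert_of_mem hb))
        (fun b hb => he b (Finset.mem_insert_of_mem hb))
      refine ⟨min ε (e a), lt_min hε (he a (Finset.mem_insert_self _ _)).1,
        (min_le_left _ _).trans hε1, ?_⟩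
      intro b hb
      rcases Finset.mem_insert.1 hb with rfl | hb
      · exact min_le_right _ _
      · exact (min_le_left _ _).trans (h3 b hb)
  obtain ⟨ε, hε, hε1, h3⟩ := h2
  refine ⟨I.sup id, ε, hε, hε1, ?_⟩
  intro z hz
  apply hsub
  rw [Set.mem_pi]
  intro a ha
  apply (he a ha).2
  rw [Metric.mem_ball, Real.dist_eq]
  exact lt_of_lt_of_le (hz a (Finset.le_sup (f := id) ha)) (h3 a ha)

theorem const_of_ipstar (Λ : Levels) (b : ℕ → ℝ) (M : ℝ) (hM : ∀ n, |b n| ≤ M)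
    (hip : ∀ (K : ℕ) (ε : ℝ), 0 < ε → IsIPStar {n | ∀ j ≤ K, |b (n + j) - b j| < ε})
    (hdec : ∀ g ∈ polyAlg b, ∀ g' ∈ polyAlg b, Λ.Dec g g') :
    ∀ n, b (n + 1) = b n := by
  by_contra hcon
  push Not at hcon
  obtain ⟨j₀, hj₀⟩ := hcon
  have hsynd : ∀ (K : ℕ) (ε : ℝ), 0 < ε → IsSyndetic {n | ∀ j ≤ K, |b (n + j) - b j| < ε} :=
    fun K ε hε => (hip K ε hε).isSyndetic
  set η : ℝ := |b (j₀ + 1) - b j₀| / 2 with hη
  have hη0 : 0 < η := by
    have : 0 < |b (j₀ + 1) - b j₀| := abs_pos.2 (sub_ne_zero.2 hj₀)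
    positivity
  let W : Set (ℕ → ℝ) := {y | |y j₀ - b (j₀ + 1)| < η}
  have hW : IsOpen W :=
    isOpen_lt (((continuous_apply j₀).sub continuous_const).abs) continuous_const
  obtain ⟨m, hm0, hm⟩ := exists_ip_of_prox shiftSeq continuous_shiftSeq b W hW (by
      simp only [W, Set.mem_setOf_eq, shiftSeq, sub_self, abs_zero]
      exact hη0) (by
      intro r hr U V hU hV hbU hbV
      obtain ⟨KU, εU, hεU, hεU1, hUsub⟩ := basic_nhd U hU _ hbU
      obtain ⟨KV, εV, hεV, hεV1, hVsub⟩ := basic_nhd V hV _ hbV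
      obtain ⟨L, hL⟩ := hsynd (KU + r) εU hεU
      obtain ⟨k, hk⟩ := thick Λ b M hM hsynd hdec KV εV hεV hεV1 (L + r)
      obtain ⟨n', hn', hn1, hn2⟩ := hL k
      obtain ⟨n, hn3, hn4⟩ := hk (n' - k + r) (by omega)
      refine ⟨n' + r, n, by omega, ?_, ?_, ?_⟩
      · apply hUsub
        intro j hj
        rw [shiftSeq_iterate, shiftSeq_iterate]
        have := hn' (j + r) (by omega)
        have e : j + (n' + r) = n' + (j + r) := by omega
        rw [e]
        exact this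
      · apply hVsub
        intro j hj
        rw [shiftSeq_iterate]
        have := hn3 j hj
        rw [add_comm j n]
        exact this
      · apply hVsub
        intro j hj
        rw [shiftSeq_iterate]
        have := hn4 j hj
        have e : j + (n + (n' + r)) = n + k + (n' - k + r) + j := by omega
        rw [e]
        exact this)
  obtain ⟨n, hn1, F, hF, rfl⟩ := hip j₀ η hη0 {n | ∃ F : Finset ℕ, F.Nonempty ∧ ∑ k ∈ F, m k = n}
    ⟨m, hm0, fun F hF => ⟨F, hF, rfl⟩⟩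
  have h1 := hm F hF
  simp only [W, Set.mem_setOf_eq] at h1
  rw [shiftSeq_iterate] at h1
  have h2 := hn1 j₀ le_rfl
  rw [add_comm] at h2
  have h3 : |b (j₀ + 1) - b j₀| < η + η := by
    calc |b (j₀ + 1) - b j₀| = |(b (j₀ + ∑ k ∈ F, m k) - b j₀) -
          (b (j₀ + ∑ k ∈ F, m k) - b (j₀ + 1))| := by ring_nf
      _ ≤ |b (j₀ + ∑ k ∈ F, m k) - b j₀| + |b (j₀ + ∑ k ∈ F, m k) - b (j₀ + 1)| := abs_sub _ _
      _ < η + η := add_lt_add h2 h1
  rw [hη] at h3
  linarith

end Pool.Agent.MP_145b75_an
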