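import Mathlib

/-! Definitions used in the statement for MP_145b75_an: syndetic sets, IP sets, Delta sets, and the
corresponding notions of recurrence of a point under a map. -/

namespace Pool.Agent.MP_145b75_an

open Filter Topology

/-- A set of natural numbers is syndetic if it has bounded gaps. -/
def IsSyndetic (A : Set ℕ) : Prop := ∃ L : ℕ, ∀ n : ℕ, ∃ m ∈ A, n ≤ m ∧ m ≤ n + L

/-- A set of natural numbers is an IP set if it contains all finite sums of some sequence of
positive integers. -/
def IsIPSet (A : Set ℕ) : Prop :=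
  ∃ n : ℕ → ℕ, (∀ k, 0 < n k) ∧ ∀ F : Finset ℕ, F.Nonempty → ∑ k ∈ F, n k ∈ A

/-- A set is IP* if it meets every IP set. -/
def IsIPStar (A : Set ℕ) : Prop := ∀ B : Set ℕ, IsIPSet B → (A ∩ B).Nonempty

/-- A Delta set: it is the set of all differences `b - a`, `a < b` in `B`, for an infinite `B`. -/
def IsDeltaSet (A : Set ℕ) : Prop :=
  ∃ B : Set ℕ, B.Infinite ∧ A = {d | ∃ a ∈ B, ∃ b ∈ B, a < b ∧ d = b - a}

/-- A set is Delta* if it meets every Delta set. -/
def IsDeltaStar (A : Set ℕ) : Prop := ∀ B : Set ℕ, IsDeltaSet B → (A ∩ B).Nonempty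

/-- The set of times `n ≥ 0` at which the orbit of `x` under `T` visits `U`. -/
def returnSet {X : Type*} (T : X → X) (x : X) (U : Set X) : Set ℕ := {n | T^[n] x ∈ U}

/-- `x` is uniformly recurrent: its return sets to its neighbourhoods are syndetic. -/
def IsUniformlyRecurrent {X : Type*} [TopologicalSpace X] (T : X → X) (x : X) : Prop :=
  ∀ U ∈ 𝓝 x, IsSyndetic (returnSet T x U)

/-- `x` is IP*-recurrent: its return sets to its neighbourhoods are IP*. -/
def IsIPStarRecurrent {X : Type*} [TopologicalSpace X] (T : X → X) (x : X) : Prop :=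
  ∀ U ∈ 𝓝 x, IsIPStar (returnSet T x U)

/-- `x` is Delta*-recurrent: its return sets to its neighbourhoods are Delta*. -/
def IsDeltaStarRecurrent {X : Type*} [TopologicalSpace X] (T : X → X) (x : X) : Prop :=
  ∀ U ∈ 𝓝 x, IsDeltaStar (returnSet T x U)

end Pool.Agent.MP_145b75_an
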