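import Pool.Agent.MP_145b75_an.Space

/-! IP*-recurrent vectors of the operator are contained in a proper closed subspace. -/

namespace Pool.Agent.MP_145b75_an

open Finset Filter Topology

variable {𝕜 : Type} [RCLike 𝕜]

theorem xb_zero : xb 0 = false := by
  simp [xb, Bw]

theorem xb_one : xb 1 = true := by
  have h1 : (Bw 1).getD 1 false = true := by
    have e1 : Bw 1 = tile [false] (allbits (la 0) (lM 0) (lL 0) (ls 0)) := rfl
    have hL := lL_pos 0
    have hs : 0 < ls 0 0 := by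
      have : ls 0 0 = la 0 := by
        unfold ls la
        congr 1
        apply Finset.filter_true_of_mem
        intro p _
        exact dvd_zero p
      rw [this]
      exact la_pos 0
    obtain ⟨L', hL'⟩ := Nat.exists_eq_succ_of_ne_zero hL.ne'
    obtain ⟨s', hs'⟩ := Nat.exists_eq_succ_of_ne_zero hs.ne'
    have e2 : ∃ rest, allbits (la 0) (lM 0) (lL 0) (ls 0) = true :: rest := by
      unfold allbits slotbits
      rw [hL', Nat.succ_eq_add_one, List.range_succ_eq_map, List.flatMap_cons, hs',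
        Nat.succ_eq_add_one, List.replicate_succ]
      exact ⟨_, rfl⟩
    obtain ⟨rest, hrest⟩ := e2
    rw [e1, hrest, tile_cons]
    simp [sep]
  rw [xb_eq (i := 1) (lt_lh 1)]
  exact h1

/-- the main functional -/
noncomputable def pphi : FI 𝕜 :=
  ⟨(1, fun n => ((wt 1 * xs n : ℝ) : 𝕜)), by
    constructor
    · intro n
      dsimp only
      rw [RCLike.norm_ofReal, abs_mul, abs_of_pos (wt_pos 1)]
      exact mul_le_of_le_one_right (wt_pos 1).le (abs_xs_le n)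
    · intro n n' h
      dsimp only at h ⊢
      have := h 0 one_pos
      rw [add_zero, add_zero] at this
      unfold xs
      rw [this]⟩

/-- the word of length `W` at `n` -/
noncomputable def wd (W n : ℕ) : Fin W → Bool := fun k => xb (n + k)

theorem wd_eq {W n n' : ℕ} (h : ∀ k < W, xb (n + k) = xb (n' + k)) : wd W n = wd W n' := by
  funext k
  exact h k k.2

/-- functional attached to a function on words -/
noncomputable def psgn (W : ℕ) (ε : (Fin W → Bool) → ℝ) (hε : ∀ ω, |ε ω| ≤ 1) : FI 𝕜 :=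
  ⟨(W, fun n => ((ε (wd W n) * wt W : ℝ) : 𝕜)), by
    constructor
    · intro n
      dsimp only
      rw [RCLike.norm_ofReal, abs_mul, abs_of_pos (wt_pos W)]
      exact mul_le_of_le_one_left (wt_pos W).le (hε _)
    · intro n n' h
      dsimp only at h ⊢
      rw [wd_eq h]⟩

/-- indicator of a word -/
def indw {W : ℕ} (ω ω' : Fin W → Bool) : ℝ := if ω' = ω then 1 else 0

theorem indw_le {W : ℕ} (ω ω' : Fin W → Bool) : |indw ω ω'| ≤ 1 := by
  unfold indw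
  split_ifs <;> simp

/-- value of `v` on the indicator of the word `ω`. -/
noncomputable def vw (W : ℕ) (ω : Fin W → Bool) (v : EE 𝕜) : 𝕜 := v (psgn W (indw ω) (indw_le ω))

theorem en_psgn (W : ℕ) (ε : (Fin W → Bool) → ℝ) (hε : ∀ ω, |ε ω| ≤ 1) (n : ℕ) :
    (en n : EE 𝕜) (psgn W ε hε) = ((ε (wd W n) * wt W : ℝ) : 𝕜) := rfl

theorem vw_en (W : ℕ) (ω : Fin W → Bool) (n : ℕ) :
    vw W ω (en n : EE 𝕜) = ((indw ω (wd W n) * wt W : ℝ) : 𝕜) := rfl

theorem en_pphi (n : ℕ) : (en n : EE 𝕜) pphi = ((wt 1 * xs n : ℝ) : 𝕜) := rfl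

theorem indw_self {W : ℕ} (ω : Fin W → Bool) : indw ω ω = 1 := by simp [indw]

theorem indw_ne {W : ℕ} {ω ω' : Fin W → Bool} (h : ω' ≠ ω) : indw ω ω' = 0 := by
  simp [indw, h]

theorem psgn_eq (W : ℕ) (ε : (Fin W → Bool) → ℝ) (hε : ∀ ω, |ε ω| ≤ 1) {v : EE 𝕜}
    (hv : v ∈ XX 𝕜) : v (psgn W ε hε) = ∑ ω, (ε ω : 𝕜) * vw W ω v := by
  let L : EE 𝕜 →L[𝕜] 𝕜 := BoundedContinuousFunction.evalCLM 𝕜 (psgn W ε hε) -
    ∑ ω, (ε ω : 𝕜) • BoundedContinuousFunction.evalCLM 𝕜 (psgn W (indw ω) (indw_le ω))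
  have hL : ∀ v : EE 𝕜, L v = v (psgn W ε hε) - ∑ ω, (ε ω : 𝕜) * vw W ω v := by
    intro v
    simp only [L, _root_.sub_apply, _root_.sum_apply,
      _root_.smul_apply, smul_eq_mul]
    rfl
  have h := eq_zero_of_en L (by
    intro n
    rw [hL, en_psgn, Finset.sum_eq_single (wd W n)]
    · rw [vw_en, indw_self, one_mul, ← RCLike.ofReal_mul, sub_self]
    · intro ω _ hω
      rw [vw_en, indw_ne (Ne.symm hω), zero_mul, RCLike.ofReal_zero, mul_zero]
    · intro h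
      exact absurd (Finset.mem_univ _) h) hv
  rw [hL] at h
  exact sub_eq_zero.1 h

/-- a position at which the word `ω` occurs. -/
noncomputable def mu (W : ℕ) (ω : Fin W → Bool) : ℕ := Function.invFun (wd W) ω

theorem wd_mu (W n : ℕ) : wd W (mu W (wd W n)) = wd W n :=
  Function.invFun_eq (f := wd W) ⟨n, rfl⟩

theorem TE_iterate_en (m n : ℕ) : (TE : EE 𝕜 →L[𝕜] EE 𝕜)^[m] (en n) = en (n + m) := by
  induction m with
  | zero => rfl
  | succ m ih => rw [Function.iterate_succ_apply', ih, TE_en, add_assoc]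

theorem TX_iterate_coe (n : ℕ) (v : XX 𝕜) :
    (((TX : XX 𝕜 →L[𝕜] XX 𝕜)^[n] v : XX 𝕜) : EE 𝕜) = (TE : EE 𝕜 →L[𝕜] EE 𝕜)^[n] (v : EE 𝕜) := by
  induction n with
  | zero => rfl
  | succ n ih => rw [Function.iterate_succ_apply', Function.iterate_succ_apply', TX_coe, ih]

theorem rep_formula (W n : ℕ) (hn : n < W) {v : EE 𝕜} (hv : v ∈ XX 𝕜) :
    ((TE : EE 𝕜 →L[𝕜] EE 𝕜)^[n] v) pphi =
      ∑ ω, vw W ω v * ((wt 1 / wt W * xs (n + mu W ω) : ℝ) : 𝕜) := by
  let L : EE 𝕜 →L[𝕜] 𝕜 := (BoundedContinuousFunction.evalCLM 𝕜 (pphi : FI 𝕜)).comp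
      ((TE : EE 𝕜 →L[𝕜] EE 𝕜) ^ n) -
    ∑ ω, ((wt 1 / wt W * xs (n + mu W ω) : ℝ) : 𝕜) •
      BoundedContinuousFunction.evalCLM 𝕜 (psgn W (indw ω) (indw_le ω))
  have hL : ∀ v : EE 𝕜, L v = ((TE : EE 𝕜 →L[𝕜] EE 𝕜)^[n] v) pphi -
      ∑ ω, vw W ω v * ((wt 1 / wt W * xs (n + mu W ω) : ℝ) : 𝕜) := by
    intro v
    simp only [L, _root_.sub_apply, _root_.sum_apply,
      _root_.smul_apply, smul_eq_mul, ContinuousLinearMap.comp_apply]
    rw [FunLike.coe_pow_eq_iterate]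
    congr 1
    apply Finset.sum_congr rfl
    intro ω _
    rw [mul_comm]
    rfl
  have h := eq_zero_of_en L (by
    intro m
    rw [hL, TE_iterate_en, en_pphi, Finset.sum_eq_single (wd W m)]
    · have e1 : xs (n + mu W (wd W m)) = xs (m + n) := by
        have h2 := congrFun (wd_mu W m) ⟨n, hn⟩
        simp only [wd] at h2
        unfold xs
        rw [add_comm n, h2]
      rw [e1, vw_en, indw_self, one_mul, ← RCLike.ofReal_mul, ← RCLike.ofReal_sub]
      have : wt 1 * xs (m + n) - wt W * (wt 1 / wt W * xs (m + n)) = 0 := by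
        have := (wt_pos W).ne'
        field_simp
        ring
      rw [this, RCLike.ofReal_zero]
    · intro ω _ hω
      rw [vw_en, indw_ne (Ne.symm hω), zero_mul, RCLike.ofReal_zero, zero_mul]
    · intro h
      exact absurd (Finset.mem_univ _) h) hv
  rw [hL] at h
  exact sub_eq_zero.1 h

theorem sum_re_le (W : ℕ) {v : EE 𝕜} (hv : v ∈ XX 𝕜) : ∑ ω, |RCLike.re (vw W ω v)| ≤ ‖v‖ := by
  let ε : (Fin W → Bool) → ℝ := fun ω => SignType.sign (RCLike.re (vw W ω v))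
  have hε : ∀ ω, |ε ω| ≤ 1 := by
    intro ω
    simp only [ε]
    rcases lt_trichotomy (RCLike.re (vw W ω v)) 0 with h | h | h
    · rw [sign_neg h]; simp
    · rw [h]; simp
    · rw [sign_pos h]; simp
  have h1 := psgn_eq W ε hε hv
  have h2 : RCLike.re (v (psgn W ε hε)) = ∑ ω, |RCLike.re (vw W ω v)| := by
    rw [h1, map_sum]
    apply Finset.sum_congr rfl
    intro ω _
    rw [RCLike.re_ofReal_mul]
    exact sign_mul_self _
  rw [← h2]
  exact (RCLike.re_le_norm _).trans (v.norm_coe_le_norm _)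

/-- the scalar sequence attached to `v`. -/
noncomputable def bs (v : XX 𝕜) (n : ℕ) : ℝ :=
  RCLike.re ((((TX : XX 𝕜 →L[𝕜] XX 𝕜)^[n] v : XX 𝕜) : EE 𝕜) pphi)

theorem bs_rep (v : XX 𝕜) : Rep (bs v) ‖v‖ := by
  intro W
  let e := Fintype.equivFin (Fin W → Bool)
  refine ⟨Fintype.card (Fin W → Bool),
    fun j => RCLike.re (vw W (e.symm j) (v : EE 𝕜)) * (wt 1 / wt W), fun j => mu W (e.symm j),
    ?_, ?_⟩
  · rw [Equiv.sum_comp e.symm (fun ω => |RCLike.re (vw W ω (v : EE 𝕜)) * (wt 1 / wt W)|)]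
    simp_rw [abs_mul]
    rw [← Finset.sum_mul]
    have h1 := sum_re_le W v.2
    have hW := wt_pos W
    have h2 : |wt 1 / wt W| ≤ 1 / wt W := by
      rw [abs_of_pos (div_pos (wt_pos 1) hW)]
      exact div_le_div_of_nonneg_right (wt_le_one 1) hW.le
    calc (∑ ω, |RCLike.re (vw W ω (v : EE 𝕜))|) * |wt 1 / wt W| ≤ ‖v‖ * (1 / wt W) :=
          mul_le_mul h1 h2 (abs_nonneg _) (norm_nonneg _)
      _ = ‖v‖ / wt W := by ring
  · intro k hk
    unfold bs
    rw [TX_iterate_coe, rep_formula W k hk v.2, map_sum,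
      Equiv.sum_comp e.symm (fun ω => RCLike.re (vw W ω (v : EE 𝕜)) * (wt 1 / wt W) *
        xs (k + mu W ω))]
    apply Finset.sum_congr rfl
    intro ω _
    rw [mul_comm (vw W ω (v : EE 𝕜)), RCLike.re_ofReal_mul]
    ring

theorem continuous_bs (n : ℕ) : Continuous (fun v : XX 𝕜 => bs v n) := by
  unfold bs
  apply RCLike.continuous_re.comp
  have h1 : Continuous (fun v : XX 𝕜 => (((TX : XX 𝕜 →L[𝕜] XX 𝕜)^[n] v : XX 𝕜) : EE 𝕜)) :=
    continuous_subtype_val.comp ((TX : XX 𝕜 →L[𝕜] XX 𝕜).continuous.iterate n)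
  exact (BoundedContinuousFunction.evalCLM 𝕜 (pphi : FI 𝕜)).continuous.comp h1

theorem bs_iterate (v : XX 𝕜) (n j : ℕ) :
    bs ((TX : XX 𝕜 →L[𝕜] XX 𝕜)^[n] v) j = bs v (n + j) := by
  unfold bs
  rw [← Function.iterate_add_apply, add_comm j n]

theorem bounded_orbit (v : XX 𝕜) (h : IsUniformlyRecurrent (TX : XX 𝕜 →L[𝕜] XX 𝕜) v) :
    ∃ M : ℝ, ∀ n, ‖(TX : XX 𝕜 →L[𝕜] XX 𝕜)^[n] v‖ ≤ M := by
  obtain ⟨L, hL⟩ := h (Metric.ball v 1) (Metric.ball_mem_nhds v one_pos)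
  let A : ℝ := ∑ k ∈ range (L + 1), ‖(TX : XX 𝕜 →L[𝕜] XX 𝕜) ^ k‖
  have hA0 : 0 ≤ A := Finset.sum_nonneg (fun _ _ => ContinuousLinearMap.opNorm_nonneg _)
  have hA : ∀ k ≤ L, ∀ u : XX 𝕜, ‖(TX : XX 𝕜 →L[𝕜] XX 𝕜)^[k] u‖ ≤ A * ‖u‖ := by
    intro k hk u
    rw [← FunLike.coe_pow_eq_iterate]
    refine (ContinuousLinearMap.le_opNorm _ _).trans ?_
    apply mul_le_mul_of_nonneg_right _ (norm_nonneg _)
    exact Finset.single_le_sum (f := fun k => ‖(TX : XX 𝕜 →L[𝕜] XX 𝕜) ^ k‖)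
      (fun _ _ => ContinuousLinearMap.opNorm_nonneg _) (by rw [mem_range]; omega)
  refine ⟨A * (‖v‖ + 1), fun n => ?_⟩
  rcases le_or_gt n L with hn | hn
  · refine (hA n hn v).trans ?_
    apply mul_le_mul_of_nonneg_left _ hA0
    linarith
  · obtain ⟨m, hm, h1, h2⟩ := hL (n - L)
    have e1 : n = (n - m) + m := by omega
    rw [e1, Function.iterate_add_apply]
    refine (hA (n - m) (by omega) _).trans ?_
    apply mul_le_mul_of_nonneg_left _ hA0
    have h3 : dist ((TX : XX 𝕜 →L[𝕜] XX 𝕜)^[m] v) v < 1 := hm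
    rw [dist_eq_norm] at h3
    have h4 := norm_sub_norm_le ((TX : XX 𝕜 →L[𝕜] XX 𝕜)^[m] v) v
    linarith

theorem bs_const (v : XX 𝕜) (h : IsIPStarRecurrent (TX : XX 𝕜 →L[𝕜] XX 𝕜) v) :
    ∀ n, bs v (n + 1) = bs v n := by
  obtain ⟨M, hM⟩ := bounded_orbit v (fun U hU => (h U hU).isSyndetic)
  apply const_of_rep (bs v) M ‖v‖ _ (norm_nonneg _) (bs_rep v)
  · intro K ε hε
    have hU : {u : XX 𝕜 | ∀ j ≤ K, |bs u j - bs v j| < ε} ∈ 𝓝 v := by
      have h1 : {u : XX 𝕜 | ∀ j ≤ K, |bs u j - bs v j| < ε} =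
          ⋂ j ∈ Set.Iic K, {u : XX 𝕜 | |bs u j - bs v j| < ε} := by
        ext u
        simp
      rw [h1]
      apply (Filter.biInter_mem (Set.finite_Iic K)).2
      intro j _
      apply IsOpen.mem_nhds
      · exact isOpen_lt (((continuous_bs j).sub continuous_const).abs) continuous_const
      · simpa using hε
    apply (h _ hU).mono
    intro n hn j hj
    have := hn j hj
    rw [bs_iterate] at this
    exact this
  · intro n
    unfold bs
    refine (RCLike.abs_re_le_norm _).trans ?_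
    refine (BoundedContinuousFunction.norm_coe_le_norm _ _).trans ?_
    exact hM n

theorem ipStar_smul (v : XX 𝕜) (c : 𝕜) (h : IsIPStarRecurrent (TX : XX 𝕜 →L[𝕜] XX 𝕜) v) :
    IsIPStarRecurrent (TX : XX 𝕜 →L[𝕜] XX 𝕜) (c • v) := by
  intro U hU
  have hc : Continuous (fun u : XX 𝕜 => c • u) := continuous_const_smul c
  apply (h _ (hc.continuousAt.preimage_mem_nhds hU)).mono
  intro n hn
  change (TX : XX 𝕜 →L[𝕜] XX 𝕜)^[n] (c • v) ∈ U
  have : (TX : XX 𝕜 →L[𝕜] XX 𝕜)^[n] (c • v) = c • (TX : XX 𝕜 →L[𝕜] XX 𝕜)^[n] v := by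
    rw [← FunLike.coe_pow_eq_iterate, map_smul]
  rw [this]
  exact hn

theorem ipStar_fixed (v : XX 𝕜) (h : IsIPStarRecurrent (TX : XX 𝕜 →L[𝕜] XX 𝕜) v) :
    ((TX v : XX 𝕜) : EE 𝕜) pphi = (v : EE 𝕜) pphi := by
  have h1 := bs_const v h 0
  have h2 := bs_const _ (ipStar_smul v (-RCLike.I) h) 0
  unfold bs at h1 h2
  simp only [zero_add, Function.iterate_one, Function.iterate_zero, id] at h1 h2
  apply RCLike.ext
  · exact h1
  · rw [map_smul] at h2
    simpa using h2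

theorem not_dense_ipStar :
    ¬ Dense {v : XX 𝕜 | IsIPStarRecurrent (TX : XX 𝕜 →L[𝕜] XX 𝕜) v} := by
  intro hd
  have hcl : IsClosed {v : XX 𝕜 | ((TX v : XX 𝕜) : EE 𝕜) pphi = (v : EE 𝕜) pphi} := by
    apply isClosed_eq
    · exact (BoundedContinuousFunction.evalCLM 𝕜 (pphi : FI 𝕜)).continuous.comp
        (continuous_subtype_val.comp (TX : XX 𝕜 →L[𝕜] XX 𝕜).continuous)
    · exact (BoundedContinuousFunction.evalCLM 𝕜 (pphi : FI 𝕜)).continuous.comp
        continuous_subtype_val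
  have hsub : {v : XX 𝕜 | IsIPStarRecurrent (TX : XX 𝕜 →L[𝕜] XX 𝕜) v} ⊆
      {v : XX 𝕜 | ((TX v : XX 𝕜) : EE 𝕜) pphi = (v : EE 𝕜) pphi} := fun v hv => ipStar_fixed v hv
  have hall := hd.closure_eq ▸ hcl.closure_subset_iff.2 hsub
  have h0 : ((TX (eX 0) : XX 𝕜) : EE 𝕜) pphi = ((eX 0 : XX 𝕜) : EE 𝕜) pphi :=
    hall (Set.mem_univ (eX 0))
  rw [TX_eX] at h0
  change (en (0 + 1) : EE 𝕜) pphi = (en 0 : EE 𝕜) pphi at h0
  rw [en_apply, en_apply] at h0
  simp only [pphi, xs, zero_add, xb_zero, xb_one, if_true, Bool.false_eq_true, if_false, mul_one,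
    mul_zero, RCLike.ofReal_zero] at h0
  have := wt_pos 1
  rw [RCLike.ofReal_eq_zero] at h0
  linarith

end Pool.Agent.MP_145b75_an
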