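import Mathlib
import Pool.Agent.MP_145b75_an.Defs

/-! Combinatorics of IP sets used for MP_145b75_an. -/

namespace Pool.Agent.MP_145b75_an

/-- A general recursive construction of IP sets: `I Σ r` is an invariant of a finite set `Σ` of
finite sums and a state `r`. -/
theorem exists_ip_seq {α : Type*} (I : Finset ℕ → α → Prop) (r₀ : α) (h0 : I {0} r₀)
    (hstep : ∀ (S : Finset ℕ) (r : α), I S r → ∃ m : ℕ, 0 < m ∧ ∃ r' : α,
      I (S ∪ S.image (fun σ => σ + m)) r') :
    ∃ m : ℕ → ℕ, (∀ k, 0 < m k) ∧ ∀ K : ℕ, ∃ S : Finset ℕ, ∃ r : α, I S r ∧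
      ∀ F : Finset ℕ, (∀ k ∈ F, k < K) → ∑ k ∈ F, m k ∈ S := by
  classical
  choose! f hf g hg using hstep
  let st : ℕ → Finset ℕ × α := fun k => Nat.rec ({0}, r₀)
    (fun _ p => (p.1 ∪ p.1.image (fun σ => σ + f p.1 p.2), g p.1 p.2)) k
  have st0 : st 0 = ({0}, r₀) := rfl
  have stS : ∀ k, st (k + 1) = ((st k).1 ∪ (st k).1.image (fun σ => σ + f (st k).1 (st k).2),
      g (st k).1 (st k).2) := fun k => rfl
  have inv : ∀ k, I (st k).1 (st k).2 := by
    intro k
    induction k with
    | zero => rw [st0]; exact h0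
    | succ k ih => rw [stS]; exact hg _ _ ih
  refine ⟨fun k => f (st k).1 (st k).2, fun k => hf _ _ (inv k), ?_⟩
  intro K
  refine ⟨(st K).1, (st K).2, inv K, ?_⟩
  induction K with
  | zero =>
    intro F hF
    have : F = ∅ := by
      apply Finset.eq_empty_of_forall_notMem
      intro k hk
      exact absurd (hF k hk) (Nat.not_lt_zero k)
    subst this
    simp [st0]
  | succ K ih =>
    intro F hF
    rw [stS]
    by_cases hK : K ∈ F
    · have h1 : ∑ k ∈ F.erase K, f (st k).1 (st k).2 ∈ (st K).1 := by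
        apply ih
        intro k hk
        have h2 := hF k (Finset.mem_of_mem_erase hk)
        have h3 := Finset.ne_of_mem_erase hk
        omega
      rw [← Finset.sum_erase_add _ _ hK]
      apply Finset.mem_union_right
      exact Finset.mem_image_of_mem (fun σ => σ + f (st K).1 (st K).2) h1
    · apply Finset.mem_union_left
      apply ih
      intro k hk
      have h2 := hF k hk
      have h3 : k ≠ K := fun h => hK (h ▸ hk)
      omega

/-- Every IP* set is syndetic. -/
theorem IsIPStar.isSyndetic {A : Set ℕ} (hA : IsIPStar A) : IsSyndetic A := by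
  classical
  by_contra hns
  have hgap : ∀ L : ℕ, ∃ n : ℕ, ∀ m, n ≤ m → m ≤ n + L → m ∉ A := by
    intro L
    by_contra h
    push Not at h
    exact hns ⟨L, fun n => by
      obtain ⟨m, h1, h2, h3⟩ := h n
      exact ⟨m, h3, h1, h2⟩⟩
  obtain ⟨m, hm0, hm⟩ := exists_ip_seq (α := Unit)
    (fun S _ => ∀ σ ∈ S, σ ≠ 0 → σ ∉ A) () (by simp) (by
      intro S _ hS
      obtain ⟨n, hn⟩ := hgap (S.sup id + 1)
      refine ⟨n + 1, Nat.succ_pos n, (), ?_⟩
      intro σ hσ hσ0
      rcases Finset.mem_union.1 hσ with h | h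
      · exact hS σ h hσ0
      · obtain ⟨τ, hτ, rfl⟩ := Finset.mem_image.1 h
        have hτ' : τ ≤ S.sup id := Finset.le_sup (f := id) hτ
        exact hn _ (by omega) (by omega))
  have hIP : IsIPSet {n | ∃ F : Finset ℕ, F.Nonempty ∧ ∑ k ∈ F, m k = n} :=
    ⟨m, hm0, fun F hF => ⟨F, hF, rfl⟩⟩
  obtain ⟨n, hnA, F, hF, rfl⟩ := hA _ hIP
  obtain ⟨S, _, hS, hFS⟩ := hm (F.sup id + 1)
  have h1 : ∑ k ∈ F, m k ∈ S := hFS F (fun k hk => by
    have := Finset.le_sup (f := id) hk
    simp only [id] at this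
    omega)
  refine hS _ h1 ?_ hnA
  obtain ⟨k, hk⟩ := hF
  have : m k ≤ ∑ k ∈ F, m k := Finset.single_le_sum (fun _ _ => Nat.zero_le _) hk
  have := hm0 k
  omega

/-- The key topological lemma: if `(a, S^r a)` is approximately proximal in the sense of `hP`
for all `r ≥ 1`, then along an IP set the point `a` stays in a neighbourhood of `S a`. -/
theorem exists_ip_of_prox {Y : Type*} [TopologicalSpace Y] (S : Y → Y) (hS : Continuous S)
    (a : Y) (W : Set Y) (hW : IsOpen W) (hSa : S a ∈ W)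
    (hP : ∀ r : ℕ, 1 ≤ r → ∀ U V : Set Y, IsOpen U → IsOpen V → S^[r] a ∈ U → a ∈ V →
      ∃ h n : ℕ, 1 ≤ h ∧ S^[h] a ∈ U ∧ S^[n] a ∈ V ∧ S^[n + h] a ∈ V) :
    ∃ m : ℕ → ℕ, (∀ k, 0 < m k) ∧ ∀ F : Finset ℕ, F.Nonempty → S^[∑ k ∈ F, m k] a ∈ W := by
  classical
  obtain ⟨m, hm0, hm⟩ := exists_ip_seq (α := ℕ)
    (fun Sg r => 1 ≤ r ∧ (∀ σ ∈ Sg, σ ≠ 0 → S^[σ] a ∈ W) ∧ (∀ σ ∈ Sg, S^[σ + r] a ∈ W)) 1
    (by
      refine ⟨le_rfl, by simp, ?_⟩
      intro σ hσ
      rw [Finset.mem_singleton] at hσ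
      subst hσ
      simpa using hSa) (by
      rintro Sg r ⟨hr, h1, h2⟩
      set U : Set Y := ⋂ σ ∈ Sg, (S^[σ]) ⁻¹' W with hU
      set V : Set Y := ⋂ σ ∈ Sg, (S^[σ + r]) ⁻¹' W with hV
      have hUo : IsOpen U := by
        rw [hU]
        exact Sg.finite_toSet.isOpen_biInter (fun σ _ => hW.preimage (hS.iterate σ))
      have hVo : IsOpen V := by
        rw [hV]
        exact Sg.finite_toSet.isOpen_biInter (fun σ _ => hW.preimage (hS.iterate (σ + r)))
      have hUa : S^[r] a ∈ U := by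
        rw [hU]
        simp only [Set.mem_iInter, Set.mem_preimage]
        intro σ hσ
        rw [← Function.iterate_add_apply]
        exact h2 σ hσ
      have hVa : a ∈ V := by
        rw [hV]
        simp only [Set.mem_iInter, Set.mem_preimage]
        intro σ hσ
        exact h2 σ hσ
      obtain ⟨h, n, hh, hhU, hnV, hnhV⟩ := hP r hr U V hUo hVo hUa hVa
      rw [hU] at hhU
      rw [hV] at hnV hnhV
      simp only [Set.mem_iInter, Set.mem_preimage] at hhU hnV hnhV
      refine ⟨r + n, by omega, h, hh, ?_, ?_⟩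
      · intro σ hσ hσ0
        rcases Finset.mem_union.1 hσ with hc | hc
        · exact h1 σ hc hσ0
        · obtain ⟨τ, hτ, rfl⟩ := Finset.mem_image.1 hc
          have := hnV τ hτ
          rw [← Function.iterate_add_apply] at this
          simpa [add_assoc] using this
      · intro σ hσ
        rcases Finset.mem_union.1 hσ with hc | hc
        · have := hhU σ hc
          rw [← Function.iterate_add_apply] at this
          exact this
        · obtain ⟨τ, hτ, rfl⟩ := Finset.mem_image.1 hc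
          have := hnhV τ hτ
          rw [← Function.iterate_add_apply] at this
          simpa [add_assoc] using this)
  refine ⟨m, hm0, ?_⟩
  intro F hF
  obtain ⟨S', r, ⟨_, h1, _⟩, hFS⟩ := hm (F.sup id + 1)
  apply h1
  · apply hFS
    intro k hk
    have := Finset.le_sup (f := id) hk
    simp only [id] at this
    omega
  · obtain ⟨k, hk⟩ := hF
    have : m k ≤ ∑ k ∈ F, m k := Finset.single_le_sum (fun _ _ => Nat.zero_le _) hk
    have := hm0 k
    omega

end Pool.Agent.MP_145b75_an
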