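import Pool.Agent.MP_145b75_an.Seq
import Pool.Agent.MP_145b75_an.Const

/-! Decorrelation of monomials for sequences represented by `xs` (MP_145b75_an). -/

namespace Pool.Agent.MP_145b75_an

open Finset Filter Topology

theorem prod_rep {d k : ℕ} (x : ℕ → ℝ) (c : Fin k → ℝ) (μ : Fin k → ℕ) (τ : Fin d → ℕ) (n : ℕ) :
    ∏ j, ∑ m, c m * x (n + τ j + μ m) =
      ∑ p : Fin d → Fin k, (∏ j, c (p j)) * ∏ j, x (n + (τ j + μ (p j))) := by
  rw [Finset.prod_univ_sum, Fintype.piFinset_univ]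
  apply Finset.sum_congr rfl
  intro p _
  rw [Finset.prod_mul_distrib]
  congr 1
  apply Finset.prod_congr rfl
  intro j _
  rw [add_assoc]

theorem sum_abs_prod {d k : ℕ} (c : Fin k → ℝ) :
    ∑ p : Fin d → Fin k, |∏ j, c (p j)| = (∑ m, |c m|) ^ d := by
  have h := Finset.prod_univ_sum (fun _ : Fin d => (Finset.univ : Finset (Fin k)))
    (fun _ m => |c m|)
  rw [Fintype.piFinset_univ, Finset.prod_const, Finset.card_univ, Fintype.card_fin] at h
  rw [h]
  apply Finset.sum_congr rfl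
  intro p _
  rw [Finset.abs_prod]

theorem mono_est {d d' k : ℕ} (x b : ℕ → ℝ) (c : Fin k → ℝ) (μ : Fin k → ℕ) (W : ℕ)
    (hb : ∀ n < W, b n = ∑ m, c m * x (n + μ m)) (N r H : ℕ) (E : ℝ)
    (hE : ∀ (m : Fin d → ℕ) (m' : Fin d' → ℕ), ∑ γ ∈ range r, |∑ n ∈ range N,
      (∏ j, x (n + m j)) * (∏ j, x (n + γ * H + m' j) - ∏ j, x (n + γ * H + 1 + m' j))| ≤ E)
    (τ : Fin d → ℕ) (τ' : Fin d' → ℕ) (hτ : ∀ j, N + τ j ≤ W) (hτ' : ∀ j, N + r * H + τ' j < W) :
    ∑ γ ∈ range r, |∑ n ∈ range N, (∏ j, b (n + τ j)) *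
      ((∏ j, b (n + γ * H + τ' j)) - ∏ j, b (n + γ * H + 1 + τ' j))| ≤
      (∑ m, |c m|) ^ d * (∑ m, |c m|) ^ d' * E := by
  have key : ∀ γ ∈ range r, |∑ n ∈ range N, (∏ j, b (n + τ j)) *
      ((∏ j, b (n + γ * H + τ' j)) - ∏ j, b (n + γ * H + 1 + τ' j))| ≤
      ∑ p : Fin d → Fin k, ∑ p' : Fin d' → Fin k, |∏ j, c (p j)| * |∏ j, c (p' j)| *
        |∑ n ∈ range N, (∏ j, x (n + (τ j + μ (p j)))) *
          (∏ j, x (n + γ * H + (τ' j + μ (p' j))) -
            ∏ j, x (n + γ * H + 1 + (τ' j + μ (p' j))))| := by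
    intro γ hγ
    rw [mem_range] at hγ
    have e1 : ∑ n ∈ range N, (∏ j, b (n + τ j)) *
      ((∏ j, b (n + γ * H + τ' j)) - ∏ j, b (n + γ * H + 1 + τ' j)) =
        ∑ p : Fin d → Fin k, ∑ p' : Fin d' → Fin k, (∏ j, c (p j)) * (∏ j, c (p' j)) *
        (∑ n ∈ range N, (∏ j, x (n + (τ j + μ (p j)))) *
          (∏ j, x (n + γ * H + (τ' j + μ (p' j))) -
            ∏ j, x (n + γ * H + 1 + (τ' j + μ (p' j))))) := by
      have hγH : γ * H ≤ r * H := Nat.mul_le_mul_right _ hγ.le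
      have e2 : ∀ n ∈ range N, (∏ j, b (n + τ j)) *
          ((∏ j, b (n + γ * H + τ' j)) - ∏ j, b (n + γ * H + 1 + τ' j)) =
          ∑ p : Fin d → Fin k, ∑ p' : Fin d' → Fin k, (∏ j, c (p j)) * (∏ j, c (p' j)) *
          ((∏ j, x (n + (τ j + μ (p j)))) *
          (∏ j, x (n + γ * H + (τ' j + μ (p' j))) -
            ∏ j, x (n + γ * H + 1 + (τ' j + μ (p' j))))) := by
        intro n hn
        rw [mem_range] at hn
        have f1 : ∏ j, b (n + τ j) = ∏ j, ∑ m, c m * x (n + τ j + μ m) := by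
          apply Finset.prod_congr rfl
          intro j _
          apply hb
          have := hτ j
          omega
        have f2 : ∏ j, b (n + γ * H + τ' j) = ∏ j, ∑ m, c m * x (n + γ * H + τ' j + μ m) := by
          apply Finset.prod_congr rfl
          intro j _
          apply hb
          have := hτ' j
          omega
        have f3 : ∏ j, b (n + γ * H + 1 + τ' j) =
            ∏ j, ∑ m, c m * x (n + γ * H + 1 + τ' j + μ m) := by
          apply Finset.prod_congr rfl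
          intro j _
          apply hb
          have := hτ' j
          omega
        rw [f1, f2, f3, prod_rep, prod_rep, prod_rep, ← Finset.sum_sub_distrib,
          Finset.sum_mul_sum]
        apply Finset.sum_congr rfl
        intro p _
        apply Finset.sum_congr rfl
        intro p' _
        ring
      rw [Finset.sum_congr rfl e2, Finset.sum_comm]
      apply Finset.sum_congr rfl
      intro p _
      rw [Finset.sum_comm]
      apply Finset.sum_congr rfl
      intro p' _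
      rw [Finset.mul_sum]
    rw [e1]
    refine (Finset.abs_sum_le_sum_abs _ _).trans ?_
    apply Finset.sum_le_sum
    intro p _
    refine (Finset.abs_sum_le_sum_abs _ _).trans ?_
    apply Finset.sum_le_sum
    intro p' _
    rw [abs_mul, abs_mul]
  refine (Finset.sum_le_sum key).trans ?_
  rw [Finset.sum_comm]
  have e3 : ∀ p : Fin d → Fin k, ∑ γ ∈ range r, ∑ p' : Fin d' → Fin k,
      |∏ j, c (p j)| * |∏ j, c (p' j)| *
        |∑ n ∈ range N, (∏ j, x (n + (τ j + μ (p j)))) *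
          (∏ j, x (n + γ * H + (τ' j + μ (p' j))) -
            ∏ j, x (n + γ * H + 1 + (τ' j + μ (p' j))))| ≤
      |∏ j, c (p j)| * ((∑ m, |c m|) ^ d' * E) := by
    intro p
    rw [Finset.sum_comm, ← sum_abs_prod (d := d') c, Finset.sum_mul, Finset.mul_sum]
    apply Finset.sum_le_sum
    intro p' _
    rw [← Finset.mul_sum, mul_assoc]
    apply mul_le_mul_of_nonneg_left _ (abs_nonneg _)
    apply mul_le_mul_of_nonneg_left _ (abs_nonneg _)
    exact hE _ _
  refine (Finset.sum_le_sum (fun p _ => e3 p)).trans ?_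
  rw [← Finset.sum_mul, sum_abs_prod (d := d) c, mul_assoc]

/-- The level data of the sequence `xs`. -/
noncomputable def Lam : Levels where
  N := fun i => lh (i + 1)
  r := lr
  H := lH
  hN := fun i => lh_pos (i + 1)
  hr := lr_pos
  hNinf := by
    apply tendsto_atTop_mono (fun i => ?_) tendsto_id
    have := lt_lh (i + 1)
    simp only [id]
    omega

/-- window lengths -/
noncomputable def Wn : ℕ → ℕ
  | 0 => lh 1 + lr 0 * lH 0 + 1
  | i + 1 => Wn i + (lh (i + 2) + lr (i + 1) * lH (i + 1) + 1 + (i + 1))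

theorem Wn_strictMono : StrictMono Wn := by
  apply strictMono_nat_of_lt_succ
  intro i
  simp only [Wn]
  omega

theorem Wn_ge (i : ℕ) : lh (i + 1) + lr i * lH i + 1 + i ≤ Wn i := by
  cases i with
  | zero => simp [Wn]
  | succ i =>
    change lh (i + 2) + lr (i + 1) * lH (i + 1) + 1 + (i + 1) ≤
      Wn i + (lh (i + 2) + lr (i + 1) * lH (i + 1) + 1 + (i + 1))
    omega

/-- index of the weight -/
noncomputable def wi (W : ℕ) : ℕ := sInf {i | W ≤ Wn i}

theorem wi_spec (W : ℕ) : W ≤ Wn (wi W) := by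
  have hne : {i | W ≤ Wn i}.Nonempty := ⟨W, by
    have := Wn_ge W
    change W ≤ Wn W
    omega⟩
  exact Nat.sInf_mem hne

theorem wi_le {W i : ℕ} (h : W ≤ Wn i) : wi W ≤ i := Nat.sInf_le h

theorem wi_mono : Monotone wi := fun _ W' h => wi_le (h.trans (wi_spec W'))

theorem wi_succ (W : ℕ) : wi (W + 1) ≤ wi W + 1 := by
  apply wi_le
  have h1 := wi_spec W
  have h2 := Wn_strictMono (Nat.lt_succ_self (wi W))
  exact lt_of_le_of_lt h1 h2

/-- weights -/
noncomputable def wt (W : ℕ) : ℝ := 1 / (1 + wi W)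

theorem wt_pos (W : ℕ) : 0 < wt W := by
  unfold wt
  positivity

theorem wt_le_one (W : ℕ) : wt W ≤ 1 := by
  unfold wt
  rw [div_le_one (by positivity)]
  have : (0 : ℝ) ≤ wi W := Nat.cast_nonneg _
  linarith

theorem wt_succ (W : ℕ) : wt W / 2 ≤ wt (W + 1) := by
  unfold wt
  rw [div_div, div_le_div_iff₀ (by positivity) (by positivity)]
  have h1 : ((wi (W + 1) : ℕ) : ℝ) ≤ wi W + 1 := by exact_mod_cast wi_succ W
  have : (0 : ℝ) ≤ wi W := Nat.cast_nonneg _
  linarith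

theorem wt_anti : Antitone wt := by
  intro W W' h
  unfold wt
  apply one_div_le_one_div_of_le (by positivity)
  have : ((wi W : ℕ) : ℝ) ≤ wi W' := by exact_mod_cast wi_mono h
  linarith

theorem wt_tendsto : Tendsto wt atTop (𝓝 0) := by
  have h1 : Tendsto wi atTop atTop := by
    apply tendsto_atTop_atTop.2
    intro k
    refine ⟨Wn k + 1, fun W hW => ?_⟩
    by_contra h
    push Not at h
    have h2 := wi_spec W
    have h3 := Wn_strictMono.monotone h.le
    omega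
  have h2 : Tendsto (fun n : ℕ => (1 : ℝ) / (1 + n)) atTop (𝓝 0) := by
    have := tendsto_one_div_add_atTop_nhds_zero_nat (𝕜 := ℝ)
    refine this.congr (fun n => ?_)
    rw [add_comm]
  exact h2.comp h1

/-- `b` is represented by `xs` with constant `R`. -/
def Rep (b : ℕ → ℝ) (R : ℝ) : Prop := ∀ W : ℕ, ∃ (n : ℕ) (c : Fin n → ℝ) (μ : Fin n → ℕ),
  (∑ j, |c j| ≤ R / wt W) ∧ ∀ k < W, b k = ∑ j, c j * xs (k + μ j)

theorem qq_coprime (i : ℕ) : Pairwise (Function.onFun Nat.Coprime (qq i)) := by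
  intro p p' hne
  simp only [Function.onFun, qq]
  rw [Nat.coprime_primes (PP_prime p.2) (PP_prime p'.2)]
  exact fun h => hne (Subtype.ext h)

theorem xs_est (d d' i : ℕ) (hi : d + d' ≤ i) (m : Fin d → ℕ) (m' : Fin d' → ℕ) :
    ∑ γ ∈ range (lr i), |∑ n ∈ range (lh (i + 1)),
      (∏ j, xs (n + m j)) * (∏ j, xs (n + γ * lH i + m' j) - ∏ j, xs (n + γ * lH i + 1 + m' j))| ≤
      ((d' * (2 * Real.sqrt (2 ^ (d' + 1))) + 4 * d * d' + 34 * (d + d') + 4) / 4 ^ i) *
        (lr i * lh (i + 1)) := by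
  have hQ : (0 : ℝ) < 4 ^ i := by positivity
  have h := tuple_est (I := Fin d) (I' := Fin d') (qq i) xs abs_xs_le (qq_coprime i)
    (4 ^ i + i + 1) (by positivity) (fun p => PP_le p.2) (by
      intro p
      have := PP_le p.2
      simp only [Fintype.card_fin]
      unfold qq
      have h4 : 0 < 4 ^ i := by positivity
      omega) (∑ p : PP i, (1 : ℝ) / qq i p) (by
        have := PP_sum i
        have h2 : ∑ p : PP i, (1 : ℝ) / qq i p = ∑ p ∈ PP i, (1 : ℝ) / p :=
          Finset.sum_coe_sort (PP i) (fun p : ℕ => (1 : ℝ) / p)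
        rw [h2]
        have h3 : (0 : ℝ) < 16 ^ i := by positivity
        linarith) rfl (lr i) (by
          unfold lr qq
          exact (Finset.prod_coe_sort (PP i) (fun p => p)).symm) (lh (i + 1)) (lH i)
    (lh_pos (i + 1)) (17 / 4 ^ i) (good_level i) m m'
  simp only [Fintype.card_fin] at h
  refine h.trans ?_
  apply mul_le_mul_of_nonneg_right _ (by positivity)
  have hlam : (16 : ℝ) ^ i ≤ ∑ p : PP i, (1 : ℝ) / qq i p := by
    have h2 : ∑ p : PP i, (1 : ℝ) / qq i p = ∑ p ∈ PP i, (1 : ℝ) / p :=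
      Finset.sum_coe_sort (PP i) (fun p : ℕ => (1 : ℝ) / p)
    rw [h2]
    exact PP_sum i
  set lam : ℝ := ∑ p : PP i, (1 : ℝ) / qq i p with hlamdef
  have e1 : 2 / Real.sqrt (lam / 2 ^ (d' + 1)) ≤ 2 * Real.sqrt (2 ^ (d' + 1)) / 4 ^ i := by
    have h16 : Real.sqrt ((16 : ℝ) ^ i / 2 ^ (d' + 1)) = 4 ^ i / Real.sqrt (2 ^ (d' + 1)) := by
      rw [Real.sqrt_div (by positivity)]
      congr 1
      rw [show (16 : ℝ) ^ i = (4 ^ i) ^ 2 by rw [← pow_mul, mul_comm, pow_mul]; norm_num]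
      exact Real.sqrt_sq (by positivity)
    have h17 : Real.sqrt ((16 : ℝ) ^ i / 2 ^ (d' + 1)) ≤ Real.sqrt (lam / 2 ^ (d' + 1)) := by
      apply Real.sqrt_le_sqrt
      exact div_le_div_of_nonneg_right hlam (by positivity)
    have h18 : 0 < Real.sqrt ((16 : ℝ) ^ i / 2 ^ (d' + 1)) := Real.sqrt_pos.2 (by positivity)
    calc 2 / Real.sqrt (lam / 2 ^ (d' + 1)) ≤ 2 / Real.sqrt ((16 : ℝ) ^ i / 2 ^ (d' + 1)) :=
          div_le_div_of_nonneg_left (by norm_num) h18 h17
      _ = 2 * Real.sqrt (2 ^ (d' + 1)) / 4 ^ i := by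
          rw [h16]
          have : Real.sqrt ((2 : ℝ) ^ (d' + 1)) ≠ 0 := (Real.sqrt_pos.2 (by positivity)).ne'
          field_simp
  have e2 : 4 * (d : ℝ) * d' / ((4 ^ i + i + 1 : ℕ) : ℝ) ≤ 4 * d * d' / 4 ^ i := by
    apply div_le_div_of_nonneg_left (by positivity) hQ
    push_cast
    have : (0 : ℝ) ≤ i := Nat.cast_nonneg _
    linarith
  have e3 : 4 * (lr i : ℝ) * lH i / lh (i + 1) ≤ 4 / 4 ^ i := by
    have hlh : (0 : ℝ) < lh (i + 1) := by exact_mod_cast lh_pos (i + 1)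
    rw [div_le_div_iff₀ hlh hQ]
    have hhs : ((lh (i + 1) : ℕ) : ℝ) = 4 ^ i * lr i * lH i + lh i := by
      rw [lh_succ]; unfold lL; push_cast; ring
    rw [hhs]
    have : (0 : ℝ) ≤ lh i := Nat.cast_nonneg _
    nlinarith
  have e4 : (d' : ℝ) * (2 / Real.sqrt (lam / 2 ^ (d' + 1))) ≤
      d' * (2 * Real.sqrt (2 ^ (d' + 1)) / 4 ^ i) :=
    mul_le_mul_of_nonneg_left e1 (Nat.cast_nonneg _)
  have e5 : ((d' : ℝ) * (2 * Real.sqrt (2 ^ (d' + 1))) + 4 * d * d' + 34 * (d + d') + 4) / 4 ^ i =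
      d' * (2 * Real.sqrt (2 ^ (d' + 1)) / 4 ^ i) + 4 * d * d' / 4 ^ i +
        2 * (d + d') * (17 / 4 ^ i) + 4 / 4 ^ i := by
    field_simp
    ring
  rw [e5]
  linarith

theorem dec_mono (b : ℕ → ℝ) (R : ℝ) (hR : 0 ≤ R) (hb : Rep b R) (d d' : ℕ)
    (τ : Fin d → ℕ) (τ' : Fin d' → ℕ) :
    Lam.Dec (fun n => ∏ j, b (n + τ j)) (fun n => ∏ j, b (n + τ' j)) := by
  set C : ℝ := d' * (2 * Real.sqrt (2 ^ (d' + 1))) + 4 * d * d' + 34 * (d + d') + 4 with hC
  have hC0 : 0 ≤ C := by positivity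
  have hbound : ∀ᶠ i in atTop, Lam.D i (fun n => ∏ j, b (n + τ j)) (fun n => ∏ j, b (n + τ' j)) ≤
      (R ^ (d + d') * C) * ((1 + i : ℝ) ^ (d + d') / 4 ^ i) := by
    filter_upwards [eventually_ge_atTop (d + d' + ∑ j, τ j + ∑ j, τ' j)] with i hi
    obtain ⟨k, c, μ, hc, hrep⟩ := hb (Wn i)
    have hW := Wn_ge i
    have hτ : ∀ j, τ j ≤ i := by
      intro j
      have : τ j ≤ ∑ j, τ j := Finset.single_le_sum (f := τ) (fun _ _ => Nat.zero_le _)
        (Finset.mem_univ j)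
      omega
    have hτ' : ∀ j, τ' j ≤ i := by
      intro j
      have : τ' j ≤ ∑ j, τ' j := Finset.single_le_sum (f := τ') (fun _ _ => Nat.zero_le _)
        (Finset.mem_univ j)
      omega
    have h1 := mono_est (d := d) (d' := d') xs b c μ (Wn i) hrep (lh (i + 1)) (lr i) (lH i) _
      (xs_est d d' i (by omega)) τ τ' (fun j => by have := hτ j; omega)
      (fun j => by have := hτ' j; omega)
    have hwi : 1 / wt (Wn i) ≤ 1 + i := by
      unfold wt
      rw [one_div_one_div]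
      have : ((wi (Wn i) : ℕ) : ℝ) ≤ i := by exact_mod_cast wi_le (le_refl (Wn i))
      linarith
    have hcs : ∑ m, |c m| ≤ R * (1 + i) := by
      refine hc.trans ?_
      rw [div_eq_mul_one_div]
      exact mul_le_mul_of_nonneg_left hwi hR
    have hcs0 : 0 ≤ ∑ m, |c m| := Finset.sum_nonneg (fun _ _ => abs_nonneg _)
    unfold Levels.D
    change (∑ γ ∈ range (lr i), |∑ n ∈ range (lh (i + 1)), (∏ j, b (n + τ j)) *
      ((∏ j, b (n + γ * lH i + τ' j)) - ∏ j, b (n + γ * lH i + 1 + τ' j))|) /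
      (lr i * lh (i + 1)) ≤ _
    have hpos : (0 : ℝ) < lr i * lh (i + 1) := by
      have h2 : (0 : ℝ) < lr i := by exact_mod_cast lr_pos i
      have h3 : (0 : ℝ) < lh (i + 1) := by exact_mod_cast lh_pos (i + 1)
      positivity
    rw [div_le_iff₀ hpos]
    refine h1.trans ?_
    rw [← hC, ← pow_add]
    have h4 : (∑ m, |c m|) ^ (d + d') ≤ (R * (1 + i)) ^ (d + d') :=
      pow_le_pow_left₀ hcs0 hcs _
    have h5 : 0 ≤ C / 4 ^ i * (lr i * lh (i + 1)) := by positivity
    calc (∑ m, |c m|) ^ (d + d') * (C / 4 ^ i * (lr i * lh (i + 1)))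
        ≤ (R * (1 + i)) ^ (d + d') * (C / 4 ^ i * (lr i * lh (i + 1))) :=
          mul_le_mul_of_nonneg_right h4 h5
      _ = _ := by
          rw [mul_pow]
          ring
  have hlim : Tendsto (fun i : ℕ => (R ^ (d + d') * C) * ((1 + i : ℝ) ^ (d + d') / 4 ^ i)) atTop
      (𝓝 0) := by
    rw [← mul_zero (R ^ (d + d') * C)]
    apply Tendsto.const_mul
    have h1 : Tendsto (fun n : ℕ => (n : ℝ) ^ (d + d') / (4 : ℝ) ^ n) atTop (𝓝 0) :=
      tendsto_pow_const_div_const_pow_of_one_lt (d + d') (by norm_num)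
    have h2 := (h1.comp (tendsto_add_atTop_nat 1)).const_mul 4
    rw [mul_zero] at h2
    refine h2.congr (fun n => ?_)
    simp only [Function.comp]
    push_cast
    rw [pow_succ (4 : ℝ) n, add_comm (n : ℝ) 1]
    field_simp
  unfold Levels.Dec
  apply squeeze_zero' (Eventually.of_forall (fun i => Lam.D_nonneg i _ _)) hbound hlim

/-- Main combinatorial statement: a bounded sequence represented by `xs` all of whose return sets
are IP* is constant. -/
theorem const_of_rep (b : ℕ → ℝ) (M R : ℝ) (hM : ∀ n, |b n| ≤ M) (hR : 0 ≤ R) (hb : Rep b R)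
    (hip : ∀ (K : ℕ) (ε : ℝ), 0 < ε → IsIPStar {n | ∀ j ≤ K, |b (n + j) - b j| < ε}) :
    ∀ n, b (n + 1) = b n :=
  const_of_ipstar Lam b M hM hip
    (fun _ hg _ hg' => dec_polyAlg Lam b (fun d d' τ τ' => dec_mono b R hR hb d d' τ τ') hg hg')

end Pool.Agent.MP_145b75_an
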