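import Pool.Agent.MP_145b75_an.Chen2

/-! The tuple estimate for a sequence with good levels (MP_145b75_an). -/

namespace Pool.Agent.MP_145b75_an

open Finset

section transfer

variable {ι : Type*} [Fintype ι] [DecidableEq ι] (q : ι → ℕ) [∀ i, NeZero (q i)]

/-- diagonal embedding of naturals. -/
def dg (u : ℕ) : Om q := fun i => (u : ZMod (q i))

theorem sum_range_zmod (r : ℕ) [NeZero r] (G : ZMod r → ℝ) :
    ∑ u ∈ range r, G (u : ZMod r) = ∑ z, G z := by
  apply Finset.sum_nbij' (fun u : ℕ => (u : ZMod r)) (fun z : ZMod r => z.val)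
  · intro u _
    exact Finset.mem_univ _
  · intro z _
    rw [mem_range]
    exact ZMod.val_lt z
  · intro u hu
    rw [mem_range] at hu
    exact ZMod.val_cast_of_lt hu
  · intro z _
    exact ZMod.natCast_zmod_val z
  · intro u _
    rfl

theorem sum_range_dg (hcop : Pairwise (Function.onFun Nat.Coprime q)) (F : Om q → ℝ) :
    ∑ u ∈ range (∏ i, q i), F (dg q u) = ∑ ω, F ω := by
  have : NeZero (∏ i, q i) := ⟨Finset.prod_ne_zero_iff.2 (fun i _ => NeZero.ne (q i))⟩
  have h1 : ∀ u : ℕ, dg q u = ZMod.prodEquivPi q hcop (u : ZMod (∏ i, q i)) := by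
    intro u
    rw [map_natCast]
    rfl
  simp_rw [h1]
  rw [sum_range_zmod (∏ i, q i) (fun z => F (ZMod.prodEquivPi q hcop z))]
  exact Fintype.sum_equiv (ZMod.prodEquivPi q hcop).toEquiv _ _ (fun _ => rfl)

theorem card_Om : ((Fintype.card (Om q) : ℕ) : ℝ) = ((∏ i, q i : ℕ) : ℝ) := by
  norm_cast
  simp [ZMod.card]

/-- divisor counting function. -/
def dc (l : ℕ) : ℤ := ∑ i, if q i ∣ l then (1 : ℤ) else 0

theorem cnt_dg (l : ℕ) : cnt q (dg q l) = dc q l := by
  unfold cnt dc dg
  apply Finset.sum_congr rfl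
  intro i _
  simp only [ZMod.natCast_eq_zero_iff]

theorem dg_add (l u : ℕ) : dg q l + dg q u = dg q (l + u) := by
  funext i
  simp [dg]

variable {I I' : Type*} [Fintype I] [Fintype I'] [DecidableEq I] [DecidableEq I']

theorem chen_nat (hcop : Pairwise (Function.onFun Nat.Coprime q))
    (l : I → ℕ) (l' : I' → ℕ) (F : (I → ℤ) → (I' → ℤ) → ℝ)
    (hF : ∀ x y, |F x y| ≤ 1) (Q₀ : ℕ) (hQ₀ : 0 < Q₀) (hqQ : ∀ i, Q₀ ≤ q i)
    (hq : ∀ i, Fintype.card I + Fintype.card I' < q i)
    (lam : ℝ) (hlam : 0 < lam) (hlam' : lam = ∑ i, (1 : ℝ) / q i) (r : ℕ) (hr : r = ∏ i, q i) :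
    ∑ c ∈ range r, |∑ u ∈ range r, (F (fun j => dc q (l j + u)) (fun j => dc q (l' j + c + u) - 1) -
        F (fun j => dc q (l j + u)) (fun j => dc q (l' j + c + u)))| ≤
      (Fintype.card I' * (2 / Real.sqrt (lam / 2 ^ (Fintype.card I' + 1))) +
        4 * Fintype.card I * Fintype.card I' / Q₀) * (r : ℝ) ^ 2 := by
  have h := chen_avg q (fun j => dg q (l j)) (fun j => dg q (l' j)) F hF Q₀ hQ₀ hqQ hq lam hlam hlam'
  rw [card_Om, ← hr] at h
  refine le_trans (le_of_eq ?_) h
  subst hr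
  rw [← sum_range_dg q hcop]
  apply Finset.sum_congr rfl
  intro c _
  rw [← sum_range_dg q hcop]
  congr 1
  apply Finset.sum_congr rfl
  intro u _
  have e1 : vec q (fun j => dg q (l j)) (dg q u) = fun j => dc q (l j + u) := by
    funext j
    simp only [vec]
    rw [dg_add, cnt_dg]
  have e2 : vec q (fun j => dg q (l' j)) (dg q c + dg q u) = fun j => dc q (l' j + c + u) := by
    funext j
    simp only [vec]
    rw [dg_add, dg_add, cnt_dg, add_assoc]
  rw [e1, e2]

end transfer

/-- Good positions of `x` with respect to the step `H`, the number `r` and the function `s`. -/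
def GoodAt (x : ℕ → ℝ) (r H : ℕ) (s : ℕ → ℤ) (m : ℕ) : Prop :=
  ∃ (l : ℕ) (f : ℤ → ℝ), (∀ t, |f t| ≤ 1) ∧
    ∀ u < 2 * r, x (m + u * H) = f (s (l + u)) ∧ x (m + u * H + 1) = f (s (l + u) - 1)

theorem abs_prod_le_one {J : Type*} [Fintype J] (f : J → ℝ) (hf : ∀ j, |f j| ≤ 1) :
    |∏ j, f j| ≤ 1 := by
  rw [Finset.abs_prod]
  exact Finset.prod_le_one (fun _ _ => abs_nonneg _) (fun j _ => hf j)

theorem sum_shift_le (Θ : ℕ → ℝ) (hΘ : ∀ n, |Θ n| ≤ 2) (N t : ℕ) :
    |∑ n ∈ range N, Θ n - ∑ n ∈ range N, Θ (n + t)| ≤ 4 * t := by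
  have h1 : ∑ n ∈ range N, Θ (n + t) + ∑ n ∈ range t, Θ n = ∑ n ∈ range N, Θ n +
      ∑ n ∈ range t, Θ (N + n) := by
    rw [← Finset.sum_range_add Θ N t, add_comm N t, Finset.sum_range_add Θ t N, add_comm]
    congr 1
    apply Finset.sum_congr rfl
    intro n _
    rw [add_comm]
  have h2 : |∑ n ∈ range t, Θ n| ≤ 2 * t := by
    refine (Finset.abs_sum_le_sum_abs _ _).trans ?_
    calc ∑ n ∈ range t, |Θ n| ≤ ∑ n ∈ range t, (2 : ℝ) := Finset.sum_le_sum (fun n _ => hΘ n)
      _ = 2 * t := by simp [mul_comm]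
  have h3 : |∑ n ∈ range t, Θ (N + n)| ≤ 2 * t := by
    refine (Finset.abs_sum_le_sum_abs _ _).trans ?_
    calc ∑ n ∈ range t, |Θ (N + n)| ≤ ∑ n ∈ range t, (2 : ℝ) :=
          Finset.sum_le_sum (fun n _ => hΘ _)
      _ = 2 * t := by simp [mul_comm]
  rw [abs_le] at *
  constructor <;> linarith

variable {ι : Type*} [Fintype ι] [DecidableEq ι] (q : ι → ℕ) [∀ i, NeZero (q i)]
variable {I I' : Type*} [Fintype I] [Fintype I'] [DecidableEq I] [DecidableEq I']

theorem tuple_est (x : ℕ → ℝ) (hx : ∀ n, |x n| ≤ 1)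
    (hcop : Pairwise (Function.onFun Nat.Coprime q))
    (Q₀ : ℕ) (hQ₀ : 0 < Q₀) (hqQ : ∀ i, Q₀ ≤ q i)
    (hq : ∀ i, Fintype.card I + Fintype.card I' < q i)
    (lam : ℝ) (hlam : 0 < lam) (hlam' : lam = ∑ i, (1 : ℝ) / q i) (r : ℕ) (hr : r = ∏ i, q i)
    (N H : ℕ) (hN : 0 < N) (δ : ℝ)
    (hgood : ∀ m₀ : ℕ, ∃ B : Finset ℕ, (B.card : ℝ) ≤ δ * N ∧
      ∀ n < N, n ∉ B → GoodAt x r H (dc q) (m₀ + n))
    (m : I → ℕ) (m' : I' → ℕ) :
    ∑ c ∈ range r, |∑ n ∈ range N, (∏ j, x (n + m j)) *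
      (∏ j, x (n + c * H + m' j) - ∏ j, x (n + c * H + 1 + m' j))| ≤
      ((Fintype.card I' * (2 / Real.sqrt (lam / 2 ^ (Fintype.card I' + 1))) +
        4 * Fintype.card I * Fintype.card I' / Q₀) +
        2 * (Fintype.card I + Fintype.card I') * δ + 4 * r * H / N) * (r * N) := by
  classical
  set η : ℝ := (Fintype.card I' * (2 / Real.sqrt (lam / 2 ^ (Fintype.card I' + 1))) +
        4 * Fintype.card I * Fintype.card I' / Q₀) with hη
  have hη0 : 0 ≤ η := by positivity
  have hNR : (0 : ℝ) < N := by exact_mod_cast hN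
  have hr0 : 0 < r := by
    rw [hr]
    exact Finset.prod_pos (fun i _ => Nat.pos_of_ne_zero (NeZero.ne (q i)))
  have hrR : (0 : ℝ) < r := by exact_mod_cast hr0
  let Θ : ℕ → ℕ → ℝ := fun c n => (∏ j, x (n + m j)) *
      (∏ j, x (n + c * H + m' j) - ∏ j, x (n + c * H + 1 + m' j))
  have hΘ : ∀ c n, |Θ c n| ≤ 2 := by
    intro c n
    simp only [Θ]
    rw [abs_mul]
    have h1 : |∏ j, x (n + m j)| ≤ 1 := abs_prod_le_one _ (fun j => hx _)
    have h2 : |∏ j, x (n + c * H + m' j) - ∏ j, x (n + c * H + 1 + m' j)| ≤ 2 := by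
      refine (abs_sub _ _).trans ?_
      have h3 : |∏ j, x (n + c * H + m' j)| ≤ 1 := abs_prod_le_one _ (fun j => hx _)
      have h4 : |∏ j, x (n + c * H + 1 + m' j)| ≤ 1 := abs_prod_le_one _ (fun j => hx _)
      linarith
    calc |∏ j, x (n + m j)| * |∏ j, x (n + c * H + m' j) - ∏ j, x (n + c * H + 1 + m' j)|
        ≤ 1 * 2 := mul_le_mul h1 h2 (abs_nonneg _) zero_le_one
      _ = 2 := by norm_num
  -- bad sets
  choose Bs hBcard hBgood using hgood
  let B : Finset ℕ := (univ.biUnion (fun j => Bs (m j))) ∪ (univ.biUnion (fun j => Bs (m' j)))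
  have hB : (B.card : ℝ) ≤ (Fintype.card I + Fintype.card I') * (δ * N) := by
    have h1 : (B.card : ℝ) ≤ ∑ j, ((Bs (m j)).card : ℝ) + ∑ j, ((Bs (m' j)).card : ℝ) := by
      have := (Finset.card_union_le (univ.biUnion (fun j => Bs (m j)))
        (univ.biUnion (fun j => Bs (m' j)))).trans
        (add_le_add (Finset.card_biUnion_le) (Finset.card_biUnion_le))
      exact_mod_cast this
    refine h1.trans ?_
    have h2 : ∑ j, ((Bs (m j)).card : ℝ) ≤ ∑ _j : I, δ * N :=
      Finset.sum_le_sum (fun j _ => hBcard _)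
    have h3 : ∑ j, ((Bs (m' j)).card : ℝ) ≤ ∑ _j : I', δ * N :=
      Finset.sum_le_sum (fun j _ => hBcard _)
    rw [Finset.sum_const, card_univ, nsmul_eq_mul] at h2 h3
    linarith
  -- main inner estimate
  have hinner : ∀ n < N, n ∉ B → ∑ c ∈ range r, |∑ u ∈ range r, Θ c (n + u * H)| ≤
      η * (r : ℝ) ^ 2 := by
    intro n hn hnB
    have g1 : ∀ j, GoodAt x r H (dc q) (m j + n) := by
      intro j
      apply hBgood _ n hn
      intro h
      apply hnB
      apply Finset.mem_union_left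
      rw [Finset.mem_biUnion]
      exact ⟨j, Finset.mem_univ _, h⟩
    have g2 : ∀ j, GoodAt x r H (dc q) (m' j + n) := by
      intro j
      apply hBgood _ n hn
      intro h
      apply hnB
      apply Finset.mem_union_right
      rw [Finset.mem_biUnion]
      exact ⟨j, Finset.mem_univ _, h⟩
    choose l f hf hlf using g1
    choose l' f' hf' hlf' using g2
    have hch := chen_nat q hcop l l' (fun X Y => (∏ j, f j (X j)) * (∏ j, f' j (Y j)))
      (by
        intro X Y
        rw [abs_mul]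
        have h3 : |∏ j, f j (X j)| ≤ 1 := abs_prod_le_one _ (fun j => hf j _)
        have h4 : |∏ j, f' j (Y j)| ≤ 1 := abs_prod_le_one _ (fun j => hf' j _)
        calc |∏ j, f j (X j)| * |∏ j, f' j (Y j)| ≤ 1 * 1 :=
              mul_le_mul h3 h4 (abs_nonneg _) zero_le_one
          _ = 1 := by norm_num) Q₀ hQ₀ hqQ hq lam hlam hlam' r hr
    rw [← hη] at hch
    refine le_trans (le_of_eq ?_) hch
    apply Finset.sum_congr rfl
    intro c hc
    rw [mem_range] at hc
    rw [← abs_neg, ← Finset.sum_neg_distrib]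
    congr 1
    apply Finset.sum_congr rfl
    intro u hu
    rw [mem_range] at hu
    have e1 : ∏ j, x (n + u * H + m j) = ∏ j, f j (dc q (l j + u)) := by
      apply Finset.prod_congr rfl
      intro j _
      rw [← (hlf j u (by omega)).1]
      congr 1
      ring
    have e2 : ∏ j, x (n + u * H + c * H + m' j) = ∏ j, f' j (dc q (l' j + c + u)) := by
      apply Finset.prod_congr rfl
      intro j _
      have := (hlf' j (c + u) (by omega)).1
      rw [← add_assoc] at this
      rw [← this]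
      congr 1
      ring
    have e3 : ∏ j, x (n + u * H + c * H + 1 + m' j) =
        ∏ j, f' j (dc q (l' j + c + u) - 1) := by
      apply Finset.prod_congr rfl
      intro j _
      have := (hlf' j (c + u) (by omega)).2
      rw [← add_assoc] at this
      rw [← this]
      congr 1
      ring
    simp only [Θ]
    rw [e1, e2, e3]
    ring
  have hbadn : ∀ n, ∑ c ∈ range r, |∑ u ∈ range r, Θ c (n + u * H)| ≤ 2 * (r : ℝ) ^ 2 := by
    intro n
    calc ∑ c ∈ range r, |∑ u ∈ range r, Θ c (n + u * H)|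
        ≤ ∑ c ∈ range r, ∑ u ∈ range r, (2 : ℝ) := by
          apply Finset.sum_le_sum
          intro c _
          exact (Finset.abs_sum_le_sum_abs _ _).trans (Finset.sum_le_sum (fun u _ => hΘ _ _))
      _ = 2 * (r : ℝ) ^ 2 := by
          simp only [sum_const, card_range, nsmul_eq_mul]
          ring
  have hdouble : ∑ n ∈ range N, ∑ c ∈ range r, |∑ u ∈ range r, Θ c (n + u * H)| ≤
      N * (η * (r : ℝ) ^ 2) + (Fintype.card I + Fintype.card I') * (δ * N) * (2 * (r : ℝ) ^ 2) := by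
    calc ∑ n ∈ range N, ∑ c ∈ range r, |∑ u ∈ range r, Θ c (n + u * H)|
        ≤ ∑ n ∈ range N, (η * (r : ℝ) ^ 2 + if n ∈ B then 2 * (r : ℝ) ^ 2 else 0) := by
          apply Finset.sum_le_sum
          intro n hn
          rw [mem_range] at hn
          split_ifs with h
          · have := hbadn n
            have h0 : 0 ≤ η * (r : ℝ) ^ 2 := by positivity
            linarith
          · rw [add_zero]
            exact hinner n hn h
      _ = N * (η * (r : ℝ) ^ 2) + ∑ n ∈ range N, (if n ∈ B then 2 * (r : ℝ) ^ 2 else 0) := by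
          rw [Finset.sum_add_distrib, Finset.sum_const, card_range, nsmul_eq_mul]
      _ ≤ N * (η * (r : ℝ) ^ 2) + (Fintype.card I + Fintype.card I') * (δ * N) *
            (2 * (r : ℝ) ^ 2) := by
          have h1 : ∑ n ∈ range N, (if n ∈ B then 2 * (r : ℝ) ^ 2 else 0) ≤
              B.card * (2 * (r : ℝ) ^ 2) := by
            rw [← Finset.sum_filter, Finset.sum_const, nsmul_eq_mul]
            apply mul_le_mul_of_nonneg_right _ (by positivity)
            have : ((range N).filter (fun n => n ∈ B)).card ≤ B.card := by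
              apply Finset.card_le_card
              intro n hn
              exact (Finset.mem_filter.1 hn).2
            exact_mod_cast this
          have h2 : (B.card : ℝ) * (2 * (r : ℝ) ^ 2) ≤
              (Fintype.card I + Fintype.card I') * (δ * N) * (2 * (r : ℝ) ^ 2) :=
            mul_le_mul_of_nonneg_right hB (by positivity)
          linarith
  -- shift averaging
  have hshift : ∀ c, |∑ n ∈ range N, Θ c n| ≤
      (1 / r) * ∑ n ∈ range N, |∑ u ∈ range r, Θ c (n + u * H)| + 4 * (r * H) := by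
    intro c
    have h1 : ∀ u ∈ range r, |∑ n ∈ range N, Θ c n| ≤
        |∑ n ∈ range N, Θ c n| := fun _ _ => le_rfl
    have h2 : |(r : ℝ) * ∑ n ∈ range N, Θ c n -
        ∑ u ∈ range r, ∑ n ∈ range N, Θ c (n + u * H)| ≤ r * (4 * (r * H)) := by
      have h3 : (r : ℝ) * ∑ n ∈ range N, Θ c n -
          ∑ u ∈ range r, ∑ n ∈ range N, Θ c (n + u * H) =
          ∑ u ∈ range r, (∑ n ∈ range N, Θ c n - ∑ n ∈ range N, Θ c (n + u * H)) := by
        rw [Finset.sum_sub_distrib, Finset.sum_const, card_range, nsmul_eq_mul]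
      rw [h3]
      refine (Finset.abs_sum_le_sum_abs _ _).trans ?_
      calc ∑ u ∈ range r, |∑ n ∈ range N, Θ c n - ∑ n ∈ range N, Θ c (n + u * H)|
          ≤ ∑ u ∈ range r, (4 * ((r : ℝ) * H)) := by
            apply Finset.sum_le_sum
            intro u hu
            rw [mem_range] at hu
            refine (sum_shift_le (Θ c) (hΘ c) N (u * H)).trans ?_
            have : ((u * H : ℕ) : ℝ) ≤ r * H := by
              push_cast
              apply mul_le_mul_of_nonneg_right _ (Nat.cast_nonneg _)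
              exact_mod_cast hu.le
            linarith
        _ = r * (4 * (r * H)) := by
            rw [Finset.sum_const, card_range, nsmul_eq_mul]
    have h4 : |∑ u ∈ range r, ∑ n ∈ range N, Θ c (n + u * H)| ≤
        ∑ n ∈ range N, |∑ u ∈ range r, Θ c (n + u * H)| := by
      rw [Finset.sum_comm]
      exact Finset.abs_sum_le_sum_abs _ _
    have h5 : (r : ℝ) * |∑ n ∈ range N, Θ c n| ≤
        ∑ n ∈ range N, |∑ u ∈ range r, Θ c (n + u * H)| + r * (4 * (r * H)) := by
      have h6 : (r : ℝ) * |∑ n ∈ range N, Θ c n| = |(r : ℝ) * ∑ n ∈ range N, Θ c n| := by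
        rw [abs_mul, abs_of_pos hrR]
      rw [h6]
      have h7 := abs_sub_abs_le_abs_sub ((r : ℝ) * ∑ n ∈ range N, Θ c n)
        (∑ u ∈ range r, ∑ n ∈ range N, Θ c (n + u * H))
      linarith
    have h8 : |∑ n ∈ range N, Θ c n| ≤
        (∑ n ∈ range N, |∑ u ∈ range r, Θ c (n + u * H)| + r * (4 * (r * H))) / r := by
      rw [le_div_iff₀ hrR, mul_comm]
      exact h5
    refine h8.trans (le_of_eq ?_)
    field_simp
  calc ∑ c ∈ range r, |∑ n ∈ range N, Θ c n|
      ≤ ∑ c ∈ range r, ((1 / r) * ∑ n ∈ range N, |∑ u ∈ range r, Θ c (n + u * H)| +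
          4 * (r * H)) := Finset.sum_le_sum (fun c _ => hshift c)
    _ = (1 / r) * ∑ n ∈ range N, ∑ c ∈ range r, |∑ u ∈ range r, Θ c (n + u * H)| +
          r * (4 * (r * H)) := by
        rw [Finset.sum_add_distrib, ← Finset.mul_sum, Finset.sum_comm, Finset.sum_const,
          card_range, nsmul_eq_mul]
    _ ≤ (1 / r) * (N * (η * (r : ℝ) ^ 2) +
          (Fintype.card I + Fintype.card I') * (δ * N) * (2 * (r : ℝ) ^ 2)) +
          r * (4 * (r * H)) := by
        have := mul_le_mul_of_nonneg_left hdouble (by positivity : (0 : ℝ) ≤ 1 / r)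
        linarith
    _ = (η + 2 * (Fintype.card I + Fintype.card I') * δ + 4 * r * H / N) * (r * N) := by
        field_simp

end Pool.Agent.MP_145b75_an
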