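import Pool.Agent.MP_145b75_an.Words
import Pool.Agent.MP_145b75_an.Tuple

/-! The uniformly recurrent 0-1 sequence for MP_145b75_an. -/

namespace Pool.Agent.MP_145b75_an

open Finset

theorem exists_primes (K : ℕ) (Λ : ℝ) :
    ∃ P : Finset ℕ, (∀ p ∈ P, p.Prime ∧ K ≤ p) ∧ Λ ≤ ∑ p ∈ P, (1 : ℝ) / p := by
  classical
  by_contra hcon
  push Not at hcon
  apply not_summable_one_div_on_primes
  apply summable_of_sum_range_le (c := K + Λ)
  · intro n
    apply Set.indicator_nonneg
    intro n _
    positivity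
  · intro n
    have h1 : ∀ k, (Set.indicator {p | Nat.Prime p} (fun n : ℕ => (1 : ℝ) / n)) k ≤
        (if k < K then 1 else 0) + (if k.Prime ∧ K ≤ k then (1 : ℝ) / k else 0) := by
      intro k
      by_cases hk : k.Prime
      · rw [Set.indicator_of_mem (by exact hk)]
        by_cases hkK : K ≤ k
        · rw [if_neg (not_lt.2 hkK), if_pos ⟨hk, hkK⟩, zero_add]
        · rw [if_pos (not_le.1 hkK), if_neg (fun h => hkK h.2), add_zero]
          rw [div_le_one (by exact_mod_cast hk.pos)]
          exact_mod_cast hk.one_lt.le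
      · rw [Set.indicator_of_notMem (by exact hk)]
        positivity
    refine (Finset.sum_le_sum (fun k _ => h1 k)).trans ?_
    rw [Finset.sum_add_distrib]
    apply add_le_add
    · rw [← Finset.sum_filter, Finset.sum_const, nsmul_eq_mul, mul_one]
      have : ((range n).filter (fun k => k < K)).card ≤ K := by
        calc ((range n).filter (fun k => k < K)).card ≤ (range K).card := by
              apply Finset.card_le_card
              intro k hk
              rw [mem_range]
              exact (Finset.mem_filter.1 hk).2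
          _ = K := card_range K
      exact_mod_cast this
    · rw [← Finset.sum_filter]
      exact (hcon _ (fun p hp => (Finset.mem_filter.1 hp).2)).le

/-- primes used at level `i`. -/
noncomputable def PP (i : ℕ) : Finset ℕ :=
  Classical.choose (exists_primes (4 ^ i + i + 1) (16 ^ i))

theorem PP_prime {i p : ℕ} (hp : p ∈ PP i) : p.Prime :=
  ((Classical.choose_spec (exists_primes (4 ^ i + i + 1) (16 ^ i))).1 p hp).1

theorem PP_le {i p : ℕ} (hp : p ∈ PP i) : 4 ^ i + i + 1 ≤ p :=
  ((Classical.choose_spec (exists_primes (4 ^ i + i + 1) (16 ^ i))).1 p hp).2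

theorem PP_sum (i : ℕ) : (16 : ℝ) ^ i ≤ ∑ p ∈ PP i, (1 : ℝ) / p :=
  (Classical.choose_spec (exists_primes (4 ^ i + i + 1) (16 ^ i))).2

/-- number of primes -/
noncomputable def la (i : ℕ) : ℕ := (PP i).card

theorem la_pos (i : ℕ) : 0 < la i := by
  unfold la
  rw [Finset.card_pos]
  by_contra h
  rw [Finset.not_nonempty_iff_eq_empty] at h
  have := PP_sum i
  rw [h, Finset.sum_empty] at this
  have h2 : (0 : ℝ) < 16 ^ i := by positivity
  linarith

/-- product of the primes -/
noncomputable def lr (i : ℕ) : ℕ := ∏ p ∈ PP i, p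

theorem lr_pos (i : ℕ) : 0 < lr i := Finset.prod_pos (fun _ hp => (PP_prime hp).pos)

/-- spacer function -/
noncomputable def ls (i : ℕ) (l : ℕ) : ℕ := ((PP i).filter (fun p => p ∣ l)).card

theorem ls_le (i l : ℕ) : ls i l ≤ la i := Finset.card_filter_le _ _

/-- number of repetitions -/
noncomputable def lM (i : ℕ) : ℕ := la i * 4 ^ i

/-- number of slots -/
noncomputable def lL (i : ℕ) : ℕ := 4 ^ i * lr i

/-- the words -/
noncomputable def Bw : ℕ → List Bool
  | 0 => [false]
  | i + 1 => tile (Bw i) (allbits (la i) (lM i) (lL i) (ls i))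

/-- length of the words -/
noncomputable def lh (i : ℕ) : ℕ := (Bw i).length

/-- slot length -/
noncomputable def lH (i : ℕ) : ℕ := slotLen (lh i) (la i) (lM i)

theorem lh_succ (i : ℕ) : lh (i + 1) = lL i * lH i + lh i := by
  unfold lH lh
  exact length_tile (Bw i) (la i) (lM i) (lL i) (ls i) (ls_le i)

theorem lh_pos (i : ℕ) : 0 < lh i := by
  induction i with
  | zero => simp [lh, Bw]
  | succ i ih => rw [lh_succ]; omega

theorem lM_pos (i : ℕ) : 0 < lM i := Nat.mul_pos (la_pos i) (by positivity)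

theorem lL_pos (i : ℕ) : 0 < lL i := Nat.mul_pos (by positivity) (lr_pos i)

theorem lH_pos (i : ℕ) : 0 < lH i := by
  unfold lH slotLen
  have := Nat.mul_pos (lM_pos i) (lh_pos i)
  omega

theorem lh_lt_succ (i : ℕ) : lh i < lh (i + 1) := by
  rw [lh_succ]
  have := Nat.mul_pos (lL_pos i) (lH_pos i)
  omega

theorem lh_strictMono : StrictMono lh := strictMono_nat_of_lt_succ lh_lt_succ

theorem lt_lh (i : ℕ) : i < lh i := by
  induction i with
  | zero => exact lh_pos 0
  | succ i ih => have := lh_lt_succ i; omega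

theorem cov_Bw {i j : ℕ} (hij : i ≤ j) : Cov (Bw i) (Bw j) := by
  induction j, hij using Nat.le_induction with
  | base => exact Cov.refl _
  | succ j _ ih => exact ih.tile _

/-- the boolean sequence -/
noncomputable def xb (n : ℕ) : Bool := (Bw n).getD n false

theorem Bw_getD {i j n : ℕ} (hij : i ≤ j) (hn : n < lh i) :
    (Bw j).getD n false = (Bw i).getD n false := by
  have := (cov_Bw hij).start.2 n hn
  rw [zero_add] at this
  exact this

theorem xb_eq {i n : ℕ} (hn : n < lh i) : xb n = (Bw i).getD n false := by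
  unfold xb
  rcases le_total i n with h | h
  · exact Bw_getD h hn
  · exact (Bw_getD h (lt_lh n)).symm

/-- occurrences in the sequence -/
def OccX (i t : ℕ) : Prop := ∀ k < lh i, xb (t + k) = (Bw i).getD k false

theorem occX_of_occ {i j t : ℕ} (h : Occ (Bw i) (Bw j) t) : OccX i t := by
  intro k hk
  rw [← h.2 k hk]
  apply xb_eq
  have := h.1
  unfold lh at hk ⊢
  omega

theorem tiling (i n : ℕ) : ∃ t, t ≤ n ∧ n ≤ t + lh i ∧ OccX i t ∧
    (OccX i (t + lh i) ∨ OccX i (t + lh i + 1)) := by
  set j : ℕ := i + n + lh i with hj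
  have hlen : n + lh i < lh j := by
    have := lt_lh j
    omega
  obtain ⟨t, h1, h2, h3, h4⟩ := (cov_Bw (show i ≤ j by omega)).cover n
    (by change n < lh j; omega)
  refine ⟨t, h1, h2, occX_of_occ h3, ?_⟩
  rcases h4 with h | h | h
  · exfalso
    change t + lh i = lh j at h
    omega
  · left
    exact occX_of_occ h
  · right
    exact occX_of_occ h

/-- the real sequence -/
noncomputable def xs (n : ℕ) : ℝ := if xb n then 1 else 0

theorem abs_xs_le (n : ℕ) : |xs n| ≤ 1 := by
  unfold xs
  split_ifs <;> simp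

/-- the moduli at level `i` -/
def qq (i : ℕ) : (PP i) → ℕ := fun p => (p : ℕ)

instance (i : ℕ) (p : PP i) : NeZero (qq i p) := ⟨(PP_prime p.2).ne_zero⟩

theorem dc_qq (i l : ℕ) : dc (qq i) l = (ls i l : ℤ) := by
  unfold dc qq ls
  rw [Finset.card_filter]
  push_cast
  exact Finset.sum_coe_sort (PP i) (fun p => if p ∣ l then (1 : ℤ) else 0)

theorem good_pos (i t l y : ℕ) (ht : OccX (i + 1) t) (hl : l + 2 * lr i ≤ lL i)
    (hy1 : la i * (lh i + 1) ≤ y) (hy2 : y + 1 < lM i * lh i) :
    GoodAt xs (lr i) (lH i) (dc (qq i)) (t + (l * lH i + y)) := by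
  refine ⟨l, fun τ => if (Bw i).getD (((y : ℤ) - τ) % lh i).toNat false then 1 else 0, ?_, ?_⟩
  · intro τ
    dsimp only
    split_ifs <;> simp
  · intro u hu
    have hlu : l + u < lL i := by omega
    have key : ∀ z, la i * (lh i + 1) ≤ z → z < lM i * lh i →
        xb (t + ((l + u) * lH i + z)) =
          (Bw i).getD (((z : ℤ) - (ls i (l + u) : ℤ)) % lh i).toNat false := by
      intro z hz1 hz2
      have hzH : z < lH i := by
        unfold lH slotLen
        omega
      have hlt : (l + u) * lH i + z < lh (i + 1) := by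
        rw [lh_succ]
        calc (l + u) * lH i + z < (l + u) * lH i + lH i := by omega
          _ = (l + u + 1) * lH i := by ring
          _ ≤ lL i * lH i := Nat.mul_le_mul_right _ hlu
          _ ≤ lL i * lH i + lh i := Nat.le_add_right _ _
      rw [ht _ hlt]
      exact getD_tile (Bw i) (lh_pos i) (la i) (lM i) (lL i) (ls i) (ls_le i) (l + u) z hlu
        hz1 hz2
    constructor
    · unfold xs
      have e : t + (l * lH i + y) + u * lH i = t + ((l + u) * lH i + y) := by ring
      rw [e, key y hy1 (by omega), dc_qq]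
    · unfold xs
      have e : t + (l * lH i + y) + u * lH i + 1 = t + ((l + u) * lH i + (y + 1)) := by ring
      rw [e, key (y + 1) (by omega) hy2, dc_qq]
      have e2 : (((y + 1 : ℕ) : ℤ) - (ls i (l + u) : ℤ)) =
          ((y : ℤ) - ((ls i (l + u) : ℤ) - 1)) := by push_cast; ring
      rw [e2]

/-- bad offsets inside a word of level `i+1`. -/
noncomputable def badOff (i : ℕ) : Finset ℕ :=
  (Finset.Ico (lL i * lH i) (lL i * lH i + lh i)) ∪
  (Finset.Ico ((lL i - 2 * lr i) * lH i) ((lL i - 2 * lr i) * lH i + 2 * lr i * lH i)) ∪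
  ((range (lL i)) ×ˢ ((range (la i * (lh i + 1))) ∪
    (Finset.Ico (lM i * lh i - 1) (lM i * lh i - 1 + (la i * (lh i + 1) + 1))))).image
    (fun p => p.1 * lH i + p.2)

theorem badOff_card (i : ℕ) : (badOff i).card ≤ lh i + 2 * lr i * lH i +
    lL i * (2 * (la i * (lh i + 1)) + 1) := by
  unfold badOff
  refine (Finset.card_union_le _ _).trans ?_
  apply add_le_add
  · refine (Finset.card_union_le _ _).trans ?_
    rw [Nat.card_Ico, Nat.card_Ico]
    omega
  · refine Finset.card_image_le.trans ?_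
    rw [Finset.card_product, card_range]
    apply Nat.mul_le_mul_left
    refine (Finset.card_union_le _ _).trans ?_
    rw [card_range, Nat.card_Ico]
    omega

theorem good_off (i k : ℕ) (hk : k < lh (i + 1)) (hbad : k ∉ badOff i) :
    ∃ l y, k = l * lH i + y ∧ l + 2 * lr i ≤ lL i ∧ la i * (lh i + 1) ≤ y ∧
      y + 1 < lM i * lh i := by
  have hHpos := lH_pos i
  unfold badOff at hbad
  simp only [Finset.mem_union, Finset.mem_Ico, Finset.mem_image, Finset.mem_product,
    Finset.mem_range, not_or, not_and, not_exists, Prod.forall] at hbad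
  obtain ⟨⟨h1, h2⟩, h3⟩ := hbad
  rw [lh_succ] at hk
  have hkL : k < lL i * lH i := by
    by_contra h
    exact absurd hk (h1 (not_lt.1 h))
  have hdm := Nat.div_add_mod k (lH i)
  have hmod := Nat.mod_lt k hHpos
  have hdiv : k / lH i < lL i := Nat.div_lt_of_lt_mul (by rw [mul_comm]; exact hkL)
  have hdecomp : k = (k / lH i) * lH i + k % lH i := by rw [mul_comm]; exact hdm.symm
  generalize k / lH i = l₀ at hdecomp hdiv hdm
  generalize k % lH i = y₀ at hdecomp hmod hdm
  have h3' : ¬ (y₀ < la i * (lh i + 1) ∨ lM i * lh i - 1 ≤ y₀ ∧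
      y₀ < lM i * lh i - 1 + (la i * (lh i + 1) + 1)) := by
    intro h
    exact h3 l₀ y₀ ⟨hdiv, h⟩ hdecomp.symm
  have hHdef : lH i = la i * (lh i + 1) + lM i * lh i := rfl
  have hMh : 0 < lM i * lh i := Nat.mul_pos (lM_pos i) (lh_pos i)
  refine ⟨l₀, y₀, hdecomp, ?_, ?_, ?_⟩
  · by_contra h
    have h4 : lL i - 2 * lr i ≤ l₀ := by omega
    have h5 : (lL i - 2 * lr i) * lH i ≤ k := by
      calc (lL i - 2 * lr i) * lH i ≤ l₀ * lH i := Nat.mul_le_mul_right _ h4
        _ ≤ k := by omega
    have h6 := h2 h5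
    apply h6
    calc k < lL i * lH i := hkL
      _ ≤ (lL i - 2 * lr i + 2 * lr i) * lH i := Nat.mul_le_mul_right _ (by omega)
      _ = _ := by ring
  · by_contra h
    exact h3' (Or.inl (by omega))
  · by_contra h
    apply h3'
    right
    omega

theorem good_level (i m₀ : ℕ) : ∃ B : Finset ℕ,
    (B.card : ℝ) ≤ (17 / 4 ^ i) * (lh (i + 1) : ℕ) ∧
      ∀ n < lh (i + 1), n ∉ B → GoodAt xs (lr i) (lH i) (dc (qq i)) (m₀ + n) := by
  classical
  obtain ⟨t₁, h1, h2, h3, h4⟩ := tiling (i + 1) m₀
  obtain ⟨t₂, h5, h6, h7⟩ : ∃ t₂, t₁ + lh (i + 1) ≤ t₂ ∧ t₂ ≤ t₁ + lh (i + 1) + 1 ∧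
      OccX (i + 1) t₂ := by
    rcases h4 with h | h
    · exact ⟨_, le_rfl, by omega, h⟩
    · exact ⟨_, by omega, le_rfl, h⟩
  refine ⟨(badOff i).image (fun k => t₁ + k - m₀) ∪ (badOff i).image (fun k => t₂ + k - m₀) ∪
    {t₁ + lh (i + 1) - m₀}, ?_, ?_⟩
  · have hc1 : ((badOff i).image (fun k => t₁ + k - m₀) ∪
        (badOff i).image (fun k => t₂ + k - m₀) ∪ {t₁ + lh (i + 1) - m₀}).card ≤
        2 * (badOff i).card + 1 := by
      refine (Finset.card_union_le _ _).trans ?_
      rw [Finset.card_singleton]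
      have := (Finset.card_union_le ((badOff i).image (fun k => t₁ + k - m₀))
        ((badOff i).image (fun k => t₂ + k - m₀)))
      have e1 := Finset.card_image_le (s := badOff i) (f := fun k => t₁ + k - m₀)
      have e2 := Finset.card_image_le (s := badOff i) (f := fun k => t₂ + k - m₀)
      omega
    have hc2 := badOff_card i
    have hc3 : ((2 * (badOff i).card + 1 : ℕ) : ℝ) ≤ 2 * ((lh i : ℝ) + 2 * lr i * lH i +
        lL i * (2 * (la i * (lh i + 1)) + 1)) + 1 := by
      have : ((badOff i).card : ℝ) ≤ (lh i : ℝ) + 2 * lr i * lH i +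
        lL i * (2 * (la i * (lh i + 1)) + 1) := by exact_mod_cast hc2
      push_cast
      linarith
    refine le_trans (by exact_mod_cast hc1) (hc3.trans ?_)
    -- numeric estimates
    have hh1 : (1 : ℝ) ≤ lh i := by exact_mod_cast lh_pos i
    have ha1 : (1 : ℝ) ≤ la i := by exact_mod_cast la_pos i
    have hr1 : (1 : ℝ) ≤ lr i := by exact_mod_cast lr_pos i
    have hQ : (0 : ℝ) < 4 ^ i := by positivity
    have hQ1 : (1 : ℝ) ≤ 4 ^ i := one_le_pow₀ (by norm_num)
    have hLdef : (lL i : ℝ) = 4 ^ i * lr i := by unfold lL; push_cast; ring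
    have hMdef : (lM i : ℝ) = la i * 4 ^ i := by unfold lM; push_cast; ring
    have hHdef : (lH i : ℝ) = la i * (lh i + 1) + lM i * lh i := by
      unfold lH slotLen; push_cast; ring
    have hhs : ((lh (i + 1) : ℕ) : ℝ) = lL i * lH i + lh i := by
      rw [lh_succ]; push_cast; ring
    have hHge : (la i : ℝ) * lh i * 4 ^ i ≤ lH i := by
      rw [hHdef, hMdef]
      have : (0 : ℝ) ≤ la i * (lh i + 1) := by positivity
      nlinarith
    have hHge2 : (lh i : ℝ) ≤ lH i := by
      refine le_trans ?_ hHge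
      have : (1 : ℝ) ≤ la i * 4 ^ i := by nlinarith
      nlinarith
    have hH1 : (1 : ℝ) ≤ lH i := hh1.trans hHge2
    set X : ℝ := lr i * lH i with hX
    have hXpos : 0 < X := by positivity
    have hN : 4 ^ i * X ≤ ((lh (i + 1) : ℕ) : ℝ) := by
      rw [hhs, hLdef, hX]
      have : (0 : ℝ) ≤ lh i := by linarith
      nlinarith
    have hb1 : (lh i : ℝ) ≤ X := by
      rw [hX]
      nlinarith
    have hb2 : (1 : ℝ) ≤ X := hh1.trans hb1
    have hb3 : (lL i : ℝ) * (2 * (la i * (lh i + 1)) + 1) ≤ 5 * X := by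
      rw [hLdef, hX]
      have e1 : (2 * ((la i : ℝ) * (lh i + 1)) + 1) ≤ 5 * (la i * lh i) := by nlinarith
      have e2 : (4 : ℝ) ^ i * lr i * (2 * ((la i : ℝ) * (lh i + 1)) + 1) ≤
          4 ^ i * lr i * (5 * (la i * lh i)) := mul_le_mul_of_nonneg_left e1 (by positivity)
      refine e2.trans ?_
      have e3 : (4 : ℝ) ^ i * lr i * (5 * (la i * lh i)) = 5 * (lr i * (la i * lh i * 4 ^ i)) := by
        ring
      rw [e3]
      have e4 : (lr i : ℝ) * (la i * lh i * 4 ^ i) ≤ lr i * lH i :=
        mul_le_mul_of_nonneg_left hHge (by positivity)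
      linarith
    have htot : 2 * ((lh i : ℝ) + 2 * lr i * lH i +
        lL i * (2 * (la i * (lh i + 1)) + 1)) + 1 ≤ 17 * X := by
      have : (2 : ℝ) * lr i * lH i = 2 * X := by rw [hX]; ring
      rw [this]
      linarith
    refine htot.trans ?_
    rw [div_mul_eq_mul_div, le_div_iff₀ hQ]
    nlinarith
  · intro n hn hnB
    simp only [Finset.mem_union, Finset.mem_image, Finset.mem_singleton, not_or, not_exists,
      not_and] at hnB
    obtain ⟨⟨hb1, hb2⟩, hb3⟩ := hnB
    rcases lt_trichotomy (m₀ + n) (t₁ + lh (i + 1)) with hlt | heq | hgt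
    · have hk : m₀ + n - t₁ < lh (i + 1) := by omega
      have hkb : m₀ + n - t₁ ∉ badOff i := by
        intro h
        exact hb1 _ h (by omega)
      obtain ⟨l, y, e, hl, hy1, hy2⟩ := good_off i _ hk hkb
      have e2 : m₀ + n = t₁ + (l * lH i + y) := by omega
      rw [e2]
      exact good_pos i t₁ l y h3 hl hy1 hy2
    · exfalso
      apply hb3
      omega
    · have hk : m₀ + n - t₂ < lh (i + 1) := by omega
      have hkb : m₀ + n - t₂ ∉ badOff i := by
        intro h
        exact hb2 _ h (by omega)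
      obtain ⟨l, y, e, hl, hy1, hy2⟩ := good_off i _ hk hkb
      have e2 : m₀ + n = t₂ + (l * lH i + y) := by omega
      rw [e2]
      exact good_pos i t₂ l y h7 hl hy1 hy2

end Pool.Agent.MP_145b75_an
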