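import Pool.Agent.MP_145b75_an.Mono

/-! The Banach space and the operator for MP_145b75_an. -/

namespace Pool.Agent.MP_145b75_an

open Finset Filter Topology

theorem IsIPSet.mono {A B : Set ℕ} (h : IsIPSet A) (hAB : A ⊆ B) : IsIPSet B := by
  obtain ⟨n, hn, hF⟩ := h
  exact ⟨n, hn, fun F hF' => hAB (hF F hF')⟩

theorem IsIPStar.mono {A B : Set ℕ} (h : IsIPStar A) (hAB : A ⊆ B) : IsIPStar B := by
  intro C hC
  obtain ⟨n, hn1, hn2⟩ := h C hC
  exact ⟨n, hAB hn1, hn2⟩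

theorem IsSyndetic.mono {A B : Set ℕ} (h : IsSyndetic A) (hAB : A ⊆ B) : IsSyndetic B := by
  obtain ⟨L, hL⟩ := h
  refine ⟨L, fun n => ?_⟩
  obtain ⟨m, hm, h1, h2⟩ := hL n
  exact ⟨m, hAB hm, h1, h2⟩

/-- Every Delta* set is IP*. -/
theorem IsDeltaStar.isIPStar {A : Set ℕ} (hA : IsDeltaStar A) : IsIPStar A := by
  intro B hB
  obtain ⟨n, hn, hF⟩ := hB
  let s : ℕ → ℕ := fun k => ∑ j ∈ range k, n j
  have hs : StrictMono s := by
    apply strictMono_nat_of_lt_succ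
    intro k
    simp only [s]
    rw [Finset.sum_range_succ]
    have := hn k
    omega
  obtain ⟨d, hd1, a, ⟨i, rfl⟩, b, ⟨j, rfl⟩, hab, rfl⟩ := hA
    {d | ∃ a ∈ Set.range s, ∃ b ∈ Set.range s, a < b ∧ d = b - a}
    ⟨Set.range s, Set.infinite_range_of_injective hs.injective, rfl⟩
  refine ⟨_, hd1, ?_⟩
  have hij : i < j := hs.lt_iff_lt.1 hab
  have : s j - s i = ∑ k ∈ Finset.Ico i j, n k := by
    simp only [s]
    rw [← Finset.sum_range_add_sum_Ico n hij.le]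
    omega
  rw [this]
  apply hF
  exact Finset.nonempty_Ico.2 hij

theorem IsDeltaStarRecurrent.isIPStarRecurrent {X : Type*} [TopologicalSpace X] {T : X → X}
    {x : X} (h : IsDeltaStarRecurrent T x) : IsIPStarRecurrent T x :=
  fun U hU => (h U hU).isIPStar

variable (𝕜 : Type) [RCLike 𝕜]

/-- The index set of functionals: a window length `W` and a function on `ℕ` bounded by `wt W`
which depends only on the word of length `W` of the sequence starting at the given place. -/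
def FI : Type := {p : ℕ × (ℕ → 𝕜) // (∀ n, ‖p.2 n‖ ≤ wt p.1) ∧
  ∀ n n', (∀ k < p.1, xb (n + k) = xb (n' + k)) → p.2 n = p.2 n'}

instance : TopologicalSpace (FI 𝕜) := ⊥

instance : DiscreteTopology (FI 𝕜) := ⟨rfl⟩

variable {𝕜}

/-- shift of a functional -/
noncomputable def sg (p : FI 𝕜) : FI 𝕜 :=
  ⟨(p.1.1 + 1, fun n => (1 / 2 : 𝕜) * p.1.2 (n + 1)), by
    constructor
    · intro n
      dsimp only
      rw [norm_mul]
      have h1 : ‖(1 / 2 : 𝕜)‖ = 1 / 2 := by simp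
      rw [h1]
      have h2 := p.2.1 (n + 1)
      have h3 := wt_succ p.1.1
      linarith
    · intro n n' h
      dsimp only at h ⊢
      congr 1
      apply p.2.2
      intro k hk
      have := h (k + 1) (by omega)
      have e1 : n + 1 + k = n + (k + 1) := by omega
      have e2 : n' + 1 + k = n' + (k + 1) := by omega
      rw [e1, e2]
      exact this⟩

variable (𝕜)

/-- The ambient Banach space. -/
abbrev EE : Type := BoundedContinuousFunction (FI 𝕜) 𝕜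

variable {𝕜}

/-- The operator on the ambient space -/
noncomputable def TE : EE 𝕜 →L[𝕜] EE 𝕜 :=
  LinearMap.mkContinuous
    { toFun := fun e => BoundedContinuousFunction.ofNormedAddCommGroupDiscrete
        (fun p => (2 : 𝕜) * e (sg p)) (2 * ‖e‖) (fun p => by
          rw [norm_mul]
          have h1 : ‖(2 : 𝕜)‖ = 2 := by simp
          rw [h1]
          exact mul_le_mul_of_nonneg_left (e.norm_coe_le_norm _) (by norm_num))
      map_add' := fun e f => by
        ext p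
        simp [mul_add]
      map_smul' := fun c e => by
        ext p
        simp [mul_left_comm] } 2 (fun e => by
      rw [BoundedContinuousFunction.norm_le (by positivity)]
      intro p
      change ‖(2 : 𝕜) * e (sg p)‖ ≤ 2 * ‖e‖
      rw [norm_mul]
      have h1 : ‖(2 : 𝕜)‖ = 2 := by simp
      rw [h1]
      exact mul_le_mul_of_nonneg_left (e.norm_coe_le_norm _) (by norm_num))

theorem TE_apply (e : EE 𝕜) (p : FI 𝕜) : TE e p = 2 * e (sg p) := rfl

/-- The vectors `e_n` -/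
noncomputable def en (n : ℕ) : EE 𝕜 :=
  BoundedContinuousFunction.ofNormedAddCommGroupDiscrete (fun p => p.1.2 n) 1
    (fun p => (p.2.1 n).trans (wt_le_one _))

theorem en_apply (n : ℕ) (p : FI 𝕜) : en n p = p.1.2 n := rfl

theorem TE_en (n : ℕ) : TE (en n : EE 𝕜) = en (n + 1) := by
  ext p
  rw [TE_apply, en_apply, en_apply]
  simp only [sg]
  rw [← mul_assoc]
  simp

variable (𝕜)

/-- The Banach space -/
noncomputable def XX : Submodule 𝕜 (EE 𝕜) :=
  (Submodule.span 𝕜 (Set.range (en : ℕ → EE 𝕜))).topologicalClosure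

variable {𝕜}

theorem isClosed_XX : IsClosed (XX 𝕜 : Set (EE 𝕜)) := Submodule.isClosed_topologicalClosure _

instance : CompleteSpace (XX 𝕜) := isClosed_XX.completeSpace_coe

theorem en_mem (n : ℕ) : (en n : EE 𝕜) ∈ XX 𝕜 :=
  Submodule.le_topologicalClosure _ (Submodule.subset_span ⟨n, rfl⟩)

/-- closed linear conditions which hold on `e_n` hold on `X`. -/
theorem eq_zero_of_en {F : Type*} [NormedAddCommGroup F] [NormedSpace 𝕜 F] (L : EE 𝕜 →L[𝕜] F)
    (h : ∀ n, L (en n) = 0) {v : EE 𝕜} (hv : v ∈ XX 𝕜) : L v = 0 := by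
  have h1 : XX 𝕜 ≤ LinearMap.ker (L : EE 𝕜 →ₗ[𝕜] F) := by
    apply Submodule.topologicalClosure_minimal
    · rw [Submodule.span_le]
      rintro _ ⟨n, rfl⟩
      exact h n
    · exact L.isClosed_ker
  exact h1 hv

theorem TE_mem {v : EE 𝕜} (hv : v ∈ XX 𝕜) : TE v ∈ XX 𝕜 := by
  have h1 : XX 𝕜 ≤ (XX 𝕜).comap (TE : EE 𝕜 →L[𝕜] EE 𝕜).toLinearMap := by
    apply Submodule.topologicalClosure_minimal
    · rw [Submodule.span_le]
      rintro _ ⟨n, rfl⟩
      change TE (en n) ∈ XX 𝕜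
      rw [TE_en]
      exact en_mem _
    · exact isClosed_XX.preimage (TE : EE 𝕜 →L[𝕜] EE 𝕜).continuous
  exact h1 hv

/-- The operator -/
noncomputable def TX : XX 𝕜 →L[𝕜] XX 𝕜 :=
  ((TE : EE 𝕜 →L[𝕜] EE 𝕜).comp (XX 𝕜).subtypeL).codRestrict (XX 𝕜) (fun v => TE_mem v.2)

theorem TX_coe (v : XX 𝕜) : ((TX v : XX 𝕜) : EE 𝕜) = TE (v : EE 𝕜) := rfl

/-- the vectors in the space -/
noncomputable def eX (n : ℕ) : XX 𝕜 := ⟨en n, en_mem n⟩

theorem TX_eX (n : ℕ) : TX (eX n : XX 𝕜) = eX (n + 1) := Subtype.ext (TE_en n)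

theorem TX_iterate_eX (m n : ℕ) : (TX : XX 𝕜 →L[𝕜] XX 𝕜)^[m] (eX n) = eX (n + m) := by
  induction m with
  | zero => rfl
  | succ m ih => rw [Function.iterate_succ_apply', ih, TX_eX, add_assoc]

theorem norm_en_sub {i m : ℕ} (hm : OccX i m) : ‖(en m : EE 𝕜) - en 0‖ ≤ 2 * wt (lh i) := by
  rw [BoundedContinuousFunction.norm_le (by have := wt_pos (lh i); positivity)]
  intro p
  rw [BoundedContinuousFunction.sub_apply, en_apply, en_apply]
  rcases le_total p.1.1 (lh i) with h | h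
  · have : p.1.2 m = p.1.2 0 := by
      apply p.2.2
      intro k hk
      rw [hm k (by omega), zero_add, xb_eq (i := i) (by omega)]
    rw [this, sub_self, norm_zero]
    have := wt_pos (lh i)
    positivity
  · have h1 := p.2.1 m
    have h2 := p.2.1 0
    have h3 := wt_anti h
    calc ‖p.1.2 m - p.1.2 0‖ ≤ ‖p.1.2 m‖ + ‖p.1.2 0‖ := norm_sub_le _ _
      _ ≤ 2 * wt (lh i) := by linarith

theorem occX_syndetic (i : ℕ) : IsSyndetic {m | OccX i m} := by
  refine ⟨lh i + 1, fun n => ?_⟩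
  obtain ⟨t, h1, h2, _, h4⟩ := tiling i n
  rcases h4 with h | h
  · exact ⟨_, h, h2, by omega⟩
  · exact ⟨_, h, by omega, by omega⟩

theorem span_bound (v : XX 𝕜) (hv : v ∈ Submodule.span 𝕜 (Set.range (eX : ℕ → XX 𝕜))) :
    ∃ C : ℝ, 0 ≤ C ∧ ∀ m : ℕ, ‖(TX : XX 𝕜 →L[𝕜] XX 𝕜)^[m] v - v‖ ≤ C * ‖(eX m : XX 𝕜) - eX 0‖ := by
  induction hv using Submodule.span_induction with
  | mem x hx =>
    obtain ⟨n, rfl⟩ := hx
    refine ⟨‖(TX : XX 𝕜 →L[𝕜] XX 𝕜) ^ n‖, ContinuousLinearMap.opNorm_nonneg _, fun m => ?_⟩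
    have h1 : (TX : XX 𝕜 →L[𝕜] XX 𝕜)^[m] (eX n) - eX n =
        ((TX : XX 𝕜 →L[𝕜] XX 𝕜) ^ n) (eX m - eX 0) := by
      rw [map_sub, FunLike.coe_pow_eq_iterate, TX_iterate_eX, TX_iterate_eX, TX_iterate_eX,
        add_comm n m, zero_add]
    rw [h1]
    exact ContinuousLinearMap.le_opNorm _ _
  | zero =>
    refine ⟨0, le_rfl, fun m => ?_⟩
    rw [← FunLike.coe_pow_eq_iterate, map_zero]
    simp
  | add x y _ _ hx hy =>
    obtain ⟨C, hC, h1⟩ := hx
    obtain ⟨C', hC', h2⟩ := hy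
    refine ⟨C + C', by positivity, fun m => ?_⟩
    have h3 : (TX : XX 𝕜 →L[𝕜] XX 𝕜)^[m] (x + y) - (x + y) =
        ((TX : XX 𝕜 →L[𝕜] XX 𝕜)^[m] x - x) + ((TX : XX 𝕜 →L[𝕜] XX 𝕜)^[m] y - y) := by
      rw [← FunLike.coe_pow_eq_iterate, map_add]
      abel
    rw [h3]
    refine (norm_add_le _ _).trans ?_
    have := h1 m
    have := h2 m
    linarith
  | smul a x _ hx =>
    obtain ⟨C, hC, h1⟩ := hx
    refine ⟨‖a‖ * C, by positivity, fun m => ?_⟩
    have h3 : (TX : XX 𝕜 →L[𝕜] XX 𝕜)^[m] (a • x) - (a • x) =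
        a • ((TX : XX 𝕜 →L[𝕜] XX 𝕜)^[m] x - x) := by
      rw [← FunLike.coe_pow_eq_iterate, map_smul, smul_sub]
    rw [h3, norm_smul, mul_assoc]
    exact mul_le_mul_of_nonneg_left (h1 m) (norm_nonneg _)

theorem span_unifRec (v : XX 𝕜) (hv : v ∈ Submodule.span 𝕜 (Set.range (eX : ℕ → XX 𝕜))) :
    IsUniformlyRecurrent (TX : XX 𝕜 →L[𝕜] XX 𝕜) v := by
  intro U hU
  obtain ⟨ε, hε, hεU⟩ := Metric.mem_nhds_iff.1 hU
  obtain ⟨C, hC, h1⟩ := span_bound v hv
  have h2 : ∀ᶠ i in atTop, wt (lh i) < ε / (2 * (C + 1)) :=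
    (tendsto_order.1 (wt_tendsto.comp lh_strictMono.tendsto_atTop)).2 _ (by positivity)
  obtain ⟨i, hi⟩ := h2.exists
  apply (occX_syndetic i).mono
  intro m hm
  apply hεU
  rw [Metric.mem_ball, dist_eq_norm]
  refine lt_of_le_of_lt (h1 m) ?_
  have h3 : ‖(eX m : XX 𝕜) - eX 0‖ ≤ 2 * wt (lh i) := norm_en_sub hm
  have h4 : 2 * wt (lh i) < ε / (C + 1) := by
    rw [lt_div_iff₀ (by positivity)] at hi ⊢
    linarith
  have h5 : 0 < ε / (C + 1) := by positivity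
  calc C * ‖(eX m : XX 𝕜) - eX 0‖ ≤ C * (2 * wt (lh i)) := mul_le_mul_of_nonneg_left h3 hC
    _ ≤ C * (ε / (C + 1)) := mul_le_mul_of_nonneg_left h4.le hC
    _ < (C + 1) * (ε / (C + 1)) := by
        apply mul_lt_mul_of_pos_right _ h5
        linarith
    _ = ε := by field_simp

theorem dense_span : Dense (Submodule.span 𝕜 (Set.range (eX : ℕ → XX 𝕜)) : Set (XX 𝕜)) := by
  intro v
  rw [Metric.mem_closure_iff]
  intro ε hε
  have hv : (v : EE 𝕜) ∈ closure
      (Submodule.span 𝕜 (Set.range (en : ℕ → EE 𝕜)) : Set (EE 𝕜)) := v.2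
  rw [Metric.mem_closure_iff] at hv
  obtain ⟨w, hw, hdist⟩ := hv ε hε
  have hmap : (Submodule.span 𝕜 (Set.range (eX : ℕ → XX 𝕜))).map (XX 𝕜).subtype =
      Submodule.span 𝕜 (Set.range (en : ℕ → EE 𝕜)) := by
    rw [Submodule.map_span, ← Set.range_comp]
    rfl
  rw [SetLike.mem_coe, ← hmap] at hw
  obtain ⟨w', hw', rfl⟩ := hw
  exact ⟨w', hw', hdist⟩

theorem dense_unifRec : Dense {v : XX 𝕜 | IsUniformlyRecurrent (TX : XX 𝕜 →L[𝕜] XX 𝕜) v} :=
  dense_span.mono (fun v hv => span_unifRec v hv)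

end Pool.Agent.MP_145b75_an
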