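import Pool.Agent.MP_145b75_an.IPSets

/-! From decorrelation of polynomial expressions to thick difference sets (MP_145b75_an). -/

namespace Pool.Agent.MP_145b75_an

open Finset Filter Topology

/-- Data of levels: `N i` length of the averaging window, `r i` number of shifts, `H i` step. -/
structure Levels where
  /-- window length -/
  N : ℕ → ℕ
  /-- number of multiples -/
  r : ℕ → ℕ
  /-- step -/
  H : ℕ → ℕ
  hN : ∀ i, 0 < N i
  hr : ∀ i, 0 < r i
  hNinf : Tendsto N atTop atTop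

/-- The averaged decorrelation defect of two sequences at level `i`. -/
noncomputable def Levels.D (Λ : Levels) (i : ℕ) (g g' : ℕ → ℝ) : ℝ :=
  (∑ c ∈ range (Λ.r i), |∑ n ∈ range (Λ.N i), g n * (g' (n + c * Λ.H i) -
    g' (n + c * Λ.H i + 1))|) / (Λ.r i * Λ.N i)

/-- Asymptotic decorrelation. -/
def Levels.Dec (Λ : Levels) (g g' : ℕ → ℝ) : Prop := Tendsto (fun i => Λ.D i g g') atTop (𝓝 0)

variable (Λ : Levels)

theorem Levels.D_nonneg (i : ℕ) (g g' : ℕ → ℝ) : 0 ≤ Λ.D i g g' := by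
  unfold Levels.D
  exact div_nonneg (Finset.sum_nonneg (fun _ _ => abs_nonneg _)) (by positivity)

theorem Levels.D_add_left (i : ℕ) (g₁ g₂ g' : ℕ → ℝ) :
    Λ.D i (g₁ + g₂) g' ≤ Λ.D i g₁ g' + Λ.D i g₂ g' := by
  unfold Levels.D
  rw [← add_div, ← Finset.sum_add_distrib]
  apply div_le_div_of_nonneg_right _ (by positivity)
  apply Finset.sum_le_sum
  intro c _
  refine le_trans (le_of_eq ?_) (abs_add_le _ _)
  rw [← Finset.sum_add_distrib]
  congr 1
  apply Finset.sum_congr rfl
  intro n _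
  simp only [Pi.add_apply]
  ring

theorem Levels.D_add_right (i : ℕ) (g g₁ g₂ : ℕ → ℝ) :
    Λ.D i g (g₁ + g₂) ≤ Λ.D i g g₁ + Λ.D i g g₂ := by
  unfold Levels.D
  rw [← add_div, ← Finset.sum_add_distrib]
  apply div_le_div_of_nonneg_right _ (by positivity)
  apply Finset.sum_le_sum
  intro c _
  refine le_trans (le_of_eq ?_) (abs_add_le _ _)
  rw [← Finset.sum_add_distrib]
  congr 1
  apply Finset.sum_congr rfl
  intro n _
  simp only [Pi.add_apply]
  ring

theorem Levels.D_smul_left (i : ℕ) (a : ℝ) (g g' : ℕ → ℝ) :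
    Λ.D i (a • g) g' = |a| * Λ.D i g g' := by
  unfold Levels.D
  rw [mul_div_assoc', Finset.mul_sum]
  congr 1
  apply Finset.sum_congr rfl
  intro c _
  rw [← abs_mul, Finset.mul_sum]
  congr 1
  apply Finset.sum_congr rfl
  intro n _
  simp only [Pi.smul_apply, smul_eq_mul]
  ring

theorem Levels.D_smul_right (i : ℕ) (a : ℝ) (g g' : ℕ → ℝ) :
    Λ.D i g (a • g') = |a| * Λ.D i g g' := by
  unfold Levels.D
  rw [mul_div_assoc', Finset.mul_sum]
  congr 1
  apply Finset.sum_congr rfl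
  intro c _
  rw [← abs_mul, Finset.mul_sum]
  congr 1
  apply Finset.sum_congr rfl
  intro n _
  simp only [Pi.smul_apply, smul_eq_mul]
  ring

theorem Levels.Dec.add_left {g₁ g₂ g' : ℕ → ℝ} (h1 : Λ.Dec g₁ g') (h2 : Λ.Dec g₂ g') :
    Λ.Dec (g₁ + g₂) g' := by
  have h3 := h1.add h2
  rw [add_zero] at h3
  exact squeeze_zero (fun i => Λ.D_nonneg i _ _) (fun i => Λ.D_add_left i _ _ _) h3

theorem Levels.Dec.add_right {g g₁ g₂ : ℕ → ℝ} (h1 : Λ.Dec g g₁) (h2 : Λ.Dec g g₂) :
    Λ.Dec g (g₁ + g₂) := by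
  have h3 := h1.add h2
  rw [add_zero] at h3
  exact squeeze_zero (fun i => Λ.D_nonneg i _ _) (fun i => Λ.D_add_right i _ _ _) h3

theorem Levels.Dec.smul_left {g g' : ℕ → ℝ} (a : ℝ) (h1 : Λ.Dec g g') : Λ.Dec (a • g) g' := by
  have h3 := h1.const_mul |a|
  rw [mul_zero] at h3
  unfold Levels.Dec
  simp_rw [Λ.D_smul_left]
  exact h3

theorem Levels.Dec.smul_right {g g' : ℕ → ℝ} (a : ℝ) (h1 : Λ.Dec g g') : Λ.Dec g (a • g') := by
  have h3 := h1.const_mul |a|
  rw [mul_zero] at h3
  unfold Levels.Dec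
  simp_rw [Λ.D_smul_right]
  exact h3

theorem Levels.Dec.zero_left (g' : ℕ → ℝ) : Λ.Dec 0 g' := by
  unfold Levels.Dec Levels.D
  simp

theorem Levels.Dec.zero_right (g : ℕ → ℝ) : Λ.Dec g 0 := by
  unfold Levels.Dec Levels.D
  simp

/-- The algebra of polynomial expressions in the shifts of `b`. -/
def polyAlg (b : ℕ → ℝ) : Subalgebra ℝ (ℕ → ℝ) :=
  Algebra.adjoin ℝ (Set.range (fun j : ℕ => fun n : ℕ => b (n + j)))

theorem mem_closure_mono (b : ℕ → ℝ) (g : ℕ → ℝ)
    (hg : g ∈ Submonoid.closure (Set.range (fun j : ℕ => fun n : ℕ => b (n + j)))) :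
    ∃ (d : ℕ) (τ : Fin d → ℕ), g = fun n => ∏ j, b (n + τ j) := by
  induction hg using Submonoid.closure_induction with
  | mem x hx =>
    obtain ⟨j, rfl⟩ := hx
    exact ⟨1, fun _ => j, by funext n; simp⟩
  | one => exact ⟨0, Fin.elim0, by funext n; simp⟩
  | mul x y _ _ hx hy =>
    obtain ⟨d, τ, rfl⟩ := hx
    obtain ⟨d', τ', rfl⟩ := hy
    refine ⟨d + d', Fin.append τ τ', ?_⟩
    funext n
    simp only [Pi.mul_apply]
    rw [Fin.prod_univ_add]
    simp

theorem dec_polyAlg (b : ℕ → ℝ)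
    (hmono : ∀ (d d' : ℕ) (τ : Fin d → ℕ) (τ' : Fin d' → ℕ),
      Λ.Dec (fun n => ∏ j, b (n + τ j)) (fun n => ∏ j, b (n + τ' j)))
    {g g' : ℕ → ℝ} (hg : g ∈ polyAlg b) (hg' : g' ∈ polyAlg b) : Λ.Dec g g' := by
  have e : ∀ {f : ℕ → ℝ}, f ∈ polyAlg b → f ∈ Submodule.span ℝ
      ((Submonoid.closure (Set.range (fun j : ℕ => fun n : ℕ => b (n + j))) :
        Submonoid (ℕ → ℝ)) : Set (ℕ → ℝ)) := by
    intro f hf
    rw [← Algebra.adjoin_eq_span]
    exact hf
  have hg1 := e hg
  have hg1' := e hg'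
  induction hg1 using Submodule.span_induction with
  | mem x hx =>
    obtain ⟨d, τ, rfl⟩ := mem_closure_mono b x hx
    clear hg hg'
    induction hg1' using Submodule.span_induction with
    | mem y hy =>
      obtain ⟨d', τ', rfl⟩ := mem_closure_mono b y hy
      exact hmono d d' τ τ'
    | zero => exact Levels.Dec.zero_right Λ _
    | add y z _ _ hy hz => exact Levels.Dec.add_right Λ hy hz
    | smul a y _ hy => exact Levels.Dec.smul_right Λ a hy
  | zero => exact Levels.Dec.zero_left Λ _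
  | add y z hy' hz' hy hz =>
    have ey : y ∈ polyAlg b := by
      have : y ∈ Subalgebra.toSubmodule (polyAlg b) := by
        unfold polyAlg
        rw [Algebra.adjoin_eq_span]
        exact hy'
      exact this
    have ez : z ∈ polyAlg b := by
      have : z ∈ Subalgebra.toSubmodule (polyAlg b) := by
        unfold polyAlg
        rw [Algebra.adjoin_eq_span]
        exact hz'
      exact this
    exact Levels.Dec.add_left Λ (hy ey) (hz ez)
  | smul a y hy' hy =>
    have ey : y ∈ polyAlg b := by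
      have : y ∈ Subalgebra.toSubmodule (polyAlg b) := by
        unfold polyAlg
        rw [Algebra.adjoin_eq_span]
        exact hy'
      exact this
    exact Levels.Dec.smul_left Λ a (hy ey)

/-- the squared distance of `S^n b` to `b` on `[0,K]`. -/
noncomputable def qd (b : ℕ → ℝ) (K : ℕ) (n : ℕ) : ℝ :=
  ∑ j ∈ range (K + 1), (b (n + j) - b j) ^ 2

theorem thick (b : ℕ → ℝ) (M : ℝ) (hM : ∀ n, |b n| ≤ M)
    (hsynd : ∀ (K : ℕ) (ε : ℝ), 0 < ε → IsSyndetic {n | ∀ j ≤ K, |b (n + j) - b j| < ε})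
    (hdec : ∀ g ∈ polyAlg b, ∀ g' ∈ polyAlg b, Λ.Dec g g')
    (K : ℕ) (ε : ℝ) (hε : 0 < ε) (hε1 : ε ≤ 1) (L₂ : ℕ) :
    ∃ k : ℕ, ∀ t ≤ L₂, ∃ n, (∀ j ≤ K, |b (n + j) - b j| < ε) ∧
      (∀ j ≤ K, |b (n + k + t + j) - b j| < ε) := by
  have hM0 : 0 ≤ M := (abs_nonneg _).trans (hM 0)
  set C : ℝ := 2 * (K + 1) * (2 * M) ^ 2 + 1 with hC
  have hC1 : 1 ≤ C := by
    rw [hC]
    have : (0 : ℝ) ≤ 2 * (K + 1) * (2 * M) ^ 2 := by positivity
    linarith
  have hC0 : 0 < C := by linarith
  set q : ℕ → ℝ := qd b K with hq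
  have hq0 : ∀ n, 0 ≤ q n := fun n => Finset.sum_nonneg (fun _ _ => sq_nonneg _)
  have hqC : ∀ n, q n ≤ C := by
    intro n
    have : q n ≤ ∑ j ∈ range (K + 1), (2 * M) ^ 2 := by
      apply Finset.sum_le_sum
      intro j _
      have h1 := hM (n + j)
      have h2 := hM j
      rw [abs_le] at h1 h2
      apply sq_le_sq'
      · linarith
      · linarith
    refine this.trans ?_
    rw [Finset.sum_const, card_range, nsmul_eq_mul, hC]
    push_cast
    have : (0 : ℝ) ≤ (K + 1) * (2 * M) ^ 2 := by positivity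
    linarith
  set θ₁ : ℝ := 1 - ε ^ 2 / (4 * C) with hθ₁
  set θ₂ : ℝ := 1 - ε ^ 2 / C with hθ₂
  have hε2 : ε ^ 2 ≤ 1 := by nlinarith
  have hεC : ε ^ 2 / C ≤ 1 := by
    rw [div_le_one hC0]
    linarith
  have hεC0 : 0 < ε ^ 2 / C := by positivity
  have e4 : ε ^ 2 / (4 * C) = (ε ^ 2 / C) / 4 := by
    field_simp
  have hθ₂0 : 0 ≤ θ₂ := by rw [hθ₂]; linarith
  have hθ₁0 : 0 < θ₁ := by rw [hθ₁, e4]; linarith
  have hθ₁1 : θ₁ ≤ 1 := by rw [hθ₁, e4]; linarith
  have hθ : θ₂ < θ₁ ^ 2 := by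
    rw [hθ₁, hθ₂, e4]
    nlinarith
  -- the small neighbourhood
  obtain ⟨L, hL⟩ := hsynd K (ε / (2 * (K + 1))) (by positivity)
  -- choose the exponent
  obtain ⟨R, hR⟩ : ∃ R : ℕ, (θ₂ / θ₁ ^ 2) ^ R < 1 / (4 * ((L : ℝ) + 1) ^ 2) := by
    apply exists_pow_lt_of_lt_one (by positivity)
    rw [div_lt_one (by positivity)]
    exact hθ
  set κ : ℝ := (θ₁ ^ R) ^ 2 / (4 * ((L : ℝ) + 1) ^ 2) with hκ
  have hκ0 : 0 < κ := by positivity
  have hR' : θ₂ ^ R < κ := by
    rw [div_pow, div_lt_iff₀ (by positivity)] at hR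
    rw [hκ, div_eq_mul_one_div, mul_comm]
    rw [← pow_mul, mul_comm 2 R, pow_mul] at hR
    exact hR
  let g : ℕ → ℕ → ℝ := fun t n => (1 - q (n + t) / C) ^ R
  have hg0 : ∀ t n, 0 ≤ g t n := by
    intro t n
    apply pow_nonneg
    have := hqC (n + t)
    rw [sub_nonneg, div_le_one hC0]
    exact this
  have hg1 : ∀ t n, g t n ≤ 1 := by
    intro t n
    apply pow_le_one₀
    · have := hqC (n + t)
      rw [sub_nonneg, div_le_one hC0]
      exact this
    · have := hq0 (n + t)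
      have : 0 ≤ q (n + t) / C := by positivity
      linarith
  have hgV : ∀ n, (∀ j ≤ K, |b (n + j) - b j| < ε / (2 * (K + 1))) → θ₁ ^ R ≤ g 0 n := by
    intro n hn
    apply pow_le_pow_left₀ hθ₁0.le
    have h1 : q n ≤ ε ^ 2 / 4 := by
      have h2 : q n ≤ ∑ j ∈ range (K + 1), (ε / (2 * (K + 1))) ^ 2 := by
        apply Finset.sum_le_sum
        intro j hj
        have h3 := hn j (by rw [mem_range] at hj; omega)
        rw [abs_lt] at h3
        apply sq_le_sq'
        · linarith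
        · linarith
      refine h2.trans ?_
      rw [Finset.sum_const, card_range, nsmul_eq_mul]
      push_cast
      have h5 : ((K : ℝ) + 1) * (ε / (2 * (K + 1))) ^ 2 = ε ^ 2 / 4 / (K + 1) := by
        field_simp
        ring
      rw [h5]
      apply div_le_self (by positivity)
      linarith [(Nat.cast_nonneg K : (0 : ℝ) ≤ K)]
    have h2 : q n / C ≤ ε ^ 2 / (4 * C) := by
      calc q n / C ≤ (ε ^ 2 / 4) / C := div_le_div_of_nonneg_right h1 hC0.le
        _ = ε ^ 2 / (4 * C) := by field_simp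
    simp only [add_zero]
    rw [hθ₁]
    linarith
  have hgnV : ∀ t n, ¬ (∀ j ≤ K, |b (n + t + j) - b j| < ε) → g t n ≤ θ₂ ^ R := by
    intro t n hn
    apply pow_le_pow_left₀
    · have := hqC (n + t)
      rw [sub_nonneg, div_le_one hC0]
      exact this
    · push Not at hn
      obtain ⟨j, hj, hj2⟩ := hn
      have h1 : ε ^ 2 ≤ q (n + t) := by
        have h2 : (b (n + t + j) - b j) ^ 2 ≤ q (n + t) :=
          Finset.single_le_sum (f := fun j => (b (n + t + j) - b j) ^ 2)
            (fun _ _ => sq_nonneg _) (by rw [mem_range]; omega)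
        refine le_trans ?_ h2
        rw [← sq_abs (b (n + t + j) - b j)]
        exact pow_le_pow_left₀ hε.le hj2 2
      have h2 : ε ^ 2 / C ≤ q (n + t) / C := div_le_div_of_nonneg_right h1 hC0.le
      rw [hθ₂]
      linarith
  have hgmem : ∀ t, g t ∈ polyAlg b := by
    intro t
    have hb : ∀ j : ℕ, (fun n => b (n + j)) ∈ polyAlg b :=
      fun j => Algebra.subset_adjoin ⟨j, rfl⟩
    have h1 : (fun n => q (n + t)) ∈ polyAlg b := by
      have h2 : (fun n => q (n + t)) =
          ∑ j ∈ range (K + 1), ((fun n => b (n + (t + j))) - algebraMap ℝ (ℕ → ℝ) (b j)) ^ 2 := by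
        funext n
        simp only [hq, qd, Finset.sum_apply, Pi.pow_apply, Pi.sub_apply]
        apply Finset.sum_congr rfl
        intro j _
        rw [add_assoc]
        rfl
      rw [h2]
      apply Subalgebra.sum_mem
      intro j _
      apply Subalgebra.pow_mem
      apply Subalgebra.sub_mem _ (hb _)
      exact Subalgebra.algebraMap_mem _ _
    have h3 : g t = (1 - (1 / C) • (fun n => q (n + t))) ^ R := by
      funext n
      simp only [g, Pi.pow_apply, Pi.sub_apply, Pi.one_apply, Pi.smul_apply, smul_eq_mul]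
      congr 2
      ring
    rw [h3]
    apply Subalgebra.pow_mem
    apply Subalgebra.sub_mem _ (Subalgebra.one_mem _)
    exact Subalgebra.smul_mem _ h1 _
  -- now choose the level
  set T : ℕ := L + L₂ + 1 with hT
  have hlim : Tendsto (fun i => ∑ t ∈ range T, Λ.D i (g 0) (g t)) atTop (𝓝 0) := by
    have : Tendsto (fun i => ∑ t ∈ range T, Λ.D i (g 0) (g t)) atTop (𝓝 (∑ t ∈ range T, (0:ℝ))) :=
      tendsto_finsetSum _ (fun t _ => hdec _ (hgmem 0) _ (hgmem t))
    simpa using this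
  have hev1 := (tendsto_order.1 hlim).2 κ hκ0
  have hev2 : ∀ᶠ i in atTop, 2 * (L : ℝ) * (L + 1) / θ₁ ^ R ≤ Λ.N i := by
    have : Tendsto (fun i => (Λ.N i : ℝ)) atTop atTop :=
      tendsto_natCast_atTop_atTop.comp Λ.hNinf
    exact this.eventually_ge_atTop _
  obtain ⟨i, hi1, hi2⟩ := (hev1.and hev2).exists
  set N : ℕ := Λ.N i with hN
  have hNpos : (0 : ℝ) < N := by exact_mod_cast Λ.hN i
  have hrpos : (0 : ℝ) < Λ.r i := by exact_mod_cast Λ.hr i
  let A : ℕ → ℕ → ℝ := fun c t => (∑ n ∈ range N, g 0 n * g t (n + c * Λ.H i)) / N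
  have hgshift : ∀ t n, g t (n + 1) = g (t + 1) n := by
    intro t n
    simp only [g]
    congr 4
    ring
  have hDA : ∀ t, Λ.D i (g 0) (g t) = (∑ c ∈ range (Λ.r i), |A c t - A c (t + 1)|) / Λ.r i := by
    intro t
    unfold Levels.D
    have h1 : ∀ c, |A c t - A c (t + 1)| = |∑ n ∈ range (Λ.N i), g 0 n * (g t (n + c * Λ.H i) -
        g t (n + c * Λ.H i + 1))| / N := by
      intro c
      simp only [A]
      rw [← sub_div, abs_div, abs_of_pos hNpos, ← Finset.sum_sub_distrib]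
      congr 2
      apply Finset.sum_congr rfl
      intro n _
      rw [hgshift, mul_sub]
    simp_rw [h1]
    rw [← Finset.sum_div, div_div, mul_comm (Λ.r i : ℝ)]
  obtain ⟨c, hc⟩ : ∃ c, ∑ t ∈ range T, |A c t - A c (t + 1)| < κ := by
    by_contra hcon
    push Not at hcon
    have h1 : ∑ t ∈ range T, Λ.D i (g 0) (g t) =
        (∑ c ∈ range (Λ.r i), ∑ t ∈ range T, |A c t - A c (t + 1)|) / Λ.r i := by
      simp_rw [hDA]
      rw [← Finset.sum_div, Finset.sum_comm]
    rw [h1] at hi1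
    have h2 : κ ≤ (∑ c ∈ range (Λ.r i), ∑ t ∈ range T, |A c t - A c (t + 1)|) / Λ.r i := by
      rw [le_div_iff₀ hrpos]
      calc κ * Λ.r i = ∑ c ∈ range (Λ.r i), κ := by
            rw [Finset.sum_const, card_range, nsmul_eq_mul, mul_comm]
        _ ≤ _ := Finset.sum_le_sum (fun c _ => hcon c)
    linarith
  have hAdiff : ∀ t ≤ T, ∀ t' ≤ T, |A c t - A c t'| < κ := by
    have haux : ∀ t t', t ≤ t' → t' ≤ T → |A c t - A c t'| ≤ ∑ s ∈ Finset.Ico t t',
        |A c s - A c (s + 1)| := by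
      intro t t' htt ht'
      induction t', htt using Nat.le_induction with
      | base => simp
      | succ k hk ih =>
        rw [Finset.sum_Ico_succ_top hk]
        have := ih (by omega)
        calc |A c t - A c (k + 1)| = |(A c t - A c k) + (A c k - A c (k + 1))| := by ring_nf
          _ ≤ |A c t - A c k| + |A c k - A c (k + 1)| := abs_add_le _ _
          _ ≤ _ := by linarith
    have haux2 : ∀ t t', t ≤ t' → t' ≤ T → |A c t - A c t'| < κ := by
      intro t t' htt ht'
      refine lt_of_le_of_lt (haux t t' htt ht') (lt_of_le_of_lt ?_ hc)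
      apply Finset.sum_le_sum_of_subset_of_nonneg
      · intro s hs
        rw [Finset.mem_Ico] at hs
        rw [mem_range]
        omega
      · intro _ _ _
        exact abs_nonneg _
    intro t ht t' ht'
    rcases le_total t t' with h | h
    · exact haux2 t t' h ht'
    · rw [abs_sub_comm]
      exact haux2 t' t h ht
  -- lower bound
  have hmean : θ₁ ^ R / (2 * (L + 1)) ≤ (∑ n ∈ range N, g 0 n) / N := by
    have h1 : ∀ n, θ₁ ^ R ≤ ∑ t ∈ range (L + 1), g 0 (n + t) := by
      intro n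
      obtain ⟨m, hm, hm1, hm2⟩ := hL n
      have h2 := hgV m hm
      refine h2.trans ?_
      have h3 : g 0 m = g 0 (n + (m - n)) := by
        congr 1
        omega
      rw [h3]
      exact Finset.single_le_sum (f := fun t => g 0 (n + t)) (fun _ _ => hg0 _ _)
        (by rw [mem_range]; omega)
    have h2 : ∀ t ∈ range (L + 1), ∑ n ∈ range N, g 0 (n + t) ≤ ∑ n ∈ range N, g 0 n + L := by
      intro t ht
      rw [mem_range] at ht
      have h3 : ∑ n ∈ range N, g 0 (n + t) = ∑ n ∈ Finset.Ico t (N + t), g 0 n := by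
        rw [Finset.range_eq_Ico, Finset.sum_Ico_add' (g 0) 0 N t, zero_add]
      rw [h3]
      have h4 : ∑ n ∈ Finset.Ico t (N + t), g 0 n ≤ ∑ n ∈ Finset.range (N + t), g 0 n := by
        apply Finset.sum_le_sum_of_subset_of_nonneg
        · intro s hs
          rw [Finset.mem_Ico] at hs
          rw [mem_range]
          omega
        · intro _ _ _
          exact hg0 _ _
      refine h4.trans ?_
      rw [Finset.sum_range_add]
      have h5 : ∑ x ∈ range t, g 0 (N + x) ≤ ∑ x ∈ range t, (1 : ℝ) :=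
        Finset.sum_le_sum (fun _ _ => hg1 _ _)
      rw [Finset.sum_const, card_range, nsmul_eq_mul, mul_one] at h5
      have h6 : (t : ℝ) ≤ L := by exact_mod_cast (by omega : t ≤ L)
      linarith
    have h3 : θ₁ ^ R * N ≤ (L + 1) * (∑ n ∈ range N, g 0 n + L) := by
      calc θ₁ ^ R * N = ∑ n ∈ range N, θ₁ ^ R := by
            rw [Finset.sum_const, card_range, nsmul_eq_mul, mul_comm]
        _ ≤ ∑ n ∈ range N, ∑ t ∈ range (L + 1), g 0 (n + t) :=
            Finset.sum_le_sum (fun n _ => h1 n)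
        _ = ∑ t ∈ range (L + 1), ∑ n ∈ range N, g 0 (n + t) := Finset.sum_comm
        _ ≤ ∑ t ∈ range (L + 1), (∑ n ∈ range N, g 0 n + L) := Finset.sum_le_sum h2
        _ = (L + 1) * (∑ n ∈ range N, g 0 n + L) := by
            rw [Finset.sum_const, card_range, nsmul_eq_mul]
            push_cast
            ring
    rw [div_le_div_iff₀ (by positivity) hNpos]
    have h4 : 2 * (L : ℝ) * (L + 1) ≤ θ₁ ^ R * N := by
      rw [div_le_iff₀ (by positivity)] at hi2
      rw [mul_comm (θ₁ ^ R)]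
      exact hi2
    nlinarith
  have hsumA : θ₁ ^ R * ((∑ n ∈ range N, g 0 n) / N) ≤ ∑ t ∈ range (L + 1), A c t := by
    simp only [A]
    rw [← Finset.sum_div, Finset.sum_comm, mul_div_assoc']
    apply div_le_div_of_nonneg_right _ hNpos.le
    rw [Finset.mul_sum]
    apply Finset.sum_le_sum
    intro n _
    rw [← Finset.mul_sum, mul_comm]
    apply mul_le_mul_of_nonneg_left _ (hg0 _ _)
    obtain ⟨m, hm, hm1, hm2⟩ := hL (n + c * Λ.H i)
    have h2 := hgV m hm
    refine h2.trans ?_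
    have h3 : g 0 m = g (m - (n + c * Λ.H i)) (n + c * Λ.H i) := by
      simp only [g, add_zero]
      congr 4
      omega
    rw [h3]
    exact Finset.single_le_sum (f := fun t => g t (n + c * Λ.H i)) (fun _ _ => hg0 _ _)
      (by rw [mem_range]; omega)
  obtain ⟨t₀, ht₀, hAt₀⟩ : ∃ t₀ ∈ range (L + 1), 2 * κ ≤ A c t₀ := by
    by_contra hcon
    push Not at hcon
    have h1 : ∑ t ∈ range (L + 1), A c t < ∑ t ∈ range (L + 1), 2 * κ :=
      Finset.sum_lt_sum_of_nonempty ⟨0, by simp⟩ hcon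
    rw [Finset.sum_const, card_range, nsmul_eq_mul] at h1
    have h2 : θ₁ ^ R * (θ₁ ^ R / (2 * (L + 1))) ≤ θ₁ ^ R * ((∑ n ∈ range N, g 0 n) / N) :=
      mul_le_mul_of_nonneg_left hmean (by positivity)
    have h3 : θ₁ ^ R * (θ₁ ^ R / (2 * (L + 1))) = ((L + 1 : ℕ) : ℝ) * (2 * κ) := by
      rw [hκ]
      push_cast
      field_simp
      ring
    linarith
  refine ⟨c * Λ.H i, ?_⟩
  intro t ht
  by_contra hcon
  push Not at hcon
  have h1 : A c t ≤ θ₂ ^ R := by
    simp only [A]
    rw [div_le_iff₀ hNpos]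
    calc ∑ n ∈ range N, g 0 n * g t (n + c * Λ.H i) ≤ ∑ n ∈ range N, θ₂ ^ R := by
          apply Finset.sum_le_sum
          intro n _
          by_cases hn : ∀ j ≤ K, |b (n + j) - b j| < ε
          · obtain ⟨j, hj, hj2⟩ := hcon n hn
            have h2 : g t (n + c * Λ.H i) ≤ θ₂ ^ R := by
              apply hgnV
              intro h
              exact absurd (h j hj) (not_lt.2 hj2)
            calc g 0 n * g t (n + c * Λ.H i) ≤ 1 * θ₂ ^ R :=
                  mul_le_mul (hg1 _ _) h2 (hg0 _ _) zero_le_one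
              _ = θ₂ ^ R := one_mul _
          · have h2 : g 0 n ≤ θ₂ ^ R := by
              apply hgnV
              simpa using hn
            calc g 0 n * g t (n + c * Λ.H i) ≤ θ₂ ^ R * 1 :=
                  mul_le_mul h2 (hg1 _ _) (hg0 _ _) (pow_nonneg hθ₂0 _)
              _ = θ₂ ^ R := mul_one _
      _ = θ₂ ^ R * N := by
          rw [Finset.sum_const, card_range, nsmul_eq_mul, mul_comm]
  have h2 := hAdiff t₀ (by rw [mem_range] at ht₀; omega) t (by omega)
  rw [abs_lt] at h2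
  linarith

end Pool.Agent.MP_145b75_an
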