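import Mathlib

/-! Rank-one words for MP_145b75_an. -/

namespace Pool.Agent.MP_145b75_an

/-- spacer or nothing. -/
def sep (c : Bool) : List Bool := if c then [true] else []

/-- concatenation of copies of `B`, each followed by its separator. -/
def pre (B : List Bool) (bits : List Bool) : List Bool := bits.flatMap (fun c => B ++ sep c)

/-- the word given by the separators `bits`. -/
def tile (B : List Bool) (bits : List Bool) : List Bool := pre B bits ++ B

/-- separators of one slot. -/
def slotbits (a M s : ℕ) : List Bool :=
  List.replicate s true ++ List.replicate M false ++ List.replicate (a - s) true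

/-- all separators. -/
def allbits (a M L : ℕ) (s : ℕ → ℕ) : List Bool :=
  (List.range L).flatMap (fun l => slotbits a M (s l))

theorem getD_append_lt (l l' : List Bool) (n : ℕ) (h : n < l.length) :
    (l ++ l').getD n false = l.getD n false := by
  rw [List.getD_append _ _ _ _ h]

theorem getD_append_ge (l l' : List Bool) (n : ℕ) (h : l.length ≤ n) :
    (l ++ l').getD n false = l'.getD (n - l.length) false := by
  rw [List.getD_append_right _ _ _ _ h]

/-- `B` occurs in `w` at `t`. -/
def Occ (B w : List Bool) (t : ℕ) : Prop :=
  t + B.length ≤ w.length ∧ ∀ k < B.length, w.getD (t + k) false = B.getD k false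

theorem Occ.append_left {B w : List Bool} {t : ℕ} (h : Occ B w t) (w' : List Bool) :
    Occ B (w ++ w') t := by
  refine ⟨by rw [List.length_append]; have := h.1; omega, ?_⟩
  intro k hk
  rw [getD_append_lt _ _ _ (by have := h.1; omega)]
  exact h.2 k hk

theorem Occ.append_right {B w : List Bool} {t : ℕ} (h : Occ B w t) (w' : List Bool) :
    Occ B (w' ++ w) (w'.length + t) := by
  refine ⟨by rw [List.length_append]; have := h.1; omega, ?_⟩
  intro k hk
  rw [getD_append_ge _ _ _ (by omega)]
  have e : w'.length + t + k - w'.length = t + k := by omega
  rw [e]
  exact h.2 k hk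

theorem Occ.refl (B : List Bool) : Occ B B 0 := ⟨by omega, fun k _ => by rw [zero_add]⟩

/-- `w` is tiled by copies of `B` with at most one spacer in between. -/
structure Cov (B w : List Bool) : Prop where
  start : Occ B w 0
  len : B.length ≤ w.length
  fin : Occ B w (w.length - B.length)
  cover : ∀ n < w.length, ∃ t, t ≤ n ∧ n ≤ t + B.length ∧ Occ B w t ∧
    (t + B.length = w.length ∨ Occ B w (t + B.length) ∨ Occ B w (t + B.length + 1))

theorem Cov.refl (B : List Bool) : Cov B B where
  start := Occ.refl B
  len := le_rfl
  fin := by rw [Nat.sub_self]; exact Occ.refl B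
  cover := fun n hn => ⟨0, Nat.zero_le _, by omega, Occ.refl B, Or.inl (by omega)⟩

theorem Cov.concat {B w₁ w₂ : List Bool} (h₁ : Cov B w₁) (h₂ : Cov B w₂) (c : Bool) :
    Cov B (w₁ ++ sep c ++ w₂) := by
  have hlen : (w₁ ++ sep c ++ w₂).length = w₁.length + (sep c).length + w₂.length := by
    rw [List.length_append, List.length_append]
  have hpre : (w₁ ++ sep c).length = w₁.length + (sep c).length := by
    simp [List.length_append]
  have hsep : (sep c).length ≤ 1 := by
    cases c <;> simp [sep]
  have hsep' : (sep c).length = 0 ∨ (sep c).length = 1 := by omega
  have hl1 := h₁.len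
  have hl2 := h₂.len
  have hstart2 : Occ B (w₁ ++ sep c ++ w₂) (w₁.length + (sep c).length) := by
    have := h₂.start.append_right (w₁ ++ sep c)
    rw [hpre, add_zero] at this
    exact this
  refine ⟨?_, ?_, ?_, ?_⟩
  · exact (h₁.start.append_left (sep c)).append_left w₂
  · rw [hlen]
    omega
  · have := h₂.fin.append_right (w₁ ++ sep c)
    rw [hpre] at this
    rw [hlen]
    have e : w₁.length + (sep c).length + w₂.length - B.length =
      w₁.length + (sep c).length + (w₂.length - B.length) := by omega
    rw [e]
    exact this
  · intro n hn
    rw [hlen] at hn
    rcases lt_or_ge n w₁.length with h | h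
    · obtain ⟨t, ht1, ht2, ht3, ht4⟩ := h₁.cover n h
      refine ⟨t, ht1, ht2, (ht3.append_left (sep c)).append_left w₂, Or.inr ?_⟩
      rcases ht4 with h4 | h4 | h4
      · rcases hsep' with h5 | h5
        · left
          rw [h4]
          rw [h5, add_zero] at hstart2
          exact hstart2
        · right
          rw [h4]
          rw [h5] at hstart2
          exact hstart2
      · left
        exact (h4.append_left (sep c)).append_left w₂
      · right
        exact (h4.append_left (sep c)).append_left w₂
    · rcases lt_or_ge n (w₁.length + (sep c).length) with h' | h'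
      · have h5 : (sep c).length = 1 := by omega
        have h6 : n = w₁.length := by omega
        refine ⟨w₁.length - B.length, by omega, by omega,
          (h₁.fin.append_left (sep c)).append_left w₂, Or.inr (Or.inr ?_)⟩
        rw [h5] at hstart2
        have e : w₁.length - B.length + B.length + 1 = w₁.length + 1 := by omega
        rw [e]
        exact hstart2
      · obtain ⟨t, ht1, ht2, ht3, ht4⟩ := h₂.cover (n - (w₁.length + (sep c).length)) (by omega)
        refine ⟨w₁.length + (sep c).length + t, by omega, by omega, ?_, ?_⟩
        · have := ht3.append_right (w₁ ++ sep c)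
          rw [hpre] at this
          exact this
        · rcases ht4 with h4 | h4 | h4
          · left
            rw [hlen]
            omega
          · right
            left
            have := h4.append_right (w₁ ++ sep c)
            rw [hpre] at this
            rw [add_assoc]
            exact this
          · right
            right
            have := h4.append_right (w₁ ++ sep c)
            rw [hpre] at this
            have e : w₁.length + (sep c).length + t + B.length + 1 =
              w₁.length + (sep c).length + (t + B.length + 1) := by omega
            rw [e]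
            exact this

theorem tile_cons (B : List Bool) (c : Bool) (bits : List Bool) :
    tile B (c :: bits) = B ++ sep c ++ tile B bits := by
  simp [tile, pre, List.flatMap_cons]

theorem Cov.tile {B w : List Bool} (h : Cov B w) (bits : List Bool) :
    Cov B (MP_145b75_an.tile w bits) := by
  induction bits with
  | nil => simpa [MP_145b75_an.tile, pre] using h
  | cons c bits ih =>
    rw [tile_cons]
    exact h.concat ih c

theorem length_pre_replicate_true (B : List Bool) (s : ℕ) :
    (pre B (List.replicate s true)).length = s * (B.length + 1) := by
  simp [pre, sep, List.length_flatMap]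

theorem length_pre_replicate_false (B : List Bool) (s : ℕ) :
    (pre B (List.replicate s false)).length = s * B.length := by
  simp [pre, sep, List.length_flatMap]

theorem pre_append (B b₁ b₂ : List Bool) : pre B (b₁ ++ b₂) = pre B b₁ ++ pre B b₂ := by
  simp [pre, List.flatMap_append]

/-- length of a slot. -/
def slotLen (h a M : ℕ) : ℕ := a * (h + 1) + M * h

theorem length_pre_slot (B : List Bool) (a M s : ℕ) (hs : s ≤ a) :
    (pre B (slotbits a M s)).length = slotLen B.length a M := by
  unfold slotbits slotLen
  rw [pre_append, pre_append, List.length_append, List.length_append, length_pre_replicate_true,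
    length_pre_replicate_true, length_pre_replicate_false]
  obtain ⟨d, rfl⟩ := Nat.exists_eq_add_of_le hs
  rw [Nat.add_sub_cancel_left]
  ring

theorem getD_pre_false (B : List Bool) (M z : ℕ) (hz : z < M * B.length) :
    (pre B (List.replicate M false)).getD z false = B.getD (z % B.length) false := by
  induction M generalizing z with
  | zero => simp at hz
  | succ M ih =>
    have e : pre B (List.replicate (M + 1) false) = B ++ pre B (List.replicate M false) := by
      rw [List.replicate_succ]
      simp [pre, List.flatMap_cons, sep]
    rw [e]
    rcases lt_or_ge z B.length with h | h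
    · rw [getD_append_lt _ _ _ h, Nat.mod_eq_of_lt h]
    · rw [getD_append_ge _ _ _ h, ih _ (by
        rw [Nat.succ_mul] at hz
        omega), Nat.mod_eq_sub_mod h]

theorem getD_slot (B : List Bool) (hB : 0 < B.length) (a M s y : ℕ) (hs : s ≤ a)
    (hy1 : a * (B.length + 1) ≤ y) (hy2 : y < M * B.length) :
    (pre B (slotbits a M s)).getD y false =
      B.getD (((y : ℤ) - s) % B.length).toNat false := by
  unfold slotbits
  rw [pre_append, pre_append]
  have h1 : s * (B.length + 1) ≤ y := le_trans (Nat.mul_le_mul_right _ hs) hy1
  rw [getD_append_lt _ _ _ (by
    rw [List.length_append, length_pre_replicate_true, length_pre_replicate_false]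
    omega)]
  rw [getD_append_ge _ _ _ (by rw [length_pre_replicate_true]; exact h1),
    length_pre_replicate_true, getD_pre_false B M _ (by omega)]
  congr 1
  have h2 : ((y : ℤ) - s) % B.length = (((y - s * (B.length + 1)) % B.length : ℕ) : ℤ) := by
    push_cast [h1]
    have : (y : ℤ) - s * (B.length + 1) = ((y : ℤ) - s) - s * B.length := by ring
    rw [this, Int.sub_mul_emod_self_right]
  rw [h2, Int.toNat_natCast]

theorem getD_flatMap_const (f : ℕ → List Bool) (H : ℕ) (hf : ∀ l, (f l).length = H) (L l y : ℕ)
    (hl : l < L) (hy : y < H) :
    ((List.range L).flatMap f).getD (l * H + y) false = (f l).getD y false := by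
  have hlen : ∀ L, ((List.range L).flatMap f).length = L * H := by
    intro L
    induction L with
    | zero => simp
    | succ L ih =>
      rw [List.range_succ, List.flatMap_append, List.length_append, ih]
      simp [hf, Nat.succ_mul]
  induction L with
  | zero => omega
  | succ L ih =>
    rw [List.range_succ, List.flatMap_append]
    rcases Nat.lt_succ_iff_lt_or_eq.1 hl with h | h
    · have h2 : l * H + y < L * H := by
        calc l * H + y < l * H + H := by omega
          _ = (l + 1) * H := by ring
          _ ≤ L * H := Nat.mul_le_mul_right _ h
      rw [getD_append_lt _ _ _ (by rw [hlen]; exact h2), ih h]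
    · subst h
      rw [getD_append_ge _ _ _ (by rw [hlen]; omega), hlen]
      have e : l * H + y - l * H = y := by omega
      rw [e]
      simp

theorem pre_allbits (B : List Bool) (a M L : ℕ) (s : ℕ → ℕ) :
    pre B (allbits a M L s) = (List.range L).flatMap (fun l => pre B (slotbits a M (s l))) := by
  unfold pre allbits
  rw [List.flatMap_assoc]

theorem length_tile (B : List Bool) (a M L : ℕ) (s : ℕ → ℕ) (hs : ∀ l, s l ≤ a) :
    (tile B (allbits a M L s)).length = L * slotLen B.length a M + B.length := by
  unfold tile
  rw [List.length_append, pre_allbits]
  congr 1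
  rw [List.length_flatMap]
  simp_rw [length_pre_slot B a M _ (hs _)]
  simp

theorem getD_tile (B : List Bool) (hB : 0 < B.length) (a M L : ℕ) (s : ℕ → ℕ)
    (hs : ∀ l, s l ≤ a) (l y : ℕ) (hl : l < L) (hy1 : a * (B.length + 1) ≤ y)
    (hy2 : y < M * B.length) :
    (tile B (allbits a M L s)).getD (l * slotLen B.length a M + y) false =
      B.getD (((y : ℤ) - s l) % B.length).toNat false := by
  have hyH : y < slotLen B.length a M := by
    unfold slotLen
    omega
  have hlen : (pre B (allbits a M L s)).length = L * slotLen B.length a M := by
    have := length_tile B a M L s hs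
    unfold tile at this
    rw [List.length_append] at this
    omega
  have h2 : l * slotLen B.length a M + y < L * slotLen B.length a M := by
    calc l * slotLen B.length a M + y < l * slotLen B.length a M + slotLen B.length a M := by omega
      _ = (l + 1) * slotLen B.length a M := by ring
      _ ≤ L * slotLen B.length a M := Nat.mul_le_mul_right _ hl
  unfold tile
  rw [getD_append_lt _ _ _ (by rw [hlen]; exact h2), pre_allbits,
    getD_flatMap_const _ (slotLen B.length a M) (fun l => length_pre_slot B a M _ (hs l)) L l y
      hl hyH, getD_slot B hB a M (s l) y (hs l) hy1 hy2]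

end Pool.Agent.MP_145b75_an
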